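import Mathlib

set_option autoImplicit false

open MeasureTheory Set Metric
open scoped ENNReal

namespace Pool.Agent.Y295.RS

theorem int_inv {τ R : ℝ} (hτ : 0 < τ) (hR : τ ≤ R) :
    ∫⁻ r in Ioc τ R, ENNReal.ofReal r⁻¹ = ENNReal.ofReal (Real.log (R / τ)) := by
  rw [← integral_inv_of_pos hτ (hτ.trans_le hR), intervalIntegral.integral_of_le hR,
    ofReal_integral_eq_lintegral_ofReal]
  · have h1 : IntervalIntegrable (fun x : ℝ => x⁻¹) volume τ R := by
      rw [intervalIntegrable_inv_iff]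
      right
      rw [uIcc_of_le hR]
      exact fun h => absurd h.1 (not_le.2 hτ)
    exact (intervalIntegrable_iff_integrableOn_Ioc_of_le hR).1 h1
  · refine (ae_restrict_iff' measurableSet_Ioc).2 (Filter.Eventually.of_forall fun x hx => ?_)
    exact inv_nonneg.2 (hτ.trans hx.1).le

/-- the integral of `|z|⁻²` over an annulus -/
theorem ann {τ R : ℝ} (hτ : 0 < τ) (hR : τ ≤ R) :
    ∫⁻ z in {z : ℂ | τ < ‖z‖ ∧ ‖z‖ ≤ R}, ENNReal.ofReal ((‖z‖ ^ 2)⁻¹) =
      ENNReal.ofReal (2 * Real.pi * Real.log (R / τ)) := by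
  have hS : MeasurableSet {z : ℂ | τ < ‖z‖ ∧ ‖z‖ ≤ R} :=
    (measurableSet_lt measurable_const measurable_norm).inter
      (measurableSet_le measurable_norm measurable_const)
  have hlog : 0 ≤ Real.log (R / τ) := Real.log_nonneg (by rwa [one_le_div hτ])
  have hm : Measurable ((Ioc τ R).indicator (fun r : ℝ => ENNReal.ofReal r⁻¹)) :=
    (ENNReal.measurable_ofReal.comp measurable_inv).indicator measurableSet_Ioc
  rw [← lintegral_indicator hS, ← Complex.lintegral_comp_polarCoord_symm]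
  have e1 : ∫⁻ p in polarCoord.target, ENNReal.ofReal p.1 •
      ({z : ℂ | τ < ‖z‖ ∧ ‖z‖ ≤ R}.indicator (fun z => ENNReal.ofReal ((‖z‖ ^ 2)⁻¹))
        (Complex.polarCoord.symm p)) =
      ∫⁻ p in (Ioi (0 : ℝ)) ×ˢ (Ioo (-Real.pi) Real.pi),
        (Ioc τ R).indicator (fun r => ENNReal.ofReal r⁻¹) p.1 := by
    rw [polarCoord_target]
    refine setLIntegral_congr_fun (measurableSet_Ioi.prod measurableSet_Ioo) ?_
    rintro ⟨r, θ⟩ ⟨hr, -⟩
    simp only [mem_Ioi] at hr
    have hn : ‖Complex.polarCoord.symm (r, θ)‖ = r := by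
      rw [Complex.norm_polarCoord_symm, abs_of_pos hr]
    simp only
    by_cases h : r ∈ Ioc τ R
    · rw [indicator_of_mem h, indicator_of_mem (by rw [mem_ofPred_eq, hn]; exact h), hn,
        smul_eq_mul, ← ENNReal.ofReal_mul hr.le]
      congr 1
      field_simp
    · rw [indicator_of_notMem h, indicator_of_notMem (by rw [mem_ofPred_eq, hn]; exact h),
        smul_zero]
  have hm2 : Measurable (fun p : ℝ × ℝ => (Ioc τ R).indicator (fun r => ENNReal.ofReal r⁻¹) p.1) :=
    hm.comp measurable_fst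
  rw [e1, Measure.volume_eq_prod, setLIntegral_prod _ hm2.aemeasurable]
  simp only [lintegral_const, Measure.restrict_apply MeasurableSet.univ, univ_inter,
    Real.volume_Ioo]
  rw [lintegral_mul_const _ hm, lintegral_indicator measurableSet_Ioc,
    Measure.restrict_restrict measurableSet_Ioc,
    inter_eq_left.2 (show Ioc τ R ⊆ Ioi 0 from fun x hx => hτ.trans hx.1), int_inv hτ hR, ← ENNReal.ofReal_mul hlog]
  congr 1
  ring

end Pool.Agent.Y295.RS
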