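import Mathlib
import Pool.Agent.W308.RV.DETA

/-!
# Hyperbolicity of rational maps close to a constant off small neighbourhoods of the poles
-/

set_option autoImplicit false

open Polynomial Filter Topology
open scoped OnePoint

namespace Pool.Agent.Y295.RS

open Pool.Agent.H762R2.Rt Pool.Agent.H462R2.AP
open Pool.Agent.Helper114.Herman Pool.Agent.Helper114.Konig
open W327.RD (cauchy_lip)

section est

variable {d : ℕ} {α ε : Fin d → ℂ} {ζ : ℂ} {ρ e s : ℝ}

theorem est_far (S : Finset (Fin d)) (hρ : 0 < ρ) (he : ∀ i, ‖ε i‖ ≤ e)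
    (h : ∀ i ∈ S, ρ ≤ ‖ζ - α i‖) : ‖∑ i ∈ S, ε i * (ζ - α i)⁻¹‖ ≤ d * (e / ρ) := by
  have h1 : ∀ i ∈ S, ‖ε i * (ζ - α i)⁻¹‖ ≤ e / ρ := by
    intro i hi
    rw [norm_mul, norm_inv, ← div_eq_mul_inv]
    exact div_le_div₀ ((norm_nonneg _).trans (he i)) (he i) hρ (h i hi)
  by_cases hd : S.Nonempty
  · obtain ⟨i, hi⟩ := hd
    have he0 : 0 ≤ e / ρ := (norm_nonneg _).trans (h1 i hi)
    refine (norm_sum_le_of_le S h1).trans ?_
    rw [Finset.sum_const, nsmul_eq_mul]
    refine mul_le_mul_of_nonneg_right ?_ he0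
    have := Finset.card_le_univ S
    rw [Fintype.card_fin] at this
    exact_mod_cast this
  · rw [Finset.not_nonempty_iff_eq_empty] at hd
    subst hd
    rw [Finset.sum_empty, norm_zero]
    rcases Nat.eq_zero_or_pos d with h0 | h0
    · subst h0; simp
    · have : 0 ≤ e := (norm_nonneg _).trans (he ⟨0, h0⟩)
      positivity

theorem est_far2 (S : Finset (Fin d)) (hρ : 0 < ρ) (he : ∀ i, ‖ε i‖ ≤ e)
    (h : ∀ i ∈ S, ρ ≤ ‖ζ - α i‖) : ‖∑ i ∈ S, ε i * ((ζ - α i) ^ 2)⁻¹‖ ≤ d * (e / ρ ^ 2) := by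
  have h1 : ∀ i ∈ S, ‖ε i * ((ζ - α i) ^ 2)⁻¹‖ ≤ e / ρ ^ 2 := by
    intro i hi
    rw [norm_mul, norm_inv, norm_pow, ← div_eq_mul_inv]
    have := h i hi
    exact div_le_div₀ ((norm_nonneg _).trans (he i)) (he i) (by positivity) (by gcongr)
  by_cases hd : S.Nonempty
  · obtain ⟨i, hi⟩ := hd
    have he0 : 0 ≤ e / ρ ^ 2 := (norm_nonneg _).trans (h1 i hi)
    refine (norm_sum_le_of_le S h1).trans ?_
    rw [Finset.sum_const, nsmul_eq_mul]
    refine mul_le_mul_of_nonneg_right ?_ he0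
    have := Finset.card_le_univ S
    rw [Fintype.card_fin] at this
    exact_mod_cast this
  · rw [Finset.not_nonempty_iff_eq_empty] at hd
    subst hd
    rw [Finset.sum_empty, norm_zero]
    rcases Nat.eq_zero_or_pos d with h0 | h0
    · subst h0; simp
    · have : 0 ≤ e := (norm_nonneg _).trans (he ⟨0, h0⟩)
      positivity

/-- the critical values are close to the value at infinity -/
theorem est_crit (hs : 0 < s) (he : ∀ i, ‖ε i‖ ≤ e) (hζ : ∀ i, ζ ≠ α i)
    (hα : ∀ i k, i ≠ k → s ≤ ‖α i - α k‖) (h0 : ∑ i, ε i * ((ζ - α i) ^ 2)⁻¹ = 0) :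
    ‖∑ i, ε i * (ζ - α i)⁻¹‖ ≤ 4 * d * e / s := by
  by_cases h : ∀ i, s / 2 ≤ ‖ζ - α i‖
  · have h1 := est_far (Finset.univ) (half_pos hs) he (fun i _ => h i)
    refine h1.trans ?_
    rcases Nat.eq_zero_or_pos d with h0 | h0
    · subst h0; simp
    · have : 0 ≤ e := (norm_nonneg _).trans (he ⟨0, h0⟩)
      have h2 : (d : ℝ) * (e / (s / 2)) = 2 * d * e / s := by field_simp
      rw [h2]
      gcongr
      norm_num
  · push Not at h
    obtain ⟨k, hk⟩ := h
    have he0 : 0 ≤ e := (norm_nonneg _).trans (he k)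
    have hfar : ∀ i ∈ Finset.univ.erase k, s / 2 ≤ ‖ζ - α i‖ := by
      intro i hi
      have h1 := hα k i (Finset.ne_of_mem_erase hi).symm
      have h2 : ‖α k - α i‖ ≤ ‖ζ - α i‖ + ‖ζ - α k‖ := by
        have : α k - α i = (ζ - α i) - (ζ - α k) := by ring
        rw [this]
        exact norm_sub_le _ _
      linarith
    have h1 := est_far (Finset.univ.erase k) (half_pos hs) he hfar
    have h2 := est_far2 (Finset.univ.erase k) (half_pos hs) he hfar
    rw [← Finset.add_sum_erase _ _ (Finset.mem_univ k)] at h0 ⊢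
    have h3 : ‖ε k * ((ζ - α k) ^ 2)⁻¹‖ ≤ d * (e / (s / 2) ^ 2) := by
      rw [eq_neg_of_add_eq_zero_left h0, norm_neg]
      exact h2
    have h4 : ε k * (ζ - α k)⁻¹ = ε k * ((ζ - α k) ^ 2)⁻¹ * (ζ - α k) := by
      have : ζ - α k ≠ 0 := sub_ne_zero.2 (hζ k)
      field_simp
    have h5 : ‖ε k * (ζ - α k)⁻¹‖ ≤ d * (e / (s / 2) ^ 2) * (s / 2) := by
      rw [h4, norm_mul]
      exact mul_le_mul h3 hk.le (norm_nonneg _) (by positivity)
    refine (norm_add_le _ _).trans ((add_le_add h5 h1).trans (le_of_eq ?_))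
    field_simp
    ring

end est

/-- partial fractions -/
theorem pf {d : ℕ} {A : ℂ[X]} {α : Fin d → ℂ} (hinj : Function.Injective α)
    (hAd : A.natDegree ≤ d) {ζ : ℂ} (hζ : ∀ i, ζ ≠ α i) :
    A.eval ζ = (∏ i, (ζ - α i)) * (A.coeff d +
      ∑ i, (A.eval (α i) * ∏ k ∈ Finset.univ.erase i, (α i - α k)⁻¹) * (ζ - α i)⁻¹) := by
  have hmon : (∏ i, (X - C (α i)) : ℂ[X]).Monic := monic_prod_of_monic _ _ fun i _ => monic_X_sub_C _
  have hdeg : (∏ i, (X - C (α i)) : ℂ[X]).natDegree = d := by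
    rw [natDegree_prod_of_monic _ _ fun i _ => monic_X_sub_C _]
    simp
  set B : ℂ[X] := A - C (A.coeff d) * ∏ i, (X - C (α i)) with hB
  have hBdeg : B.degree < (d : WithBot ℕ) := by
    rw [degree_lt_iff_coeff_zero]
    intro m hm
    rcases hm.eq_or_lt with h | h
    · subst h
      rw [hB, coeff_sub, coeff_C_mul]
      have : (∏ i, (X - C (α i)) : ℂ[X]).coeff d = 1 := by
        have := hmon.coeff_natDegree
        rwa [hdeg] at this
      rw [this, mul_one, sub_self]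
    · have e1 : A.coeff m = 0 := coeff_eq_zero_of_natDegree_lt (by omega)
      have e2 : (∏ i, (X - C (α i)) : ℂ[X]).coeff m = 0 :=
        coeff_eq_zero_of_natDegree_lt (by rw [hdeg]; exact h)
      rw [hB, coeff_sub, coeff_C_mul, e1, e2, mul_zero, sub_zero]
  have hBe : ∀ i ∈ (Finset.univ : Finset (Fin d)), B.eval (α i) = A.eval (α i) := by
    intro i _
    rw [hB, eval_sub, eval_mul, eval_C, eval_prod,
      Finset.prod_eq_zero (Finset.mem_univ i) (by simp), mul_zero, sub_zero]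
  have h1 := Lagrange.eq_interpolate_of_eval_eq (s := Finset.univ) (v := α) _ hinj.injOn
    (by simpa using hBdeg) hBe
  have h2 : B.eval ζ = (∏ i, (ζ - α i)) * ∑ i, Lagrange.nodalWeight Finset.univ α i *
      (ζ - α i)⁻¹ * A.eval (α i) := by
    rw [h1, Lagrange.eval_interpolate_not_at_node _ (fun i _ => hζ i), Lagrange.eval_nodal]
  have h3 : A.eval ζ = B.eval ζ + A.coeff d * ∏ i, (ζ - α i) := by
    rw [hB, eval_sub, eval_mul, eval_C, eval_prod]
    simp
  rw [h3, h2, mul_add, add_comm, mul_comm (A.coeff d)]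
  congr 2
  refine Finset.sum_congr rfl fun i _ => ?_
  unfold Lagrange.nodalWeight
  ring

/-! ### the chart around infinity with the base point `j` -/

/-- the chart `ζ ↦ j + 1 / ζ` -/
noncomputable def chj (j ζ : ℂ) : OnePoint ℂ := pr (j * ζ + 1) ζ

theorem chj_nz (j ζ : ℂ) : j * ζ + 1 ≠ 0 ∨ ζ ≠ 0 := by
  by_cases h : ζ = 0
  · left; rw [h]; simp
  · right; exact h

theorem chj_eq (j ζ : ℂ) :
    chj j ζ = (Homeomorph.addRight j).onePointCongr (sinv (ζ : OnePoint ℂ)) := by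
  unfold chj
  by_cases h : ζ = 0
  · subst h
    rw [pr_zero, sinv_zero]
    rfl
  · rw [pr_ne h, sinv_coe h]
    show _ = (((Homeomorph.addRight j) ζ⁻¹ : ℂ) : OnePoint ℂ)
    congr 1
    simp only [Homeomorph.coe_addRight]
    field_simp
    ring

theorem continuous_chj (j : ℂ) : Continuous (chj j) := by
  have : chj j = fun ζ : ℂ => (Homeomorph.addRight j).onePointCongr (sinv (ζ : OnePoint ℂ)) := by
    funext ζ; exact chj_eq j ζ
  rw [this]
  exact (Homeomorph.continuous _).comp (continuous_sinv.comp (OnePoint.continuous_coe (X := ℂ)))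

theorem isOpenMap_chj (j : ℂ) : IsOpenMap (chj j) := by
  have : chj j = (Homeomorph.addRight j).onePointCongr ∘ sinvHomeo ∘ fun ζ : ℂ => (ζ : OnePoint ℂ) := by
    funext ζ; exact chj_eq j ζ
  rw [this]
  exact (Homeomorph.isOpenMap _).comp
    (sinvHomeo.isOpenMap.comp (OnePoint.isOpenEmbedding_coe (X := ℂ)).isOpenMap)

theorem chj_inj (j : ℂ) : Function.Injective (chj j) := by
  intro x y h
  rw [chj_eq, chj_eq] at h
  have h1 := (Homeomorph.injective _) h
  have h2 := sinvHomeo.injective (show sinvHomeo (x : OnePoint ℂ) = sinvHomeo (y : OnePoint ℂ)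
    from h1)
  exact OnePoint.coe_injective h2

theorem chj_pr (j : ℂ) {a m : ℂ} (ha : a ≠ 0) : pr (a + j * m) m = chj j (m / a) := by
  unfold chj
  have h := pr_smul (c := a) (u := j * (m / a) + 1) (v := m / a) ha
  rw [← h]
  congr 1
  · field_simp
    ring
  · field_simp

/-- The criterion. `A` and `M` are the numerator minus `j` times the denominator and the denominator,
in the coordinate `ζ = 1 / (z - j)`. -/
theorem crit {d : ℕ} (hd : 1 ≤ d) {P Q A M : ℂ[X]} {j c p : ℂ} {α : Fin d → ℂ} {s C0 : ℝ}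
    (hP : P.natDegree ≤ d) (hQ : Q.natDegree ≤ d)
    (hA : ∀ ζ, hom P d (j * ζ + 1) ζ = A.eval ζ + j * M.eval ζ)
    (hM : ∀ ζ, hom Q d (j * ζ + 1) ζ = M.eval ζ)
    (hAd : A.natDegree ≤ d) (hAc : A.coeff d = p)
    (hMf : M = C c * ∏ i, (X - C (α i)))
    (hPj : P.eval j = p + j * c) (hQj : Q.eval j = c)
    (hs : 0 < s) (hs1 : s ≤ 1) (hC0 : 1 ≤ C0)
    (hc : s ≤ ‖c‖) (hc' : ‖c‖ ≤ C0) (hp : s ≤ ‖p‖) (hp' : ‖p‖ ≤ C0)
    (hα : ∀ i k, i ≠ k → s ≤ ‖α i - α k‖)
    (hβ : ∀ i, s ≤ ‖c - p * α i‖)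
    (hy : ∀ i, A.eval (α i) ≠ 0)
    (hy' : ∀ i, ‖A.eval (α i)‖ ≤ s ^ (d + 4) / (128 * d * C0 ^ 4)) :
    Hyp P Q := by
  have hd0 : 0 < d := hd
  have hdR : (1 : ℝ) ≤ d := by exact_mod_cast hd
  have hc0 : c ≠ 0 := norm_pos_iff.1 (hs.trans_le hc)
  have hp0 : p ≠ 0 := norm_pos_iff.1 (hs.trans_le hp)
  have hinj : Function.Injective α := by
    intro i k hik
    by_contra hne
    have := hα i k hne
    rw [hik, sub_self, norm_zero] at this
    linarith
  have hMe : ∀ ζ, M.eval ζ = c * ∏ i, (ζ - α i) := by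
    intro ζ
    rw [hMf, eval_mul, eval_C, eval_prod]
    simp
  have hMz : ∀ ζ, M.eval ζ = 0 → ∃ i, ζ = α i := by
    intro ζ h
    rw [hMe] at h
    rcases mul_eq_zero.1 h with h1 | h1
    · exact absurd h1 hc0
    · obtain ⟨i, -, hi⟩ := Finset.prod_eq_zero_iff.1 h1
      exact ⟨i, sub_eq_zero.1 hi⟩
  have hMα : ∀ i, M.eval (α i) = 0 := by
    intro i
    rw [hMe, Finset.prod_eq_zero (Finset.mem_univ i) (sub_self _), mul_zero]
  have hAM : ∀ ζ, M.eval ζ = 0 → A.eval ζ ≠ 0 := by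
    intro ζ h
    obtain ⟨i, rfl⟩ := hMz ζ h
    exact hy i
  -- degree and coprimality
  have hQ0 : Q ≠ 0 := by
    intro h
    rw [h, eval_zero] at hQj
    exact hc0 hQj.symm
  have hcop : IsCoprime P Q := by
    rw [Polynomial.isCoprime_iff_aeval_ne_zero_of_isAlgClosed ℂ ℂ]
    intro z
    by_contra hcon
    push Not at hcon
    obtain ⟨h1, h2⟩ := hcon
    rw [coe_aeval_eq_eval] at h1 h2
    by_cases hz : z = j
    · rw [hz, hQj] at h2
      exact hc0 h2
    · have hz' : z - j ≠ 0 := sub_ne_zero.2 hz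
      have e1 : (j * (z - j)⁻¹ + 1) / (z - j)⁻¹ = z := by
        field_simp
        ring
      have h3 := hA (z - j)⁻¹
      have h4 := hM (z - j)⁻¹
      rw [hom_ne hP (inv_ne_zero hz'), e1, h1, mul_zero] at h3
      rw [hom_ne hQ (inv_ne_zero hz'), e1, h2, mul_zero] at h4
      rw [← h4, mul_zero, add_zero] at h3
      exact hAM _ h4.symm h3.symm
  have hD : d = max P.natDegree Q.natDegree := by
    by_contra hcon
    have h1 : P.natDegree < d := by omega
    have h2 : Q.natDegree < d := by omega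
    have h3 := hA 0
    have h4 := hM 0
    rw [mul_zero, zero_add, hom_zero, coeff_eq_zero_of_natDegree_lt h1, zero_mul] at h3
    rw [mul_zero, zero_add, hom_zero, coeff_eq_zero_of_natDegree_lt h2, zero_mul] at h4
    rw [← h4, mul_zero, add_zero] at h3
    exact hAM _ h4.symm h3.symm
  obtain ⟨f, hf, -⟩ := exists_isRat hcop hQ0
  refine ⟨hcop, f, hf.cont, hf.eval, ?_⟩
  have hfc : ∀ ζ, f (chj j ζ) = pr (A.eval ζ + j * M.eval ζ) (M.eval ζ) := by
    intro ζ
    unfold chj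
    rw [rat_formula hf hD hd0 (chj_nz j ζ), hA, hM]
  have hfF : ∀ ζ, A.eval ζ ≠ 0 → f (chj j ζ) = chj j (M.eval ζ / A.eval ζ) := by
    intro ζ h
    rw [hfc, chj_pr j h]
  -- constants
  obtain ⟨ε, hε⟩ : ∃ ε : Fin d → ℂ, ε = fun i =>
    A.eval (α i) * (∏ k ∈ Finset.univ.erase i, (α i - α k)⁻¹) / c := ⟨_, rfl⟩
  obtain ⟨e, he⟩ : ∃ e : ℝ, e = s ^ 4 / (128 * d * C0 ^ 4) := ⟨_, rfl⟩
  have he0 : 0 < e := by rw [he]; positivity
  have hεe : ∀ i, ‖ε i‖ ≤ e := by
    intro i
    have h1 : ‖∏ k ∈ Finset.univ.erase i, (α i - α k)⁻¹‖ ≤ (s⁻¹) ^ (d - 1) := by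
      rw [norm_prod]
      have h2 : ∀ k ∈ Finset.univ.erase i, ‖(α i - α k)⁻¹‖ ≤ s⁻¹ := by
        intro k hk
        rw [norm_inv]
        exact inv_anti₀ hs (hα i k (Finset.ne_of_mem_erase hk).symm)
      refine (Finset.prod_le_prod (fun _ _ => norm_nonneg _) h2).trans (le_of_eq ?_)
      rw [Finset.prod_const, Finset.card_erase_of_mem (Finset.mem_univ i), Finset.card_univ,
        Fintype.card_fin]
    rw [hε]
    simp only
    rw [norm_div, norm_mul]
    calc ‖A.eval (α i)‖ * ‖∏ k ∈ Finset.univ.erase i, (α i - α k)⁻¹‖ / ‖c‖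
        ≤ (s ^ (d + 4) / (128 * d * C0 ^ 4)) * (s⁻¹) ^ (d - 1) / s := by
          have := hy' i
          gcongr
      _ = e := by
          rw [he]
          obtain ⟨m, rfl⟩ : ∃ m, d = m + 1 := ⟨d - 1, by omega⟩
          rw [Nat.add_sub_cancel]
          have h5 : s ^ m * s⁻¹ ^ m = 1 := by rw [← mul_pow, mul_inv_cancel₀ hs.ne', one_pow]
          have h6 : s ^ (m + 1 + 4) / (128 * ((m + 1 : ℕ) : ℝ) * C0 ^ 4) * s⁻¹ ^ m / s =
              (s ^ m * s⁻¹ ^ m) * (s ^ 4 / (128 * ((m + 1 : ℕ) : ℝ) * C0 ^ 4)) * (s / s) := by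
            rw [show m + 1 + 4 = m + 4 + 1 by ring, pow_succ, pow_add]; ring
          rw [h6, h5, div_self hs.ne', one_mul, mul_one]
  obtain ⟨g, hg⟩ : ∃ g : ℂ → ℂ, g = fun ζ => p / c + ∑ i, ε i * (ζ - α i)⁻¹ := ⟨_, rfl⟩
  have hAg : ∀ ζ, M.eval ζ ≠ 0 → A.eval ζ = M.eval ζ * g ζ := by
    intro ζ h
    have hζ : ∀ i, ζ ≠ α i := by
      rintro i rfl
      exact h (hMα i)
    rw [pf hinj hAd hζ, hMe, hAc, hg, hε]
    simp only
    have : ∀ i, (A.eval (α i) * (∏ k ∈ Finset.univ.erase i, (α i - α k)⁻¹) / c) * (ζ - α i)⁻¹ =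
        (A.eval (α i) * ∏ k ∈ Finset.univ.erase i, (α i - α k)⁻¹) * (ζ - α i)⁻¹ / c := by
      intro i; ring
    simp only [this]
    rw [← Finset.sum_div]
    field_simp
  have hpcn : s / C0 ≤ ‖p / c‖ := by
    rw [norm_div]
    exact div_le_div₀ (norm_nonneg _) hp (hs.trans_le hc) hc'
  obtain ⟨r, hr⟩ : ∃ r : ℝ, r = s / (2 * C0) := ⟨_, rfl⟩
  have hr0 : 0 < r := by rw [hr]; positivity
  obtain ⟨β, hβd⟩ : ∃ β : ℂ, β = c / p := ⟨_, rfl⟩
  have hβα : ∀ i, 2 * r ≤ ‖β - α i‖ := by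
    intro i
    have h1 : β - α i = (c - p * α i) / p := by rw [hβd]; field_simp
    rw [h1, norm_div, hr]
    have h2 : s / C0 ≤ ‖c - p * α i‖ / ‖p‖ :=
      div_le_div₀ (norm_nonneg _) (hβ i) (hs.trans_le hp) hp'
    refine le_trans (le_of_eq ?_) h2
    field_simp
  -- values close to `p / c`
  obtain ⟨t, ht⟩ : ∃ t : ℝ, t = s ^ 3 / (32 * C0 ^ 3) := ⟨_, rfl⟩
  have ht0 : 0 < t := by rw [ht]; positivity
  have hclose : ∀ u : ℂ, ‖u - p / c‖ ≤ t → u ≠ 0 ∧ ‖1 / u - β‖ < r / 4 := by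
    intro u hu
    have ht2 : t ≤ s / (2 * C0) := by
      rw [ht, div_le_div_iff₀ (by positivity) (by positivity)]
      have h1 : s ^ 3 ≤ s := by
        calc s ^ 3 ≤ s ^ 1 := pow_le_pow_of_le_one hs.le hs1 (by norm_num)
          _ = s := pow_one s
      have h2 : C0 ≤ C0 ^ 3 := by
        calc C0 = C0 ^ 1 := (pow_one _).symm
          _ ≤ C0 ^ 3 := pow_le_pow_right₀ hC0 (by norm_num)
      have h3 : s ^ 3 * (2 * C0) ≤ s * (2 * C0 ^ 3) := by gcongr
      nlinarith [mul_pos hs (pow_pos (lt_of_lt_of_le one_pos hC0) 3)]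
    have hu2 : s / (2 * C0) ≤ ‖u‖ := by
      have h1 : ‖p / c‖ ≤ ‖u‖ + ‖u - p / c‖ := by
        have : p / c = u - (u - p / c) := by ring
        calc ‖p / c‖ = ‖u - (u - p / c)‖ := by rw [← this]
          _ ≤ _ := norm_sub_le _ _
      have h2 : s / C0 = s / (2 * C0) + s / (2 * C0) := by field_simp; norm_num
      linarith
    have hupos : 0 < ‖u‖ := lt_of_lt_of_le (by positivity) hu2
    have hu0 : u ≠ 0 := norm_pos_iff.1 hupos
    refine ⟨hu0, ?_⟩
    have e1 : 1 / u - β = -(u - p / c) / (u * (p / c)) := by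
      rw [hβd]; field_simp; ring
    have hpc : 0 < ‖p / c‖ := lt_of_lt_of_le (by positivity) hpcn
    rw [e1, norm_div, norm_neg, norm_mul, div_lt_iff₀ (by positivity)]
    have h3 : s / (2 * C0) * (s / C0) ≤ ‖u‖ * ‖p / c‖ := mul_le_mul hu2 hpcn (by positivity) hupos.le
    have h4 : r / 4 * (s / (2 * C0) * (s / C0)) ≤ r / 4 * (‖u‖ * ‖p / c‖) := by gcongr
    refine lt_of_lt_of_le (lt_of_le_of_lt hu ?_) h4
    rw [ht, hr]
    have : s / (2 * C0) / 4 * (s / (2 * C0) * (s / C0)) = s ^ 3 / (16 * C0 ^ 3) := by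
      field_simp; ring
    rw [this]
    exact div_lt_div_of_pos_left (by positivity) (by positivity) (by nlinarith [pow_pos (lt_of_lt_of_le one_pos hC0) 3])
  have hsmall : 4 * d * e / s ≤ t ∧ d * (e / r) ≤ t := by
    have h1 : d * (e / r) = s ^ 3 / (64 * C0 ^ 3) := by
      rw [he, hr]; field_simp; ring
    have h2 : 4 * d * e / s = s ^ 3 / (32 * C0 ^ 4) := by
      rw [he]; field_simp; ring
    rw [h1, h2, ht]
    have h3 : C0 ^ 3 ≤ C0 ^ 4 := pow_le_pow_right₀ hC0 (by norm_num)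
    have h4 : 0 < C0 ^ 3 := by positivity
    constructor
    · exact div_le_div_of_nonneg_left (by positivity) (by positivity) (by linarith)
    · exact div_le_div_of_nonneg_left (by positivity) (by positivity) (by linarith)
  -- the disc around `β`
  have hdisc : ∀ ζ : ℂ, ‖ζ - β‖ ≤ r → A.eval ζ ≠ 0 ∧ ‖M.eval ζ / A.eval ζ - β‖ < r / 4 := by
    intro ζ hζ
    have hfar : ∀ i ∈ (Finset.univ : Finset (Fin d)), r ≤ ‖ζ - α i‖ := by
      intro i _
      have h1 : ‖β - α i‖ ≤ ‖ζ - α i‖ + ‖ζ - β‖ := by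
        have : β - α i = (ζ - α i) - (ζ - β) := by ring
        rw [this]; exact norm_sub_le _ _
      have := hβα i
      linarith
    have hMζ : M.eval ζ ≠ 0 := by
      intro h
      obtain ⟨i, hi⟩ := hMz ζ h
      have := hfar i (Finset.mem_univ i)
      rw [hi, sub_self, norm_zero] at this
      linarith
    have h1 : ‖g ζ - p / c‖ ≤ t := by
      rw [hg]
      simp only
      rw [add_sub_cancel_left]
      exact (est_far Finset.univ hr0 hεe hfar).trans hsmall.2
    obtain ⟨h2, h3⟩ := hclose _ h1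
    have h4 := hAg ζ hMζ
    refine ⟨by rw [h4]; exact mul_ne_zero hMζ h2, ?_⟩
    have h5 : M.eval ζ / A.eval ζ = 1 / g ζ := by rw [h4]; field_simp
    rw [h5]
    exact h3
  -- attraction
  have hrc : (r : ℂ) ≠ 0 := by exact_mod_cast hr0.ne'
  have hFd : ∀ ζ, A.eval ζ ≠ 0 → DifferentiableAt ℂ (fun ζ => M.eval ζ / A.eval ζ) ζ :=
    fun ζ h => (M.differentiable ζ).fun_div (A.differentiable ζ) h
  obtain ⟨h, hh⟩ : ∃ h : ℂ → ℂ, h = fun y => (M.eval (β + r * y) / A.eval (β + r * y) - β) / r :=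
    ⟨_, rfl⟩
  have hnrm : ∀ y ∈ Metric.closedBall (0 : ℂ) 1, ‖(β + r * y) - β‖ ≤ r := by
    intro y hy
    rw [mem_closedBall_zero_iff] at hy
    rw [add_sub_cancel_left, norm_mul, Complex.norm_real, Real.norm_eq_abs, abs_of_pos hr0]
    nlinarith
  have hhb : ∀ y ∈ Metric.closedBall (0 : ℂ) 1, ‖h y‖ < 1 / 4 := by
    intro y hy
    rw [hh]
    simp only
    rw [norm_div, Complex.norm_real, Real.norm_eq_abs, abs_of_pos hr0, div_lt_iff₀ hr0]
    have := (hdisc _ (hnrm y hy)).2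
    linarith
  have hhd : ∀ y ∈ Metric.closedBall (0 : ℂ) 1, DifferentiableAt ℂ h y := by
    intro y hy
    rw [hh]
    have hl : DifferentiableAt ℂ (fun y : ℂ => β + r * y) y :=
      (differentiableAt_const _).add ((differentiableAt_const _).mul differentiableAt_id)
    exact (((hFd _ (hdisc _ (hnrm y hy)).1).comp y hl).sub_const β).div_const _
  have hhalf : ∀ x : ℂ, ‖x‖ ≤ 1 / 2 → x ∈ Metric.closedBall (0 : ℂ) 1 := by
    intro x hx
    rw [mem_closedBall_zero_iff]; linarith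
  have hS : ∀ x : ℂ, ‖x‖ ≤ 1 / 2 → Sinks f (chj j (β + r * x)) := by
    intro x hx
    have hψc : ∀ _i : Bool, Continuous (fun y : ℂ => chj j (β + r * y)) := fun _ =>
      (continuous_chj j).comp (continuous_const.add (continuous_const.mul continuous_id))
    have hψo : ∀ _i : Bool, IsOpenMap (fun y : ℂ => chj j (β + r * y)) := fun _ =>
      (isOpenMap_chj j).comp ((Homeomorph.addLeft β).isOpenMap.comp
        (Homeomorph.mulLeft₀ (r : ℂ) hrc).isOpenMap)
    exact two_charts' (ψ := fun _ y => chj j (β + r * y)) (σ := id) (τ := fun _ => 1)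
      (h := fun _ => h) (r := 1 / 2) hf.cont (by norm_num) (fun _ => one_pos) hψc hψo
      (fun i x hx => by
        rw [Function.iterate_one]
        rw [hfF _ (hdisc _ (hnrm x (hhalf x hx))).1, hh]
        congr 1
        simp only
        rw [mul_div_cancel₀ _ hrc]
        ring)
      (fun i x hx => (hhb x (hhalf x hx)).trans (by norm_num))
      (fun i x y hx hy => cauchy_lip hhd hhb hx hy) (i := true) hx
  have trap0 : ∀ w : ℂ, ‖w - β‖ < r / 4 → Sinks f (chj j w) := by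
    intro w hw
    have e1 : w = β + r * ((w - β) / r) := by
      rw [mul_div_cancel₀ _ hrc]; ring
    rw [e1]
    apply hS
    rw [norm_div, Complex.norm_real, Real.norm_eq_abs, abs_of_pos hr0, div_le_iff₀ hr0]
    linarith
  -- the points of the chart
  have key : ∀ ζ, (¬ ∃ U ∈ 𝓝 (chj j ζ), Set.InjOn f U) → Sinks f (chj j ζ) := by
    intro ζ hnot
    by_cases hMζ : M.eval ζ = 0
    · exfalso
      apply hnot
      obtain ⟨i, hi⟩ := hMz ζ hMζ
      have hAζ := hAM ζ hMζ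
      have hder := (M.hasStrictDerivAt ζ).fun_div (A.hasStrictDerivAt ζ) hAζ
      have hM' : M.derivative.eval ζ ≠ 0 := by
        have h1 : M = (X - C (α i)) * (C c * ∏ k ∈ Finset.univ.erase i, (X - C (α k))) := by
          rw [hMf, ← Finset.mul_prod_erase _ _ (Finset.mem_univ i)]
          ring
        rw [h1, derivative_mul, eval_add, eval_mul, eval_mul, hi]
        simp only [derivative_sub, derivative_X, derivative_C, sub_zero, eval_one, one_mul,
          eval_sub, eval_X, eval_C, sub_self, zero_mul, add_zero, eval_mul, eval_prod]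
        refine mul_ne_zero hc0 (Finset.prod_ne_zero_iff.2 fun k hk => ?_)
        exact sub_ne_zero.2 fun h => Finset.ne_of_mem_erase hk (hinj h).symm
      have hne : (M.derivative.eval ζ * A.eval ζ - M.eval ζ * A.derivative.eval ζ) /
          (A.eval ζ) ^ 2 ≠ 0 := by
        rw [hMζ, zero_mul, sub_zero]
        exact div_ne_zero (mul_ne_zero hM' hAζ) (pow_ne_zero _ hAζ)
      obtain ⟨U, hU, hUi⟩ := injOn_of_deriv hder hne
      have hUA : {x : ℂ | A.eval x ≠ 0} ∈ 𝓝 ζ :=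
        (isOpen_ne_fun A.continuous continuous_const).mem_nhds hAζ
      refine ⟨chj j '' (U ∩ {x : ℂ | A.eval x ≠ 0}),
        (isOpenMap_chj j).image_mem_nhds (inter_mem hU hUA), ?_⟩
      rintro _ ⟨x, ⟨hx, hxA⟩, rfl⟩ _ ⟨y, ⟨hy, hyA⟩, rfl⟩ hxy
      rw [hfF x hxA, hfF y hyA] at hxy
      rw [hUi hx hy (chj_inj j hxy)]
    · have hζ : ∀ i, ζ ≠ α i := by
        rintro i rfl
        exact hMζ (hMα i)
      by_cases hcr : ∑ i, ε i * ((ζ - α i) ^ 2)⁻¹ = 0
      · have h1 := est_crit hs hεe hζ hα hcr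
        have h2 : ‖g ζ - p / c‖ ≤ t := by
          rw [hg]
          simp only
          rw [add_sub_cancel_left]
          exact h1.trans hsmall.1
        obtain ⟨h3, h4⟩ := hclose _ h2
        have h5 := hAg ζ hMζ
        have hAζ : A.eval ζ ≠ 0 := by rw [h5]; exact mul_ne_zero hMζ h3
        have h6 : M.eval ζ / A.eval ζ = 1 / g ζ := by rw [h5]; field_simp
        apply sinks_of_image hf.cont
        rw [hfF _ hAζ, h6]
        exact trap0 _ h4
      · exfalso
        apply hnot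
        have hder : HasStrictDerivAt (fun x => j + g x) (-∑ i, ε i * ((ζ - α i) ^ 2)⁻¹) ζ := by
          rw [hg]
          have h1 : ∀ i ∈ (Finset.univ : Finset (Fin d)), HasStrictDerivAt
              (fun x : ℂ => ε i * (x - α i)⁻¹) (ε i * (-((ζ - α i) ^ 2)⁻¹)) ζ := by
            intro i _
            have h2 : HasStrictDerivAt (fun x : ℂ => (x - α i)⁻¹) (-((ζ - α i) ^ 2)⁻¹ * 1) ζ :=
              (hasStrictDerivAt_inv (sub_ne_zero.2 (hζ i))).comp ζ
                ((hasStrictDerivAt_id ζ).sub_const (α i))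
            rw [mul_one] at h2
            exact h2.const_mul (ε i)
          have h3 := (HasStrictDerivAt.fun_sum h1).const_add (p / c)
          have h4 := h3.const_add j
          have h5 : -∑ i, ε i * ((ζ - α i) ^ 2)⁻¹ = ∑ i, ε i * (-((ζ - α i) ^ 2)⁻¹) := by
            rw [← Finset.sum_neg_distrib]
            exact Finset.sum_congr rfl fun i _ => by ring
          rw [h5]
          exact h4
        obtain ⟨U, hU, hUi⟩ := injOn_of_deriv hder (neg_ne_zero.2 hcr)
        have hUM : {x : ℂ | M.eval x ≠ 0} ∈ 𝓝 ζ :=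
          (isOpen_ne_fun M.continuous continuous_const).mem_nhds hMζ
        refine ⟨chj j '' (U ∩ {x : ℂ | M.eval x ≠ 0}),
          (isOpenMap_chj j).image_mem_nhds (inter_mem hU hUM), ?_⟩
        have hfg : ∀ x, M.eval x ≠ 0 → f (chj j x) = ((j + g x : ℂ) : OnePoint ℂ) := by
          intro x hx
          rw [hfc, pr_ne hx, hAg x hx]
          congr 1
          field_simp
          ring
        rintro _ ⟨x, ⟨hx, hxA⟩, rfl⟩ _ ⟨y, ⟨hy, hyA⟩, rfl⟩ hxy
        rw [hfg x hxA, hfg y hyA] at hxy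
        rw [hUi hx hy (OnePoint.coe_injective hxy)]
  have hβ0 : β ≠ 0 := by rw [hβd]; exact div_ne_zero hc0 hp0
  intro c₀ hnot
  induction c₀ using OnePoint.rec with
  | infty =>
    have e1 : (∞ : OnePoint ℂ) = chj j 0 := by
      unfold chj; rw [pr_zero]
    rw [e1] at hnot ⊢
    exact key 0 hnot
  | coe z =>
    by_cases hz : z = j
    · subst hz
      apply sinks_of_image hf.cont
      have e1 : f (z : OnePoint ℂ) = chj z β := by
        rw [hf.eval z (by rw [hQj]; exact hc0), hPj, hQj]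
        unfold chj
        rw [pr_ne hβ0, hβd]
        congr 1
        field_simp
        ring
      rw [e1]
      apply trap0
      rw [sub_self, norm_zero]
      positivity
    · have hz' : z - j ≠ 0 := sub_ne_zero.2 hz
      have e1 : (z : OnePoint ℂ) = chj j (z - j)⁻¹ := by
        unfold chj
        rw [pr_ne (inv_ne_zero hz')]
        congr 1
        field_simp
        ring
      rw [e1] at hnot ⊢
      exact key _ hnot

end Pool.Agent.Y295.RS
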