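import Mathlib
import Pool.Agent.Y295.RS.Dyn

/-!
# The chart `ζ = 1 / (z - j)` on pairs of polynomials
-/

set_option autoImplicit false

open Polynomial Filter Topology MeasureTheory
open scoped OnePoint

namespace Pool.Agent.Y295.RS

open Pool.Agent.Helper114.Herman Pool.Agent.Helper114.Konig

variable {d : ℕ}

/-- the polynomial with the coefficients `a 0, …, a d` -/
noncomputable def cpoly (a : Fin (d + 1) → ℂ) : ℂ[X] := ∑ k : Fin (d + 1), C (a k) * X ^ (k : ℕ)

/-- the resultant, both polynomials being regarded as polynomials of degree `d` -/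
noncomputable def res (x : (Fin (d + 1) → ℂ) × (Fin (d + 1) → ℂ)) : ℂ :=
  resultant (cpoly x.1) (cpoly x.2) d d

theorem cpoly_natDegree (a : Fin (d + 1) → ℂ) : (cpoly a).natDegree ≤ d := by
  unfold cpoly
  refine natDegree_sum_le_of_forall_le _ _ fun k _ => ?_
  refine (natDegree_C_mul_X_pow_le _ _).trans ?_
  have := k.2
  omega

theorem cpoly_coeff (a : Fin (d + 1) → ℂ) (k : Fin (d + 1)) : (cpoly a).coeff k = a k := by
  unfold cpoly
  rw [finsetSum_coeff, Finset.sum_eq_single k]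
  · simp
  · intro j _ hj
    rw [coeff_C_mul, coeff_X_pow, if_neg, mul_zero]
    exact fun h => hj (Fin.ext h.symm)
  · intro h
    exact absurd (Finset.mem_univ k) h

theorem cpoly_eq {F : ℂ[X]} (hF : F.natDegree ≤ d) : cpoly (fun k : Fin (d + 1) => F.coeff k) = F := by
  ext m
  by_cases hm : m < d + 1
  · exact cpoly_coeff (fun k : Fin (d + 1) => F.coeff k) ⟨m, hm⟩
  · rw [coeff_eq_zero_of_natDegree_lt ((cpoly_natDegree _).trans_lt (by omega)),
      coeff_eq_zero_of_natDegree_lt (hF.trans_lt (by omega))]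

theorem cpoly_eval (a : Fin (d + 1) → ℂ) (z : ℂ) : (cpoly a).eval z = ∑ k, a k * z ^ (k : ℕ) := by
  unfold cpoly
  rw [eval_finsetSum]
  simp

theorem cpoly_add (a b : Fin (d + 1) → ℂ) : cpoly (a + b) = cpoly a + cpoly b := by
  unfold cpoly
  rw [← Finset.sum_add_distrib]
  refine Finset.sum_congr rfl fun k _ => ?_
  rw [Pi.add_apply, C_add, add_mul]

theorem cpoly_smul (t : ℂ) (a : Fin (d + 1) → ℂ) : cpoly (t • a) = C t * cpoly a := by
  unfold cpoly
  rw [Finset.mul_sum]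
  refine Finset.sum_congr rfl fun k _ => ?_
  rw [Pi.smul_apply, smul_eq_mul, C_mul, mul_assoc]

theorem cpoly_hom (a : Fin (d + 1) → ℂ) (u v : ℂ) :
    hom (cpoly a) d u v = ∑ k : Fin (d + 1), a k * u ^ (k : ℕ) * v ^ (d - (k : ℕ)) := by
  unfold hom
  rw [Finset.sum_range]
  refine Finset.sum_congr rfl fun k _ => ?_
  rw [cpoly_coeff]

/-- the polynomial in the chart -/
noncomputable def Lpol (j : ℂ) (a : Fin (d + 1) → ℂ) : ℂ[X] :=
  ∑ k : Fin (d + 1), C (a k) * ((C j * X + 1) ^ (k : ℕ) * X ^ (d - (k : ℕ)))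

theorem lin_deg (j : ℂ) : (C j * X + 1 : ℂ[X]).natDegree ≤ 1 := by
  refine (natDegree_add_le _ _).trans ?_
  rw [natDegree_one]
  exact max_le ((natDegree_C_mul_le j X).trans natDegree_X_le) (Nat.zero_le _)

theorem Lpol_natDegree (j : ℂ) (a : Fin (d + 1) → ℂ) : (Lpol j a).natDegree ≤ d := by
  unfold Lpol
  refine natDegree_sum_le_of_forall_le _ _ fun k _ => ?_
  refine (natDegree_C_mul_le _ _).trans ?_
  refine natDegree_mul_le.trans ?_
  have h1 : ((C j * X + 1 : ℂ[X]) ^ (k : ℕ)).natDegree ≤ k := by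
    refine natDegree_pow_le.trans ?_
    have := Nat.mul_le_mul_left (k : ℕ) (lin_deg j)
    simpa using this
  have h2 : ((X : ℂ[X]) ^ (d - (k : ℕ))).natDegree ≤ d - k := by rw [natDegree_X_pow]
  have := k.2
  omega

theorem Lpol_eval (j : ℂ) (a : Fin (d + 1) → ℂ) (ζ : ℂ) :
    (Lpol j a).eval ζ = hom (cpoly a) d (j * ζ + 1) ζ := by
  rw [cpoly_hom]
  unfold Lpol
  rw [eval_finsetSum]
  refine Finset.sum_congr rfl fun k _ => ?_
  simp only [eval_mul, eval_C, eval_pow, eval_add, eval_X, eval_one]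
  ring

theorem Lpol_coeff (j : ℂ) (a : Fin (d + 1) → ℂ) : (Lpol j a).coeff d = (cpoly a).eval j := by
  rw [cpoly_eval]
  unfold Lpol
  rw [finsetSum_coeff]
  refine Finset.sum_congr rfl fun k _ => ?_
  rw [coeff_C_mul]
  congr 1
  have hk : (k : ℕ) + (d - (k : ℕ)) = d := by have := k.2; omega
  have h1 : ((C j * X + 1 : ℂ[X]) ^ (k : ℕ)).natDegree ≤ k := by
    refine natDegree_pow_le.trans ?_
    have := Nat.mul_le_mul_left (k : ℕ) (lin_deg j)
    simpa using this
  have h2 : ((X : ℂ[X]) ^ (d - (k : ℕ))).natDegree ≤ d - k := by rw [natDegree_X_pow]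
  have h3 := coeff_mul_add_eq_of_natDegree_le h1 h2
  rw [hk] at h3
  rw [h3]
  have h4 : ((X : ℂ[X]) ^ (d - (k : ℕ))).coeff (d - k) = 1 := by simp
  have h5 : ((C j * X + 1 : ℂ[X]) ^ (k : ℕ)).coeff k = j ^ (k : ℕ) := by
    have := coeff_pow_of_natDegree_le (m := (k : ℕ)) (lin_deg j)
    rw [mul_one] at this
    rw [this]
    simp [coeff_one]
  rw [h4, h5, mul_one]

theorem Lpol_zero (j : ℂ) (a : Fin (d + 1) → ℂ) : (Lpol j a).eval 0 = (cpoly a).coeff d := by
  rw [Lpol_eval, mul_zero, zero_add, hom_zero, one_pow, mul_one]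

/-- the linear map on the coefficients -/
noncomputable def Lj (j : ℂ) : (Fin (d + 1) → ℂ) →ₗ[ℂ] (Fin (d + 1) → ℂ) where
  toFun a m := (Lpol j a).coeff m
  map_add' a b := by
    funext m
    have : Lpol j (a + b) = Lpol j a + Lpol j b := by
      unfold Lpol
      rw [← Finset.sum_add_distrib]
      refine Finset.sum_congr rfl fun k _ => ?_
      rw [Pi.add_apply, C_add, add_mul]
    rw [this, coeff_add]
    rfl
  map_smul' t a := by
    funext m
    have : Lpol j (t • a) = C t * Lpol j a := by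
      unfold Lpol
      rw [Finset.mul_sum]
      refine Finset.sum_congr rfl fun k _ => ?_
      rw [Pi.smul_apply, smul_eq_mul, C_mul, mul_assoc]
    rw [this, coeff_C_mul]
    rfl

theorem cpoly_Lj (j : ℂ) (a : Fin (d + 1) → ℂ) : cpoly (Lj j a) = Lpol j a :=
  cpoly_eq (Lpol_natDegree j a)

/-- values away from the base point -/
theorem Lpol_inv {j : ℂ} (a : Fin (d + 1) → ℂ) {ζ : ℂ} (hζ : ζ ≠ 0) :
    (Lpol j a).eval ζ = ζ ^ d * (cpoly a).eval (j + ζ⁻¹) := by
  rw [Lpol_eval, hom_ne (cpoly_natDegree a) hζ]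
  congr 2
  field_simp

theorem Lj_inj (j : ℂ) : Function.Injective (Lj (d := d) j) := by
  rw [← LinearMap.ker_eq_bot, LinearMap.ker_eq_bot']
  intro a ha
  have h1 : Lpol j a = 0 := by
    rw [← cpoly_Lj, ha]
    unfold cpoly
    simp
  have h2 : ∀ z : ℂ, z ≠ j → (cpoly a).eval z = 0 := by
    intro z hz
    have hz' : z - j ≠ 0 := sub_ne_zero.2 hz
    have h3 := Lpol_inv (j := j) a (inv_ne_zero hz')
    rw [h1, eval_zero, inv_inv, add_sub_cancel] at h3
    rcases mul_eq_zero.1 h3.symm with h | h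
    · exact absurd h (pow_ne_zero _ (inv_ne_zero hz'))
    · exact h
  have h3 : cpoly a = 0 := by
    refine Polynomial.eq_zero_of_infinite_isRoot _ ?_
    refine Set.Infinite.mono (s := {j}ᶜ) (fun z hz => h2 z hz) ?_
    exact (Set.finite_singleton j).infinite_compl
  funext k
  rw [← cpoly_coeff a k, h3, coeff_zero]
  rfl

/-- the linear map on pairs -/
noncomputable def LL (j : ℂ) : ((Fin (d + 1) → ℂ) × (Fin (d + 1) → ℂ)) →ₗ[ℂ]
    ((Fin (d + 1) → ℂ) × (Fin (d + 1) → ℂ)) :=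
  LinearMap.prod ((Lj j).comp (LinearMap.fst ℂ _ _) - j • ((Lj j).comp (LinearMap.snd ℂ _ _)))
    ((Lj j).comp (LinearMap.snd ℂ _ _))

theorem LL_fst (j : ℂ) (x : (Fin (d + 1) → ℂ) × (Fin (d + 1) → ℂ)) :
    (LL j x).1 = Lj j x.1 - j • Lj j x.2 := rfl

theorem LL_snd (j : ℂ) (x : (Fin (d + 1) → ℂ) × (Fin (d + 1) → ℂ)) : (LL j x).2 = Lj j x.2 := rfl

theorem LL_inj (j : ℂ) : Function.Injective (LL (d := d) j) := by
  intro x y h
  have h2 : Lj j x.2 = Lj j y.2 := congrArg Prod.snd h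
  have h3 : Lj j x.1 - j • Lj j x.2 = Lj j y.1 - j • Lj j y.2 := congrArg Prod.fst h
  rw [h2, sub_left_inj] at h3
  exact Prod.ext (Lj_inj j h3) (Lj_inj j h2)

/-- volumes in the chart -/
theorem LL_vol (j : ℂ) : ∃ K : ℝ, 0 < K ∧ ∀ W : Set ((Fin (d + 1) → ℂ) × (Fin (d + 1) → ℂ)),
    volume (LL j ⁻¹' W) = ENNReal.ofReal K * volume W := by
  set f : ((Fin (d + 1) → ℂ) × (Fin (d + 1) → ℂ)) →ₗ[ℝ]
    ((Fin (d + 1) → ℂ) × (Fin (d + 1) → ℂ)) := (LL j).restrictScalars ℝ with hf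
  have hinj : Function.Injective f := LL_inj j
  have hdet : LinearMap.det f ≠ 0 := by
    intro h
    have := LinearMap.bot_lt_ker_of_det_eq_zero h
    rw [LinearMap.ker_eq_bot.2 hinj] at this
    exact lt_irrefl _ this
  have : (volume : Measure ((Fin (d + 1) → ℂ) × (Fin (d + 1) → ℂ))).IsAddHaarMeasure :=
    Measure.prod.instIsAddHaarMeasure _ _
  refine ⟨|(LinearMap.det f)⁻¹|, abs_pos.2 (inv_ne_zero hdet), fun W => ?_⟩
  exact Measure.addHaar_preimage_linearMap _ hdet W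

theorem LL_bdd (j : ℂ) : ∃ K : ℝ, 0 < K ∧ ∀ x : (Fin (d + 1) → ℂ) × (Fin (d + 1) → ℂ),
    ‖LL j x‖ ≤ K * ‖x‖ := by
  obtain ⟨K, hK, h⟩ := (LinearMap.toContinuousLinearMap (LL (d := d) j)).bound
  exact ⟨K, hK, h⟩

/-- the product formula for the resultant -/
theorem res_prod {x : (Fin (d + 1) → ℂ) × (Fin (d + 1) → ℂ)} {c : ℂ} (hc : c ≠ 0) {α : Fin d → ℂ}
    (h : cpoly x.2 = C c * ∏ i, (X - C (α i))) :
    ‖res x‖ = ‖c‖ ^ d * ∏ i, ‖(cpoly x.1).eval (α i)‖ := by
  have hmon : (∏ i, (X - C (α i)) : ℂ[X]).Monic := monic_prod_of_monic _ _ fun i _ => monic_X_sub_C _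
  have hdeg : (∏ i, (X - C (α i)) : ℂ[X]).natDegree = d := by
    rw [natDegree_prod_of_monic _ _ fun i _ => monic_X_sub_C _]
    simp
  have hQd : (cpoly x.2).natDegree = d := by
    rw [h, natDegree_C_mul hc, hdeg]
  have hlc : (cpoly x.2).leadingCoeff = c := by
    rw [h, leadingCoeff_mul, leadingCoeff_C, hmon.leadingCoeff, mul_one]
  have hroots : (cpoly x.2).roots = (Finset.univ.val.map α) := by
    rw [h, roots_C_mul _ hc]
    have : (∏ i, (X - C (α i)) : ℂ[X]) = ((Finset.univ.val.map α).map fun a => X - C a).prod := by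
      rw [Multiset.map_map]
      rfl
    rw [this, roots_multiset_prod_X_sub_C]
  unfold res
  rw [resultant_comm]
  have h1 := resultant_eq_prod_eval (cpoly x.2) (cpoly x.1) d (cpoly_natDegree _)
    (IsAlgClosed.splits _)
  rw [hQd, hlc, hroots, Multiset.map_map] at h1
  rw [h1, norm_mul, norm_mul, norm_pow, norm_neg, norm_one, one_pow, one_mul, norm_pow]
  congr 1
  rw [← norm_prod]
  rfl

/-- a polynomial with leading coefficient `c` is `c ∏ (X - α i)` -/
theorem exists_roots {F : ℂ[X]} (hF : F.natDegree ≤ d) (hc : F.coeff d ≠ 0) :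
    ∃ α : Fin d → ℂ, F = C (F.coeff d) * ∏ i, (X - C (α i)) := by
  have hdeg : F.natDegree = d := le_antisymm hF (le_natDegree_of_ne_zero hc)
  have hlc : F.leadingCoeff = F.coeff d := by rw [← coeff_natDegree, hdeg]
  have hs : F.Splits := IsAlgClosed.splits F
  have hcard : F.roots.card = d := (splits_iff_card_roots.1 hs).trans hdeg
  have hp := hs.eq_prod_roots
  rw [hlc] at hp
  generalize F.roots = R at hcard hp
  obtain ⟨l, rfl⟩ : ∃ l : List ℂ, (l : Multiset ℂ) = R := ⟨R.toList, R.coe_toList⟩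
  have hl : l.length = d := by simpa using hcard
  subst hl
  refine ⟨l.get, ?_⟩
  conv_lhs => rw [hp]
  congr 1
  rw [Multiset.map_coe, Multiset.prod_coe]
  conv_lhs => rw [← List.ofFn_get l]
  rw [List.map_ofFn, List.prod_ofFn]
  rfl

theorem cpoly_LL1 (j : ℂ) (x : (Fin (d + 1) → ℂ) × (Fin (d + 1) → ℂ)) :
    cpoly (LL j x).1 = Lpol j x.1 - C j * Lpol j x.2 := by
  rw [LL_fst, sub_eq_add_neg, ← neg_smul, cpoly_add, cpoly_smul, cpoly_Lj, cpoly_Lj, C_neg]
  ring

/-- the resultant does not change -/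
theorem res_LL {j : ℂ} {x : (Fin (d + 1) → ℂ) × (Fin (d + 1) → ℂ)}
    (hq : x.2 (Fin.last d) ≠ 0) (hj : (cpoly x.2).eval j ≠ 0) : ‖res (LL j x)‖ = ‖res x‖ := by
  have hM : cpoly (LL j x).2 = Lpol j x.2 := by rw [LL_snd, cpoly_Lj]
  obtain ⟨α, hα⟩ := exists_roots (Lpol_natDegree j x.2) (by rwa [Lpol_coeff])
  rw [Lpol_coeff] at hα
  set c := (cpoly x.2).eval j with hc
  have hcf : (cpoly x.2).coeff d = x.2 (Fin.last d) := cpoly_coeff x.2 (Fin.last d)
  have hMe : ∀ ζ, (Lpol j x.2).eval ζ = c * ∏ i, (ζ - α i) := by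
    intro ζ
    rw [hα, eval_mul, eval_C, eval_prod]
    simp
  have hq0 : x.2 (Fin.last d) = c * ∏ i, (-α i) := by
    rw [← hcf, ← Lpol_zero j x.2, hMe]
    simp
  have hα0 : ∀ i, α i ≠ 0 := by
    intro i hi
    apply hq
    rw [hq0, Finset.prod_eq_zero (Finset.mem_univ i) (by rw [hi, neg_zero]), mul_zero]
  have hQ : cpoly x.2 = C (x.2 (Fin.last d)) * ∏ i, (X - C (j + (α i)⁻¹)) := by
    have h0 : ∀ z : ℂ, z ≠ j → (cpoly x.2).eval z =
        (C (x.2 (Fin.last d)) * ∏ i, (X - C (j + (α i)⁻¹)) : ℂ[X]).eval z := by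
      intro z hz
      have hz' : z - j ≠ 0 := sub_ne_zero.2 hz
      have h3 := Lpol_inv (j := j) x.2 (inv_ne_zero hz')
      rw [inv_inv, add_sub_cancel, hMe] at h3
      have h4 : (cpoly x.2).eval z = (z - j) ^ d * (c * ∏ i, ((z - j)⁻¹ - α i)) := by
        rw [h3, ← mul_assoc, ← mul_pow, mul_inv_cancel₀ hz', one_pow, one_mul]
      rw [h4, eval_mul, eval_C, eval_prod, hq0]
      simp only [eval_sub, eval_X, eval_C]
      have h5 : (z - j) ^ d = ∏ _i : Fin d, (z - j) := by simp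
      rw [h5, mul_left_comm, ← Finset.prod_mul_distrib, mul_assoc, ← Finset.prod_mul_distrib]
      congr 1
      refine Finset.prod_congr rfl fun i _ => ?_
      have := hα0 i
      field_simp
      ring
    refine Polynomial.eq_of_infinite_eval_eq _ _ ?_
    refine Set.Infinite.mono (s := {j}ᶜ) (fun z hz => h0 z hz) ?_
    exact (Set.finite_singleton j).infinite_compl
  rw [res_prod hj (hM.trans hα), res_prod hq hQ, hq0, norm_mul, mul_pow, mul_assoc, norm_prod,
    ← Finset.prod_pow, ← Finset.prod_mul_distrib]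
  congr 1
  refine Finset.prod_congr rfl fun i _ => ?_
  have hMα : (Lpol j x.2).eval (α i) = 0 := by
    rw [hMe, Finset.prod_eq_zero (Finset.mem_univ i) (sub_self _), mul_zero]
  rw [cpoly_LL1, eval_sub, eval_mul, hMα, mul_zero, sub_zero, Lpol_inv _ (hα0 i), norm_mul,
    norm_pow, norm_neg]

end Pool.Agent.Y295.RS
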