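import Mathlib
import Pool.Agent.Y295.RS.Ann

set_option autoImplicit false

open MeasureTheory Set Metric
open scoped ENNReal

namespace Pool.Agent.Y295.RS

theorem slice {n : ℕ} (i : Fin (n + 1)) {S : Set (Fin (n + 1) → ℂ)} (hS : MeasurableSet S) :
    volume S = ∫⁻ z : ℂ, volume {w : Fin n → ℂ | i.insertNth z w ∈ S} := by
  have h := (volume_preserving_piFinSuccAbove (fun _ : Fin (n + 1) => ℂ) i).symm
  rw [← h.measure_preimage hS.nullMeasurableSet, Measure.volume_eq_prod,
    Measure.prod_apply (h.measurable hS)]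
  rfl

/-- tuples with bounded entries and small product -/
def Vs (n : ℕ) (R η : ℝ) : Set (Fin n → ℂ) := {y | (∀ i, ‖y i‖ ≤ R) ∧ ∏ i, ‖y i‖ ≤ η}

theorem meas_box (n : ℕ) (R : ℝ) : MeasurableSet {y : Fin n → ℂ | ∀ i, ‖y i‖ ≤ R} := by
  have : {y : Fin n → ℂ | ∀ i, ‖y i‖ ≤ R} = ⋂ i, {y | ‖y i‖ ≤ R} := by ext; simp
  rw [this]
  exact MeasurableSet.iInter fun i =>
    measurableSet_le (measurable_norm.comp (measurable_pi_apply i)) measurable_const

theorem meas_prod (n : ℕ) : Measurable fun y : Fin n → ℂ => ∏ i, ‖y i‖ := by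
  refine Continuous.measurable ?_
  fun_prop

theorem meas_Vs (n : ℕ) (R η : ℝ) : MeasurableSet (Vs n R η) :=
  (meas_box n R).inter (measurableSet_le (meas_prod n) measurable_const)

theorem vol_box (n : ℕ) (R : ℝ) : volume {y : Fin n → ℂ | ∀ i, ‖y i‖ ≤ R} < ⊤ := by
  refine lt_of_le_of_lt (measure_mono ?_) (measure_closedBall_lt_top (x := (0 : Fin n → ℂ))
    (r := max R 0))
  intro y hy
  rw [mem_closedBall_zero_iff, pi_norm_le_iff_of_nonneg (le_max_right _ _)]
  exact fun i => (hy i).trans (le_max_left _ _)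

theorem vol_disc {R : ℝ} (hR : 0 ≤ R) : volume {z : ℂ | ‖z‖ ≤ R} = ENNReal.ofReal (Real.pi * R ^ 2) := by
  have : {z : ℂ | ‖z‖ ≤ R} = closedBall 0 R := by ext; simp
  rw [this, Complex.volume_closedBall, ENNReal.ofReal_mul Real.pi_pos.le, mul_comm,
    ENNReal.ofReal_pow hR]
  congr 1
  rw [← NNReal.coe_real_pi, ENNReal.ofReal_coe_nnreal]

/-- upper bound for the slice integral -/
theorem slice_up {m : ℕ} {R η C L τ : ℝ} (hC : 0 ≤ C) (hη : 0 < η) (hL : 0 ≤ L) (hτ : 0 < τ)
    (hτR : τ ≤ R)
    (h : ∀ z : ℂ, τ < ‖z‖ → ‖z‖ ≤ R → volume (Vs m R (η / ‖z‖)) ≤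
      ENNReal.ofReal (C * (η / ‖z‖) ^ 2 * L)) :
    ∫⁻ z in {z : ℂ | τ < ‖z‖ ∧ ‖z‖ ≤ R}, volume (Vs m R (η / ‖z‖)) ≤
      ENNReal.ofReal (C * η ^ 2 * L * (2 * Real.pi * Real.log (R / τ))) := by
  have hS : MeasurableSet {z : ℂ | τ < ‖z‖ ∧ ‖z‖ ≤ R} :=
    (measurableSet_lt measurable_const measurable_norm).inter
      (measurableSet_le measurable_norm measurable_const)
  have hA : 0 ≤ C * η ^ 2 * L := by positivity
  calc ∫⁻ z in {z : ℂ | τ < ‖z‖ ∧ ‖z‖ ≤ R}, volume (Vs m R (η / ‖z‖))
      ≤ ∫⁻ z in {z : ℂ | τ < ‖z‖ ∧ ‖z‖ ≤ R},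
        ENNReal.ofReal (C * η ^ 2 * L) * ENNReal.ofReal ((‖z‖ ^ 2)⁻¹) := by
        refine setLIntegral_mono' hS fun z hz => ?_
        refine (h z hz.1 hz.2).trans (le_of_eq ?_)
        rw [← ENNReal.ofReal_mul hA]
        congr 1
        field_simp
    _ = ENNReal.ofReal (C * η ^ 2 * L * (2 * Real.pi * Real.log (R / τ))) := by
        rw [lintegral_const_mul' _ _ ENNReal.ofReal_ne_top, ann hτ hτR, ← ENNReal.ofReal_mul hA]

theorem V_up (n : ℕ) {R : ℝ} (hR : 1 ≤ R) : ∃ C : ℝ, 0 < C ∧ ∀ η L : ℝ, 0 < η → 1 ≤ L →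
    Real.log (1 / η) ≤ L → volume (Vs (n + 1) R η) ≤ ENNReal.ofReal (C * η ^ 2 * L ^ n) := by
  have hR0 : 0 < R := by linarith
  have hlR : 0 ≤ Real.log R := Real.log_nonneg hR
  induction n with
  | zero =>
    refine ⟨Real.pi, Real.pi_pos, fun η L hη hL _ => ?_⟩
    rw [slice 0 (meas_Vs 1 R η)]
    calc ∫⁻ z : ℂ, volume {w : Fin 0 → ℂ | (0 : Fin 1).insertNth z w ∈ Vs 1 R η}
        ≤ ∫⁻ z : ℂ, {z : ℂ | ‖z‖ ≤ η}.indicator (fun _ => 1) z := by
          refine lintegral_mono fun z => ?_
          by_cases hz : ‖z‖ ≤ η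
          · rw [indicator_of_mem (by exact hz)]
            refine (measure_mono (subset_univ _)).trans (le_of_eq ?_)
            rw [volume_pi, Measure.pi_of_empty _ (fun i => i.elim0)]
            simp
          · rw [indicator_of_notMem (by exact hz)]
            refine le_of_eq ?_
            have : {w : Fin 0 → ℂ | (0 : Fin 1).insertNth z w ∈ Vs 1 R η} = ∅ := by
              ext w
              simp only [mem_ofPred_eq, mem_empty_iff_false, iff_false]
              intro h
              apply hz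
              have := h.2
              simpa using this
            rw [this, measure_empty]
      _ = ENNReal.ofReal (Real.pi * η ^ 2 * L ^ 0) := by
          rw [lintegral_indicator (measurableSet_le measurable_norm measurable_const),
            setLIntegral_one, vol_disc hη.le]
          simp
  | succ n ih =>
    obtain ⟨C, hC, h⟩ := ih
    set B := volume {y : Fin (n + 1) → ℂ | ∀ i, ‖y i‖ ≤ R} with hB
    have hBt : B < ⊤ := vol_box _ _
    refine ⟨B.toReal * Real.pi + 2 * Real.pi * C * (1 + Real.log R) ^ (n + 1), by positivity,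
      fun η L hη hL hL' => ?_⟩
    have hL0 : 0 < L := by linarith
    rw [slice 0 (meas_Vs (n + 2) R η)]
    have hsub : ∀ z : ℂ, volume {w : Fin (n + 1) → ℂ | (0 : Fin (n + 2)).insertNth z w ∈
        Vs (n + 2) R η} ≤ {z : ℂ | ‖z‖ ≤ η}.indicator (fun _ => B) z +
        {z : ℂ | η < ‖z‖ ∧ ‖z‖ ≤ R}.indicator (fun z => volume (Vs (n + 1) R (η / ‖z‖))) z := by
      intro z
      by_cases hz : ‖z‖ ≤ η
      · rw [indicator_of_mem (by exact hz)]
        refine le_add_right (measure_mono ?_)
        intro w hw i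
        have := hw.1 (Fin.succ i)
        simpa using this
      · rw [indicator_of_notMem (by exact hz), zero_add]
        push Not at hz
        by_cases hz2 : ‖z‖ ≤ R
        · rw [indicator_of_mem (by exact ⟨hz, hz2⟩)]
          refine measure_mono ?_
          intro w hw
          refine ⟨fun i => by have := hw.1 (Fin.succ i); simpa using this, ?_⟩
          have h2 := hw.2
          rw [Fin.prod_univ_succ] at h2
          rw [le_div_iff₀ (hη.trans hz), mul_comm]
          simpa using h2
        · refine le_trans (le_of_eq ?_) zero_le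
          have : {w : Fin (n + 1) → ℂ | (0 : Fin (n + 2)).insertNth z w ∈ Vs (n + 2) R η} = ∅ := by
            ext w
            simp only [mem_ofPred_eq, mem_empty_iff_false, iff_false]
            intro h
            apply hz2
            have := h.1 0
            simpa using this
          rw [this, measure_empty]
    have hmA : MeasurableSet {z : ℂ | ‖z‖ ≤ η} := measurableSet_le measurable_norm measurable_const
    have hmB : MeasurableSet {z : ℂ | η < ‖z‖ ∧ ‖z‖ ≤ R} :=
      (measurableSet_lt measurable_const measurable_norm).inter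
        (measurableSet_le measurable_norm measurable_const)
    have hLR : 0 ≤ L + Real.log R := by linarith
    have hkey : ∫⁻ z in {z : ℂ | η < ‖z‖ ∧ ‖z‖ ≤ R}, volume (Vs (n + 1) R (η / ‖z‖)) ≤
        ENNReal.ofReal (2 * Real.pi * C * (1 + Real.log R) ^ (n + 1) * η ^ 2 * L ^ (n + 1)) := by
      by_cases hηR : η ≤ R
      · refine (slice_up (C := C) (L := (L + Real.log R) ^ n) hC.le hη (by positivity) hη hηR
          ?_).trans ?_
        · intro z hz1 hz2
          have hz0 : 0 < ‖z‖ := hη.trans hz1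
          refine h _ _ (by positivity) (by linarith) ?_
          rw [one_div_div, Real.log_div hz0.ne' hη.ne']
          have h1 : Real.log ‖z‖ ≤ Real.log R := Real.log_le_log hz0 hz2
          rw [one_div, Real.log_inv] at hL'
          linarith
        · refine ENNReal.ofReal_le_ofReal ?_
          have h1 : Real.log (R / η) ≤ L + Real.log R := by
            rw [Real.log_div hR0.ne' hη.ne']
            rw [one_div, Real.log_inv] at hL'
            linarith
          have h2 : L + Real.log R ≤ (1 + Real.log R) * L := by nlinarith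
          calc C * η ^ 2 * (L + Real.log R) ^ n * (2 * Real.pi * Real.log (R / η))
              ≤ C * η ^ 2 * (L + Real.log R) ^ n * (2 * Real.pi * (L + Real.log R)) := by
                gcongr
            _ = 2 * Real.pi * C * η ^ 2 * (L + Real.log R) ^ (n + 1) := by ring
            _ ≤ 2 * Real.pi * C * η ^ 2 * ((1 + Real.log R) * L) ^ (n + 1) := by
                gcongr
            _ = _ := by rw [mul_pow]; ring
      · have : {z : ℂ | η < ‖z‖ ∧ ‖z‖ ≤ R} = ∅ := by
          ext z
          simp only [mem_ofPred_eq, mem_empty_iff_false, iff_false]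
          rintro ⟨h1, h2⟩
          exact hηR (h1.le.trans h2)
        rw [this]
        simp
    calc ∫⁻ z : ℂ, volume {w : Fin (n + 1) → ℂ | (0 : Fin (n + 2)).insertNth z w ∈
          Vs (n + 2) R η}
        ≤ ∫⁻ z : ℂ, ({z : ℂ | ‖z‖ ≤ η}.indicator (fun _ => B) z +
        {z : ℂ | η < ‖z‖ ∧ ‖z‖ ≤ R}.indicator (fun z => volume (Vs (n + 1) R (η / ‖z‖))) z) :=
          lintegral_mono hsub
      _ = B * ENNReal.ofReal (Real.pi * η ^ 2) +
          ∫⁻ z in {z : ℂ | η < ‖z‖ ∧ ‖z‖ ≤ R}, volume (Vs (n + 1) R (η / ‖z‖)) := by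
          rw [lintegral_add_left (measurable_const.indicator hmA), lintegral_indicator hmA,
            lintegral_indicator hmB, setLIntegral_const, vol_disc hη.le]
      _ ≤ ENNReal.ofReal (B.toReal * (Real.pi * η ^ 2)) + ENNReal.ofReal
          (2 * Real.pi * C * (1 + Real.log R) ^ (n + 1) * η ^ 2 * L ^ (n + 1)) := by
          refine add_le_add (le_of_eq ?_) hkey
          rw [ENNReal.ofReal_mul ENNReal.toReal_nonneg, ENNReal.ofReal_toReal hBt.ne]
      _ ≤ _ := by
          rw [← ENNReal.ofReal_add (by positivity) (by positivity)]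
          refine ENNReal.ofReal_le_ofReal ?_
          have h1 : 1 ≤ L ^ (n + 1) := one_le_pow₀ hL
          have h2 : B.toReal * (Real.pi * η ^ 2) ≤ B.toReal * (Real.pi * η ^ 2) * L ^ (n + 1) :=
            le_mul_of_one_le_right (by positivity) h1
          nlinarith [h2]

/-- tuples with bounded entries and small product, one entry being not small -/
def Us (n : ℕ) (R η τ : ℝ) : Set (Fin n → ℂ) :=
  {y | (∀ i, ‖y i‖ ≤ R) ∧ ∏ i, ‖y i‖ ≤ η ∧ ∃ i, τ < ‖y i‖}

theorem meas_U1 (n : ℕ) (τ : ℝ) (i : Fin n) : MeasurableSet {y : Fin n → ℂ | τ < ‖y i‖} :=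
  measurableSet_lt measurable_const (measurable_norm.comp (measurable_pi_apply i))

theorem U_up (n : ℕ) {R : ℝ} (hR : 1 ≤ R) : ∃ C : ℝ, 0 < C ∧ ∀ η L τ : ℝ, 0 < η → 1 ≤ L →
    Real.log (1 / η) ≤ L → 0 < τ → τ ≤ R → volume (Us (n + 2) R η τ) ≤
      ENNReal.ofReal (C * η ^ 2 * L ^ n * Real.log (R / τ)) := by
  have hR0 : 0 < R := by linarith
  have hlR : 0 ≤ Real.log R := Real.log_nonneg hR
  obtain ⟨C, hC, h⟩ := V_up n hR
  refine ⟨(n + 2) * (C * (1 + Real.log R) ^ n * (2 * Real.pi)), by positivity,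
    fun η L τ hη hL hL' hτ hτR => ?_⟩
  have hLR : 0 ≤ L + Real.log R := by linarith
  have hlog : 0 ≤ Real.log (R / τ) := Real.log_nonneg (by rwa [one_le_div hτ])
  have h1 : Us (n + 2) R η τ ⊆ ⋃ i : Fin (n + 2), (Vs (n + 2) R η ∩ {y | τ < ‖y i‖}) := by
    rintro y ⟨h1, h2, i, hi⟩
    exact mem_iUnion.2 ⟨i, ⟨h1, h2⟩, hi⟩
  have h2 : ∀ i : Fin (n + 2), volume (Vs (n + 2) R η ∩ {y | τ < ‖y i‖}) ≤
      ENNReal.ofReal (C * (1 + Real.log R) ^ n * (2 * Real.pi) * η ^ 2 * L ^ n *
        Real.log (R / τ)) := by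
    intro i
    rw [slice i ((meas_Vs _ _ _).inter (meas_U1 _ _ _))]
    have hmB : MeasurableSet {z : ℂ | τ < ‖z‖ ∧ ‖z‖ ≤ R} :=
      (measurableSet_lt measurable_const measurable_norm).inter
        (measurableSet_le measurable_norm measurable_const)
    calc ∫⁻ z : ℂ, volume {w : Fin (n + 1) → ℂ | i.insertNth z w ∈
          Vs (n + 2) R η ∩ {y | τ < ‖y i‖}}
        ≤ ∫⁻ z : ℂ, {z : ℂ | τ < ‖z‖ ∧ ‖z‖ ≤ R}.indicator
            (fun z => volume (Vs (n + 1) R (η / ‖z‖))) z := by
          refine lintegral_mono fun z => ?_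
          by_cases hz : τ < ‖z‖ ∧ ‖z‖ ≤ R
          · rw [indicator_of_mem (by exact hz)]
            refine measure_mono ?_
            rintro w ⟨⟨h1, h2⟩, -⟩
            refine ⟨fun j => by have := h1 (i.succAbove j); simpa using this, ?_⟩
            rw [Fin.prod_univ_succAbove _ i] at h2
            rw [le_div_iff₀ (hτ.trans hz.1), mul_comm]
            simpa using h2
          · refine le_trans (le_of_eq ?_) zero_le
            have : {w : Fin (n + 1) → ℂ | i.insertNth z w ∈
                Vs (n + 2) R η ∩ {y | τ < ‖y i‖}} = ∅ := by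
              ext w
              simp only [mem_ofPred_eq, mem_empty_iff_false, iff_false]
              rintro ⟨⟨h1, h2⟩, h3⟩
              apply hz
              have h4 := h1 i
              simp only [Fin.insertNth_apply_same, mem_ofPred_eq] at h3 h4
              exact ⟨h3, h4⟩
            rw [this, measure_empty]
      _ = ∫⁻ z in {z : ℂ | τ < ‖z‖ ∧ ‖z‖ ≤ R}, volume (Vs (n + 1) R (η / ‖z‖)) :=
          lintegral_indicator hmB _
      _ ≤ ENNReal.ofReal (C * η ^ 2 * (L + Real.log R) ^ n * (2 * Real.pi * Real.log (R / τ))) := by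
          refine slice_up hC.le hη (by positivity) hτ hτR ?_
          intro z hz1 hz2
          have hz0 : 0 < ‖z‖ := hτ.trans hz1
          refine h _ _ (by positivity) (by linarith) ?_
          rw [one_div_div, Real.log_div hz0.ne' hη.ne']
          have h1 : Real.log ‖z‖ ≤ Real.log R := Real.log_le_log hz0 hz2
          rw [one_div, Real.log_inv] at hL'
          linarith
      _ ≤ _ := by
          refine ENNReal.ofReal_le_ofReal ?_
          have h2 : L + Real.log R ≤ (1 + Real.log R) * L := by nlinarith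
          calc C * η ^ 2 * (L + Real.log R) ^ n * (2 * Real.pi * Real.log (R / τ))
              ≤ C * η ^ 2 * ((1 + Real.log R) * L) ^ n * (2 * Real.pi * Real.log (R / τ)) := by
                gcongr
            _ = _ := by rw [mul_pow]; ring
  calc volume (Us (n + 2) R η τ) ≤ ∑ i : Fin (n + 2), volume (Vs (n + 2) R η ∩ {y | τ < ‖y i‖}) :=
        (measure_mono h1).trans (measure_iUnion_fintype_le _ _)
    _ ≤ ∑ _i : Fin (n + 2), ENNReal.ofReal (C * (1 + Real.log R) ^ n * (2 * Real.pi) * η ^ 2 *
        L ^ n * Real.log (R / τ)) := Finset.sum_le_sum fun i _ => h2 i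
    _ = _ := by
        rw [Finset.sum_const, Finset.card_univ, Fintype.card_fin, nsmul_eq_mul,
          ← ENNReal.ofReal_natCast, ← ENNReal.ofReal_mul (by positivity)]
        congr 1
        push_cast
        ring

/-- lower bound -/
theorem V_low (n : ℕ) {R : ℝ} (hR : 0 < R) : ∃ c η₀ : ℝ, 0 < c ∧ 0 < η₀ ∧ η₀ < 1 ∧
    ∀ η : ℝ, 0 < η → η ≤ η₀ →
      ENNReal.ofReal (c * η ^ 2 * Real.log (1 / η) ^ n) ≤ volume (Vs (n + 1) R η) := by
  induction n with
  | zero =>
    refine ⟨Real.pi, min R (1 / 2), Real.pi_pos, by positivity,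
      (min_le_right _ _).trans_lt (by norm_num), fun η hη hηR => ?_⟩
    have hηR' : η ≤ R := hηR.trans (min_le_left _ _)
    rw [slice 0 (meas_Vs 1 R η)]
    calc ENNReal.ofReal (Real.pi * η ^ 2 * Real.log (1 / η) ^ 0)
        = ∫⁻ z : ℂ, {z : ℂ | ‖z‖ ≤ η}.indicator (fun _ => 1) z := by
          rw [lintegral_indicator (measurableSet_le measurable_norm measurable_const),
            setLIntegral_one, vol_disc hη.le]
          simp
      _ ≤ ∫⁻ z : ℂ, volume {w : Fin 0 → ℂ | (0 : Fin 1).insertNth z w ∈ Vs 1 R η} := by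
          refine lintegral_mono fun z => ?_
          by_cases hz : ‖z‖ ≤ η
          · rw [indicator_of_mem (by exact hz)]
            have : {w : Fin 0 → ℂ | (0 : Fin 1).insertNth z w ∈ Vs 1 R η} = univ := by
              ext w
              simp only [mem_ofPred_eq, mem_univ, iff_true]
              refine ⟨fun i => ?_, ?_⟩
              · fin_cases i
                simpa using hz.trans hηR'
              · simpa using hz
            rw [this, volume_pi, Measure.pi_of_empty _ (fun i => i.elim0)]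
            simp
          · rw [indicator_of_notMem (by exact hz)]
            exact zero_le
  | succ n ih =>
    obtain ⟨c, η₀, hc, hη₀, hη₀1, h⟩ := ih
    refine ⟨c * (1 / 2) ^ n * (2 * Real.pi * (1 / 4)), min (η₀ ^ 2) (min (R ^ 4) (η₀ ^ 2)), by positivity,
      by positivity, (min_le_left _ _).trans_lt (by nlinarith), fun η hη hηm => ?_⟩
    have hη1 : η ≤ η₀ ^ 2 := hηm.trans (min_le_left _ _)
    have hη2 : η ≤ R ^ 4 := hηm.trans ((min_le_right _ _).trans (min_le_left _ _))
    have hηlt : η < 1 := by nlinarith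
    set s := Real.sqrt η with hs
    have hs0 : 0 < s := Real.sqrt_pos.2 hη
    have hss : s ^ 2 = η := Real.sq_sqrt hη.le
    have hsη : s ≤ η₀ := by
      rw [hs]
      exact Real.sqrt_le_iff.2 ⟨hη₀.le, hη1⟩
    have hlη : 0 < Real.log (1 / η) := Real.log_pos (by rw [lt_div_iff₀ hη]; linarith)
    have hlog1 : Real.log (1 / η) = - Real.log η := by rw [one_div, Real.log_inv]
    have hlogs : Real.log s = Real.log η / 2 := by
      rw [← hss, Real.log_pow]; push_cast; ring
    have hlogR : Real.log η ≤ 4 * Real.log R := by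
      have := Real.log_le_log hη hη2
      rwa [Real.log_pow] at this
    have hsR : s ≤ R := by
      by_contra hcon
      push Not at hcon
      have h1 := Real.log_lt_log hR hcon
      linarith
    have hmB : MeasurableSet {z : ℂ | s < ‖z‖ ∧ ‖z‖ ≤ R} :=
      (measurableSet_lt measurable_const measurable_norm).inter
        (measurableSet_le measurable_norm measurable_const)
    have hA : 0 ≤ c * η ^ 2 * ((1 / 2) * Real.log (1 / η)) ^ n := by positivity
    rw [slice 0 (meas_Vs (n + 2) R η)]
    calc ENNReal.ofReal (c * (1 / 2) ^ n * (2 * Real.pi * (1 / 4)) * η ^ 2 *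
          Real.log (1 / η) ^ (n + 1))
        ≤ ENNReal.ofReal (c * η ^ 2 * ((1 / 2) * Real.log (1 / η)) ^ n *
            (2 * Real.pi * Real.log (R / s))) := by
          refine ENNReal.ofReal_le_ofReal ?_
          have h1 : (1 / 4) * Real.log (1 / η) ≤ Real.log (R / s) := by
            rw [Real.log_div hR.ne' hs0.ne', hlogs, hlog1]
            linarith
          calc c * (1 / 2) ^ n * (2 * Real.pi * (1 / 4)) * η ^ 2 * Real.log (1 / η) ^ (n + 1)
              = c * η ^ 2 * ((1 / 2) * Real.log (1 / η)) ^ n *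
                  (2 * Real.pi * ((1 / 4) * Real.log (1 / η))) := by rw [mul_pow]; ring
            _ ≤ _ := by gcongr
      _ = ∫⁻ z in {z : ℂ | s < ‖z‖ ∧ ‖z‖ ≤ R},
          ENNReal.ofReal (c * η ^ 2 * ((1 / 2) * Real.log (1 / η)) ^ n) *
            ENNReal.ofReal ((‖z‖ ^ 2)⁻¹) := by
          rw [lintegral_const_mul' _ _ ENNReal.ofReal_ne_top, ann hs0 hsR, ← ENNReal.ofReal_mul hA]
      _ ≤ ∫⁻ z in {z : ℂ | s < ‖z‖ ∧ ‖z‖ ≤ R}, volume (Vs (n + 1) R (η / ‖z‖)) := by
          refine setLIntegral_mono' hmB fun z hz => ?_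
          have hz0 : 0 < ‖z‖ := hs0.trans hz.1
          have h1 : η / ‖z‖ ≤ s := by
            rw [div_le_iff₀ hz0, ← hss, sq]
            exact mul_le_mul_of_nonneg_left hz.1.le hs0.le
          have h2 := h (η / ‖z‖) (by positivity) (h1.trans hsη)
          refine le_trans ?_ h2
          rw [← ENNReal.ofReal_mul hA]
          refine ENNReal.ofReal_le_ofReal ?_
          have h3 : (1 / 2) * Real.log (1 / η) ≤ Real.log (1 / (η / ‖z‖)) := by
            have h4 := Real.log_le_log (by positivity) h1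
            rw [one_div (η / ‖z‖), Real.log_inv, hlog1]
            linarith
          calc c * η ^ 2 * ((1 / 2) * Real.log (1 / η)) ^ n * (‖z‖ ^ 2)⁻¹
              = c * (η / ‖z‖) ^ 2 * ((1 / 2) * Real.log (1 / η)) ^ n := by field_simp
            _ ≤ _ := by gcongr
      _ = ∫⁻ z : ℂ, {z : ℂ | s < ‖z‖ ∧ ‖z‖ ≤ R}.indicator
            (fun z => volume (Vs (n + 1) R (η / ‖z‖))) z := (lintegral_indicator hmB _).symm
      _ ≤ _ := by
          refine lintegral_mono fun z => ?_
          by_cases hz : s < ‖z‖ ∧ ‖z‖ ≤ R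
          · rw [indicator_of_mem (by exact hz)]
            refine measure_mono ?_
            rintro w ⟨h1, h2⟩
            have hz0 : 0 < ‖z‖ := hs0.trans hz.1
            refine ⟨fun i => ?_, ?_⟩
            · refine Fin.cases ?_ (fun j => ?_) i
              · simpa using hz.2
              · simpa using h1 j
            · rw [Fin.prod_univ_succ]
              rw [le_div_iff₀ hz0, mul_comm] at h2
              simpa using h2
          · rw [indicator_of_notMem (by exact hz)]
            exact zero_le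

end Pool.Agent.Y295.RS
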