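import Mathlib
import Pool.Agent.W253.CV.Coef
import Pool.Agent.W293.CV.Jac
import Pool.Agent.W641.RV.Coef2
import Pool.Agent.Y295.RS.Vol
import Pool.Agent.Y295.RS.Chart

/-!
# Change of variables: from the coefficients to the poles
-/

set_option autoImplicit false

open Polynomial Filter Topology MeasureTheory
open scoped ENNReal

namespace Pool.Agent.Y295.RS

open Pool.Agent.W751.CD Pool.Agent.W751.CV

variable {d : ℕ}

/-- insert the top coefficient -/
noncomputable def ins (z : ℂ) (w : Fin d → ℂ) : Fin (d + 1) → ℂ :=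
  (Fin.last d).insertNth (α := fun _ => ℂ) z w

theorem ins_last (z : ℂ) (w : Fin d → ℂ) : ins z w (Fin.last d) = z := by
  unfold ins; simp

theorem ins_castSucc (z : ℂ) (w : Fin d → ℂ) (k : Fin d) : ins z w k.castSucc = w k := by
  unfold ins
  rw [← Fin.succAbove_last_apply, Fin.insertNth_apply_succAbove]

theorem cpoly_ins (z : ℂ) (w : Fin d → ℂ) :
    cpoly (ins z w) = C z * X ^ d + ∑ k : Fin d, C (w k) * X ^ (k : ℕ) := by
  unfold cpoly
  rw [Fin.sum_univ_castSucc, ins_last, Fin.val_last, add_comm]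
  congr 1
  refine Finset.sum_congr rfl fun k _ => ?_
  rw [ins_castSucc, Fin.val_castSucc]

theorem cpoly_ins_smul (c : ℂ) (a : Fin d → ℂ) : cpoly (ins c (c • a)) = C c * poly a := by
  rw [cpoly_ins]
  unfold poly
  rw [mul_add, Finset.mul_sum]
  congr 1
  refine Finset.sum_congr rfl fun k _ => ?_
  rw [Pi.smul_apply, smul_eq_mul, C_mul, mul_assoc]

theorem cpoly_ins_Phi (c : ℂ) (α : Fin d → ℂ) :
    cpoly (ins c (c • Phi α)) = C c * ∏ i, (X - C (α i)) := by
  rw [cpoly_ins_smul, Pool.Agent.W253.CV.poly_Phi]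
  rfl

theorem continuous_ins : Continuous fun u : ℂ × (Fin d → ℂ) => ins u.1 u.2 := by
  refine continuous_pi fun k => ?_
  refine Fin.lastCases ?_ (fun k => ?_) k
  · simp only [ins_last]
    exact continuous_fst
  · simp only [ins_castSucc]
    exact (continuous_apply k).comp continuous_snd

/-- the volume of the fibre over `c`, `b`, `p` -/
noncomputable def HH (W : Set ((Fin (d + 1) → ℂ) × (Fin (d + 1) → ℂ))) (c : ℂ) (b : Fin d → ℂ)
    (p : ℂ) : ℝ≥0∞ := volume {r : Fin d → ℂ | (ins p r, ins c b) ∈ W}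

theorem meas_HH {W : Set ((Fin (d + 1) → ℂ) × (Fin (d + 1) → ℂ))} (hW : MeasurableSet W) :
    Measurable fun t : ℂ × (Fin d → ℂ) × ℂ => HH W t.1 t.2.1 t.2.2 := by
  have hm : Measurable fun t : (ℂ × (Fin d → ℂ) × ℂ) × (Fin d → ℂ) =>
      (ins t.1.2.2 t.2, ins t.1.1 t.1.2.1) := by
    refine Continuous.measurable ?_
    exact (continuous_ins.comp ((continuous_snd.comp (continuous_snd.comp continuous_fst)).prodMk
      continuous_snd)).prodMk (continuous_ins.comp ((continuous_fst.comp continuous_fst).prodMk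
        (continuous_fst.comp (continuous_snd.comp continuous_fst))))
  exact measurable_measure_prodMk_left (hm hW)

theorem vol_split {W : Set ((Fin (d + 1) → ℂ) × (Fin (d + 1) → ℂ))} (hW : MeasurableSet W) :
    volume W = ∫⁻ c : ℂ, ∫⁻ p : ℂ, ∫⁻ b : Fin d → ℂ, HH W c b p := by
  have he := (volume_preserving_piFinSuccAbove (fun _ : Fin (d + 1) => ℂ) (Fin.last d)).symm
  have he2 := he.prod he
  have hH := meas_HH hW
  have hmS : MeasurableSet ((Prod.map (MeasurableEquiv.piFinSuccAbove (fun _ : Fin (d + 1) => ℂ)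
      (Fin.last d)).symm (MeasurableEquiv.piFinSuccAbove (fun _ : Fin (d + 1) => ℂ)
      (Fin.last d)).symm) ⁻¹' W) := he2.measurable hW
  rw [Measure.volume_eq_prod, ← he2.measure_preimage hW.nullMeasurableSet,
    Measure.prod_apply_symm hmS]
  have h1 : ∀ v : ℂ × (Fin d → ℂ), volume ((fun u : ℂ × (Fin d → ℂ) => (u, v)) ⁻¹'
      ((Prod.map (MeasurableEquiv.piFinSuccAbove (fun _ : Fin (d + 1) => ℂ)
      (Fin.last d)).symm (MeasurableEquiv.piFinSuccAbove (fun _ : Fin (d + 1) => ℂ)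
      (Fin.last d)).symm) ⁻¹' W)) = ∫⁻ p, HH W v.1 v.2 p := by
    intro v
    rw [Measure.volume_eq_prod, Measure.prod_apply
      ((measurable_prodMk_right (y := v)) hmS)]
    rfl
  simp only [h1]
  rw [Measure.volume_eq_prod, lintegral_prod]
  · refine lintegral_congr fun c => ?_
    rw [lintegral_lintegral_swap]
    refine Measurable.aemeasurable ?_
    exact hH.comp (measurable_const.prodMk (measurable_fst.prodMk measurable_snd))
  · refine Measurable.aemeasurable ?_
    exact Measurable.lintegral_prod_right' (f := fun t : (ℂ × (Fin d → ℂ)) × ℂ =>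
      HH W t.1.1 t.1.2 t.2) (hH.comp ((measurable_fst.comp measurable_fst).prodMk
        ((measurable_snd.comp measurable_fst).prodMk measurable_snd)))

/-- multiplication by `c` -/
theorem lint_smul {c : ℂ} (hc : c ≠ 0) {G : (Fin d → ℂ) → ℝ≥0∞} (hG : Measurable G) :
    ∫⁻ b, G b = ENNReal.ofReal (‖c‖ ^ (2 * d)) * ∫⁻ a, G (c • a) := by
  set f : (Fin d → ℂ) →ₗ[ℝ] (Fin d → ℂ) := (c • (LinearMap.id : (Fin d → ℂ) →ₗ[ℂ] (Fin d → ℂ))).restrictScalars ℝ with hf
  have hdet : LinearMap.det f = ‖c‖ ^ (2 * d) := by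
    rw [hf, LinearMap.det_restrictScalars, LinearMap.det_smul, LinearMap.det_id, mul_one,
      Module.finrank_fin_fun, Algebra.norm_complex_apply, Complex.normSq_eq_norm_sq, norm_pow,
      ← pow_mul, mul_comm]
  have hcn : 0 < ‖c‖ := norm_pos_iff.2 hc
  have hdet0 : LinearMap.det f ≠ 0 := by rw [hdet]; positivity
  have h1 := Measure.map_linearMap_addHaar_eq_smul_addHaar (volume : Measure (Fin d → ℂ)) hdet0
  have hfm : Measurable f := by
    have : (f : (Fin d → ℂ) → (Fin d → ℂ)) = fun a => c • a := rfl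
    rw [this]
    exact measurable_const_smul c
  have h2 : ∫⁻ a, G (c • a) = ∫⁻ b, G b ∂(Measure.map f volume) := by
    rw [lintegral_map hG hfm]
    rfl
  rw [h2, h1, lintegral_smul_measure, smul_eq_mul, ← mul_assoc, ← ENNReal.ofReal_mul (by positivity),
    hdet, abs_of_nonneg (by positivity), mul_inv_cancel₀ (by positivity), ENNReal.ofReal_one, one_mul]

theorem COEF : COEFc := Pool.Agent.W253.CV.coef Pool.Agent.W293.CV.t_jac

theorem map_Phi {ρ : ℝ} (hρ : 0 < ρ) : (mu ρ d).map Phi =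
    (d.factorial : ℝ≥0∞) • (volume : Measure (Fin d → ℂ)).restrict (Om 0 ρ d) := by
  ext S hS
  rw [Measure.map_apply (Pool.Agent.W641.RV.cont_Phi d).measurable hS, Measure.smul_apply,
    Measure.restrict_apply hS, smul_eq_mul, COEF d 0 ρ hρ S hS]
  simp only [add_zero]
  rfl

theorem meas_vd : Measurable fun z : Fin d → ℂ => ENNReal.ofReal (vd z) := by
  refine ENNReal.measurable_ofReal.comp (Continuous.measurable ?_)
  unfold vd
  simp only [Matrix.det_vandermonde]
  fun_prop

/-- from monic polynomials to roots -/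
theorem lint_Phi {ρ : ℝ} (hρ : 0 < ρ) {G : (Fin d → ℂ) → ℝ≥0∞} (hG : Measurable G)
    (hsupp : ∀ a, a ∉ Om 0 ρ d → G a = 0) :
    ∫⁻ a, G a = (d.factorial : ℝ≥0∞)⁻¹ *
      ∫⁻ α, ENNReal.ofReal (vd α) * G (Phi α) ∂(Measure.pi fun _ : Fin d => mD ρ) := by
  have hm : Measurable (Phi : (Fin d → ℂ) → (Fin d → ℂ)) := (Pool.Agent.W641.RV.cont_Phi d).measurable
  have h1 : ∫⁻ a, G a = ∫⁻ a in Om 0 ρ d, G a := by
    rw [setLIntegral_eq_of_support_subset]
    intro a ha
    by_contra hcon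
    exact ha (hsupp a hcon)
  have h2 : ∫⁻ α, ENNReal.ofReal (vd α) * G (Phi α) ∂(Measure.pi fun _ : Fin d => mD ρ) =
      ∫⁻ a, G a ∂((mu ρ d).map Phi) := by
    have hGP : Measurable fun a : Fin d → ℂ => G (Phi a) := hG.comp hm
    rw [lintegral_map hG hm]
    unfold mu
    rw [lintegral_withDensity_eq_lintegral_mul _ meas_vd hGP]
    rfl
  rw [h2, map_Phi hρ, lintegral_smul_measure, smul_eq_mul, ← mul_assoc,
    ENNReal.inv_mul_cancel (by exact_mod_cast d.factorial_ne_zero) (ENNReal.natCast_ne_top _),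
    one_mul, h1]

/-- the change of variables -/
theorem CVF {ρ : ℝ} (hρ : 0 < ρ) {W : Set ((Fin (d + 1) → ℂ) × (Fin (d + 1) → ℂ))}
    (hW : MeasurableSet W)
    (hroots : ∀ x ∈ W, ∀ z : ℂ, (cpoly x.2).eval z = 0 → ‖z‖ ≤ ρ) :
    volume W = ∫⁻ c : ℂ, ∫⁻ p : ℂ, ENNReal.ofReal (‖c‖ ^ (2 * d)) * ((d.factorial : ℝ≥0∞)⁻¹ *
      ∫⁻ α, ENNReal.ofReal (vd α) * HH W c (c • Phi α) p ∂(Measure.pi fun _ : Fin d => mD ρ)) := by
  rw [vol_split hW]
  have hH := meas_HH hW
  refine lintegral_congr_ae ?_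
  have h0 : ∀ᵐ c : ℂ, c ≠ 0 := by
    refine (ae_iff.2 ?_)
    have : {a : ℂ | ¬ a ≠ 0} = {0} := by ext; simp
    rw [this]
    exact measure_singleton 0
  filter_upwards [h0] with c hc
  refine lintegral_congr fun p => ?_
  have hG : Measurable fun b => HH W c b p :=
    hH.comp (measurable_const.prodMk (measurable_id.prodMk measurable_const))
  have hG2 : Measurable fun a : Fin d → ℂ => HH W c (c • a) p :=
    hG.comp (measurable_const_smul c)
  rw [lint_smul hc hG, lint_Phi hρ hG2]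
  intro a ha
  unfold HH
  have : {r : Fin d → ℂ | (ins p r, ins c (c • a)) ∈ W} = ∅ := by
    ext r
    simp only [Set.mem_ofPred_eq, Set.mem_empty_iff_false, iff_false]
    intro h
    apply ha
    intro z hz
    rw [sub_zero]
    apply hroots _ h z
    simp only
    rw [cpoly_ins_smul, eval_mul, hz, mul_zero]
  rw [this, measure_empty]

/-- the values at the nodes -/
noncomputable def yy (α : Fin d → ℂ) (p : ℂ) (r : Fin d → ℂ) : Fin d → ℂ :=
  fun i => (cpoly (ins p r)).eval (α i)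

theorem yy_eq (α : Fin d → ℂ) (p : ℂ) (r : Fin d → ℂ) :
    yy α p r = Matrix.toLin' (Matrix.vandermonde α) r + fun i => p * α i ^ d := by
  funext i
  unfold yy
  rw [cpoly_ins, eval_add, eval_finsetSum]
  simp only [eval_mul, eval_C, eval_pow, eval_X, Pi.add_apply, Matrix.toLin'_apply,
    Matrix.mulVec, dotProduct, Matrix.vandermonde_apply]
  rw [add_comm]
  congr 1
  refine Finset.sum_congr rfl fun k _ => mul_comm _ _

/-- the Vandermonde substitution -/
theorem vol_yy {α : Fin d → ℂ} (hα : vd α ≠ 0) (p : ℂ) (S : Set (Fin d → ℂ)) :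
    ENNReal.ofReal (vd α) * volume {r : Fin d → ℂ | yy α p r ∈ S} = volume S := by
  set f : (Fin d → ℂ) →ₗ[ℝ] (Fin d → ℂ) :=
    (Matrix.toLin' (Matrix.vandermonde α)).restrictScalars ℝ with hf
  have hdet : LinearMap.det f = vd α := by
    rw [hf, LinearMap.det_restrictScalars, LinearMap.det_toLin', Algebra.norm_complex_apply,
      Complex.normSq_eq_norm_sq]
    rfl
  have hvd : 0 ≤ vd α := by unfold vd; positivity
  have hdet0 : LinearMap.det f ≠ 0 := by rw [hdet]; exact hα
  set v : Fin d → ℂ := fun i => p * α i ^ d with hv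
  have h1 : {r : Fin d → ℂ | yy α p r ∈ S} = f ⁻¹' ((fun y => y + v) ⁻¹' S) := by
    ext r
    simp only [Set.mem_ofPred_eq, Set.mem_preimage]
    rw [yy_eq]
    rfl
  rw [h1, Measure.addHaar_preimage_linearMap _ hdet0, measure_preimage_add_right, ← mul_assoc,
    ← ENNReal.ofReal_mul hvd, hdet, abs_of_nonneg (inv_nonneg.2 hvd), mul_inv_cancel₀ hα,
    ENNReal.ofReal_one, one_mul]

end Pool.Agent.Y295.RS
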