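import Mathlib
import Pool.Agent.Y295.RS.CV
import Pool.Agent.W797.CV.ZN

/-!
# Integrability of the reciprocals of the factors
-/

set_option autoImplicit false

open Filter Topology MeasureTheory Set Metric
open scoped ENNReal

namespace Pool.Agent.Y295.RS

open Pool.Agent.W751.CD Pool.Agent.W751.CV

theorem radial {F : ℝ → ℝ≥0∞} (hF : Measurable F) :
    ∫⁻ z : ℂ, F ‖z‖ = (∫⁻ r in Ioi (0 : ℝ), ENNReal.ofReal r * F r) * ENNReal.ofReal (2 * Real.pi) := by
  rw [← Complex.lintegral_comp_polarCoord_symm]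
  have e1 : ∫⁻ p in polarCoord.target, ENNReal.ofReal p.1 • F ‖Complex.polarCoord.symm p‖ =
      ∫⁻ p in (Ioi (0 : ℝ)) ×ˢ (Ioo (-Real.pi) Real.pi), ENNReal.ofReal p.1 * F p.1 := by
    rw [polarCoord_target]
    refine setLIntegral_congr_fun (measurableSet_Ioi.prod measurableSet_Ioo) ?_
    rintro ⟨r, θ⟩ ⟨hr, -⟩
    simp only [mem_Ioi] at hr
    simp only
    rw [Complex.norm_polarCoord_symm, abs_of_pos hr, smul_eq_mul]
  have hm : Measurable fun r : ℝ => ENNReal.ofReal r * F r := ENNReal.measurable_ofReal.mul hF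
  have hm2 : Measurable fun p : ℝ × ℝ => ENNReal.ofReal p.1 * F p.1 := hm.comp measurable_fst
  rw [e1, Measure.volume_eq_prod, setLIntegral_prod _ hm2.aemeasurable]
  simp only [lintegral_const, Measure.restrict_apply MeasurableSet.univ, univ_inter,
    Real.volume_Ioo]
  rw [lintegral_mul_const _ hm]
  congr 2
  ring

/-- the reciprocal of the distance is integrable on the unit disc -/
theorem int_unit : ∫⁻ z in {z : ℂ | ‖z‖ ≤ 1}, (ENNReal.ofReal ‖z‖)⁻¹ ≤ ENNReal.ofReal (2 * Real.pi) := by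
  have hS : MeasurableSet {z : ℂ | ‖z‖ ≤ 1} := measurableSet_le measurable_norm measurable_const
  have hF : Measurable ((Iic (1 : ℝ)).indicator fun r => (ENNReal.ofReal r)⁻¹) :=
    (ENNReal.measurable_ofReal.inv).indicator measurableSet_Iic
  rw [← lintegral_indicator hS]
  have e1 : ∀ z : ℂ, {z : ℂ | ‖z‖ ≤ 1}.indicator (fun z => (ENNReal.ofReal ‖z‖)⁻¹) z =
      ((Iic (1 : ℝ)).indicator fun r => (ENNReal.ofReal r)⁻¹) ‖z‖ := by
    intro z
    by_cases h : ‖z‖ ≤ 1
    · rw [indicator_of_mem (by exact h), indicator_of_mem (by exact h)]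
    · rw [indicator_of_notMem (by exact h), indicator_of_notMem (by exact h)]
  simp only [e1]
  rw [radial hF]
  have h2 : ∫⁻ r in Ioi (0 : ℝ), ENNReal.ofReal r *
      ((Iic (1 : ℝ)).indicator fun r => (ENNReal.ofReal r)⁻¹) r ≤ 1 := by
    calc ∫⁻ r in Ioi (0 : ℝ), ENNReal.ofReal r *
          ((Iic (1 : ℝ)).indicator fun r => (ENNReal.ofReal r)⁻¹) r
        ≤ ∫⁻ r in Ioi (0 : ℝ), (Iic (1 : ℝ)).indicator (fun _ => 1) r := by
          refine setLIntegral_mono' measurableSet_Ioi fun r hr => ?_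
          by_cases h : r ∈ Iic (1 : ℝ)
          · rw [indicator_of_mem h, indicator_of_mem h]
            exact ENNReal.mul_inv_le_one _
          · rw [indicator_of_notMem h, indicator_of_notMem h, mul_zero]
      _ = 1 := by
          rw [lintegral_indicator measurableSet_Iic, setLIntegral_const,
            Measure.restrict_apply measurableSet_Iic, one_mul]
          have : Iic (1 : ℝ) ∩ Ioi 0 = Ioc 0 1 := by ext; simp [and_comm]
          rw [this, Real.volume_Ioc]
          simp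
  calc _ ≤ 1 * ENNReal.ofReal (2 * Real.pi) := by gcongr
    _ = _ := one_mul _

/-- the bound -/
noncomputable def JJ (ρ : ℝ) : ℝ≥0∞ := ENNReal.ofReal (2 * Real.pi) + mD ρ univ

theorem JJ_lt (ρ : ℝ) : JJ ρ < ⊤ := by
  unfold JJ
  have := Pool.Agent.W797.CV.mD_finite ρ
  exact ENNReal.add_lt_top.2 ⟨ENNReal.ofReal_lt_top, measure_lt_top _ _⟩

theorem int_shift (ρ : ℝ) (w : ℂ) : ∫⁻ z, (ENNReal.ofReal ‖z - w‖)⁻¹ ∂(mD ρ) ≤ JJ ρ := by
  have h1 : ∀ z : ℂ, (ENNReal.ofReal ‖z - w‖)⁻¹ ≤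
      {z : ℂ | ‖z - w‖ ≤ 1}.indicator (fun z => (ENNReal.ofReal ‖z - w‖)⁻¹) z + 1 := by
    intro z
    by_cases h : ‖z - w‖ ≤ 1
    · rw [indicator_of_mem (by exact h)]
      exact le_self_add
    · rw [indicator_of_notMem (by exact h), zero_add, ENNReal.inv_le_one]
      push Not at h
      rw [← ENNReal.ofReal_one]
      exact ENNReal.ofReal_le_ofReal h.le
  have hm : MeasurableSet {z : ℂ | ‖z - w‖ ≤ 1} :=
    measurableSet_le (measurable_norm.comp (measurable_id.sub_const w)) measurable_const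
  calc ∫⁻ z, (ENNReal.ofReal ‖z - w‖)⁻¹ ∂(mD ρ)
      ≤ ∫⁻ z, ({z : ℂ | ‖z - w‖ ≤ 1}.indicator (fun z => (ENNReal.ofReal ‖z - w‖)⁻¹) z + 1)
        ∂(mD ρ) := lintegral_mono h1
    _ = (∫⁻ z, {z : ℂ | ‖z - w‖ ≤ 1}.indicator (fun z => (ENNReal.ofReal ‖z - w‖)⁻¹) z ∂(mD ρ)) +
        mD ρ univ := by
        rw [lintegral_add_right _ measurable_const, lintegral_const, one_mul]
    _ ≤ (∫⁻ z, {z : ℂ | ‖z - w‖ ≤ 1}.indicator (fun z => (ENNReal.ofReal ‖z - w‖)⁻¹) z) +
        mD ρ univ := by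
        refine add_le_add (lintegral_mono' ?_ le_rfl) le_rfl
        exact Measure.restrict_le_self
    _ ≤ JJ ρ := by
        unfold JJ
        refine add_le_add ?_ le_rfl
        have h2 := lintegral_sub_right_eq_self (μ := (volume : Measure ℂ))
          (fun z : ℂ => {z : ℂ | ‖z‖ ≤ 1}.indicator (fun z => (ENNReal.ofReal ‖z‖)⁻¹) z) w
        have h3 : ∀ z : ℂ, {z : ℂ | ‖z - w‖ ≤ 1}.indicator (fun z => (ENNReal.ofReal ‖z - w‖)⁻¹) z =
            {z : ℂ | ‖z‖ ≤ 1}.indicator (fun z => (ENNReal.ofReal ‖z‖)⁻¹) (z - w) := by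
          intro z
          by_cases h : ‖z - w‖ ≤ 1
          · rw [indicator_of_mem (by exact h), indicator_of_mem (by exact h)]
          · rw [indicator_of_notMem (by exact h), indicator_of_notMem (by exact h)]
        simp only [h3]
        rw [h2, lintegral_indicator (measurableSet_le measurable_norm measurable_const)]
        exact int_unit

/-- indices of the factors -/
abbrev Idx (d : ℕ) : Type := Bool ⊕ (Fin d × Fin d) ⊕ Fin d

/-- the factors -/
noncomputable def ff {d : ℕ} (c p : ℂ) (α : Fin d → ℂ) : Idx d → ℝ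
  | Sum.inl true => ‖c‖
  | Sum.inl false => ‖p‖
  | Sum.inr (Sum.inl (i, k)) => if i = k then 1 else ‖α i - α k‖
  | Sum.inr (Sum.inr i) => ‖c - p * α i‖

/-- the measure on the parameters -/
noncomputable def PP (C0 ρ : ℝ) (d : ℕ) : Measure (ℂ × ℂ × (Fin d → ℂ)) :=
  (mD C0).prod ((mD C0).prod (Measure.pi fun _ : Fin d => mD ρ))

theorem cont_ff {d : ℕ} (t : Idx d) :
    Continuous fun u : ℂ × ℂ × (Fin d → ℂ) => ff u.1 u.2.1 u.2.2 t := by
  rcases t with t | t | t
  · cases t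
    · exact continuous_norm.comp (continuous_fst.comp continuous_snd)
    · exact continuous_norm.comp continuous_fst
  · obtain ⟨i, k⟩ := t
    show Continuous fun u : ℂ × ℂ × (Fin d → ℂ) => if i = k then (1 : ℝ) else ‖u.2.2 i - u.2.2 k‖
    split_ifs
    · exact continuous_const
    · fun_prop
  · show Continuous fun u : ℂ × ℂ × (Fin d → ℂ) => ‖u.1 - u.2.1 * u.2.2 t‖
    fun_prop

theorem meas_ffi {d : ℕ} (t : Idx d) :
    Measurable fun u : ℂ × ℂ × (Fin d → ℂ) => (ENNReal.ofReal (ff u.1 u.2.1 u.2.2 t))⁻¹ :=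
  (ENNReal.measurable_ofReal.comp (cont_ff t).measurable).inv

/-- integral of the reciprocal of a difference -/
theorem int_diff {n : ℕ} {ρ : ℝ} {i k : Fin (n + 1)} (hik : i ≠ k) :
    ∫⁻ α, (ENNReal.ofReal ‖α i - α k‖)⁻¹ ∂(Measure.pi fun _ : Fin (n + 1) => mD ρ) ≤
      JJ ρ * (Measure.pi fun _ : Fin n => mD ρ) univ := by
  have hfin : ∀ ρ, IsFiniteMeasure (mD ρ) := Pool.Agent.W797.CV.mD_finite
  have := hfin ρ
  have hmp := (measurePreserving_piFinSuccAbove (fun _ : Fin (n + 1) => mD ρ) i).symm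
  have hm : Measurable fun α : Fin (n + 1) → ℂ => (ENNReal.ofReal ‖α i - α k‖)⁻¹ := by
    refine (ENNReal.measurable_ofReal.comp (Continuous.measurable ?_)).inv
    fun_prop
  rw [← hmp.lintegral_comp hm, lintegral_prod_symm]
  · obtain ⟨k', hk'⟩ := Fin.exists_succAbove_eq hik.symm
    calc _ ≤ ∫⁻ _w : Fin n → ℂ, JJ ρ ∂(Measure.pi fun _ : Fin n => mD ρ) := by
          refine lintegral_mono fun w => ?_
          refine le_trans (le_of_eq ?_) (int_shift ρ (w k'))
          refine lintegral_congr fun z => ?_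
          have e1 : (MeasurableEquiv.piFinSuccAbove (fun _ : Fin (n + 1) => ℂ) i).symm (z, w) i = z :=
            Fin.insertNth_apply_same (α := fun _ => ℂ) i z w
          have e2 : (MeasurableEquiv.piFinSuccAbove (fun _ : Fin (n + 1) => ℂ) i).symm (z, w) k = w k' := by
            rw [← hk']
            exact Fin.insertNth_apply_succAbove (α := fun _ => ℂ) i z w k'
          rw [e1, e2]
      _ = _ := by rw [lintegral_const]
  · exact (hm.comp hmp.measurable).aemeasurable

theorem int_ff {n : ℕ} (C0 ρ : ℝ) (t : Idx (n + 1)) :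
    ∫⁻ u, (ENNReal.ofReal (ff u.1 u.2.1 u.2.2 t))⁻¹ ∂(PP C0 ρ (n + 1)) < ⊤ := by
  have hfin : ∀ ρ, IsFiniteMeasure (mD ρ) := Pool.Agent.W797.CV.mD_finite
  have h1 := hfin C0
  have h2 := hfin ρ
  have hm := meas_ffi t
  unfold PP
  have hJ0 : ∀ ρ, ∫⁻ z, (ENNReal.ofReal ‖z‖)⁻¹ ∂(mD ρ) ≤ JJ ρ := by
    intro ρ
    have := int_shift ρ 0
    simpa using this
  rcases t with t | t | t
  · cases t
    · -- `p`
      rw [lintegral_prod _ hm.aemeasurable]
      have : ∀ c : ℂ, ∫⁻ v, (ENNReal.ofReal (ff c v.1 v.2 (Sum.inl false : Idx (n + 1))))⁻¹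
          ∂((mD C0).prod (Measure.pi fun _ : Fin (n + 1) => mD ρ)) ≤
          JJ C0 * (Measure.pi fun _ : Fin (n + 1) => mD ρ) univ := by
        intro c
        rw [lintegral_prod_symm]
        · calc _ ≤ ∫⁻ _w : Fin (n + 1) → ℂ, JJ C0 ∂(Measure.pi fun _ : Fin (n + 1) => mD ρ) :=
                lintegral_mono fun w => hJ0 C0
            _ = _ := by rw [lintegral_const]
        · exact (hm.comp (measurable_const.prodMk measurable_id)).aemeasurable
      refine lt_of_le_of_lt (lintegral_mono this) ?_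
      rw [lintegral_const]
      exact ENNReal.mul_lt_top (ENNReal.mul_lt_top (JJ_lt C0) (measure_lt_top _ _)) (measure_lt_top _ _)
    · -- `c`
      rw [lintegral_prod_symm _ hm.aemeasurable]
      have : ∀ v : ℂ × (Fin (n + 1) → ℂ), ∫⁻ c, (ENNReal.ofReal (ff c v.1 v.2
          (Sum.inl true : Idx (n + 1))))⁻¹ ∂(mD C0) ≤ JJ C0 := fun v => hJ0 C0
      refine lt_of_le_of_lt (lintegral_mono this) ?_
      rw [lintegral_const]
      exact ENNReal.mul_lt_top (JJ_lt C0) (measure_lt_top _ _)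
  · obtain ⟨i, k⟩ := t
    by_cases hik : i = k
    · have : ∀ u : ℂ × ℂ × (Fin (n + 1) → ℂ), (ENNReal.ofReal (ff u.1 u.2.1 u.2.2
          (Sum.inr (Sum.inl (i, k)) : Idx (n + 1))))⁻¹ ≤ 1 := by
        intro u
        have : ff u.1 u.2.1 u.2.2 (Sum.inr (Sum.inl (i, k)) : Idx (n + 1)) = 1 := by
          show (if i = k then (1 : ℝ) else _) = 1
          rw [if_pos hik]
        rw [this]
        simp
      refine lt_of_le_of_lt (lintegral_mono this) ?_
      rw [lintegral_const, one_mul]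
      exact measure_lt_top _ _
    · rw [lintegral_prod _ hm.aemeasurable]
      have : ∀ c : ℂ, ∫⁻ v, (ENNReal.ofReal (ff c v.1 v.2 (Sum.inr (Sum.inl (i, k)) : Idx (n + 1))))⁻¹
          ∂((mD C0).prod (Measure.pi fun _ : Fin (n + 1) => mD ρ)) ≤
          (JJ ρ * (Measure.pi fun _ : Fin n => mD ρ) univ) * mD C0 univ := by
        intro c
        rw [lintegral_prod]
        · calc _ ≤ ∫⁻ _p : ℂ, (JJ ρ * (Measure.pi fun _ : Fin n => mD ρ) univ) ∂(mD C0) := by
                refine lintegral_mono fun p => ?_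
                refine le_trans (le_of_eq ?_) (int_diff (ρ := ρ) hik)
                refine lintegral_congr fun α => ?_
                show (ENNReal.ofReal (if i = k then (1 : ℝ) else ‖α i - α k‖))⁻¹ = _
                rw [if_neg hik]
            _ = _ := by rw [lintegral_const]
        · exact (hm.comp (measurable_const.prodMk measurable_id)).aemeasurable
      refine lt_of_le_of_lt (lintegral_mono this) ?_
      rw [lintegral_const]
      exact ENNReal.mul_lt_top (ENNReal.mul_lt_top (ENNReal.mul_lt_top (JJ_lt ρ)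
        (measure_lt_top _ _)) (measure_lt_top _ _)) (measure_lt_top _ _)
  · rw [lintegral_prod_symm _ hm.aemeasurable]
    have : ∀ v : ℂ × (Fin (n + 1) → ℂ), ∫⁻ c, (ENNReal.ofReal (ff c v.1 v.2
        (Sum.inr (Sum.inr t) : Idx (n + 1))))⁻¹ ∂(mD C0) ≤ JJ C0 := fun v => int_shift C0 _
    refine lt_of_le_of_lt (lintegral_mono this) ?_
    rw [lintegral_const]
    exact ENNReal.mul_lt_top (JJ_lt C0) (measure_lt_top _ _)

/-- the majorant -/
noncomputable def Lam {d : ℕ} (c p : ℂ) (α : Fin d → ℂ) : ℝ≥0∞ :=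
  1 + ∑ t, (ENNReal.ofReal (ff c p α t))⁻¹

theorem meas_Lam {d : ℕ} : Measurable fun u : ℂ × ℂ × (Fin d → ℂ) => Lam u.1 u.2.1 u.2.2 :=
  measurable_const.add (Finset.measurable_sum _ fun t _ => meas_ffi t)

theorem int_Lam {n : ℕ} (C0 ρ : ℝ) : ∫⁻ u, Lam u.1 u.2.1 u.2.2 ∂(PP C0 ρ (n + 1)) < ⊤ := by
  have hfin : ∀ ρ, IsFiniteMeasure (mD ρ) := Pool.Agent.W797.CV.mD_finite
  have h1 := hfin C0
  have h2 := hfin ρ
  have h3 : IsFiniteMeasure (PP C0 ρ (n + 1)) := by unfold PP; infer_instance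
  unfold Lam
  rw [lintegral_add_left measurable_const, lintegral_finsetSum _ fun t _ => meas_ffi t,
    lintegral_const, one_mul]
  refine ENNReal.add_lt_top.2 ⟨measure_lt_top _ _, ?_⟩
  exact ENNReal.sum_lt_top.2 fun t _ => int_ff C0 ρ t

end Pool.Agent.Y295.RS
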