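import Mathlib
import Pool.Agent.Y295.RS.Int

/-!
# Upper bound for the volume of the bad set in the chart
-/

set_option autoImplicit false

open Polynomial Filter Topology MeasureTheory Set Metric
open scoped ENNReal

namespace Pool.Agent.Y295.RS

open Pool.Agent.W751.CD Pool.Agent.W751.CV

variable {d : ℕ}

/-- bound for all the factors -/
noncomputable def C1 (C0 : ℝ) : ℝ := 3 * C0 + 4

/-- normalised product of the factors -/
noncomputable def Dlt (C0 : ℝ) (c p : ℂ) (α : Fin d → ℂ) : ℝ := ∏ t, ff c p α t / C1 C0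

/-- the threshold -/
noncomputable def tau (C0 : ℝ) (c p : ℂ) (α : Fin d → ℂ) : ℝ :=
  Dlt C0 c p α ^ (d + 4) / (128 * d * C0 ^ 4)

theorem ff_nonneg (c p : ℂ) (α : Fin d → ℂ) (t : Idx d) : 0 ≤ ff c p α t := by
  rcases t with t | ⟨i, k⟩ | t
  · cases t <;> exact norm_nonneg _
  · show 0 ≤ (if i = k then (1 : ℝ) else ‖α i - α k‖)
    split_ifs <;> positivity
  · exact norm_nonneg _

theorem C1_pos {C0 : ℝ} (hC0 : 1 ≤ C0) : 1 ≤ C1 C0 := by unfold C1; linarith

theorem ff_le {C0 : ℝ} (hC0 : 1 ≤ C0) {c p : ℂ} {α : Fin d → ℂ} (hc : ‖c‖ ≤ C0) (hp : ‖p‖ ≤ C0)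
    (hα : ∀ i, ‖α i‖ ≤ 2) (t : Idx d) : ff c p α t ≤ C1 C0 := by
  unfold C1
  rcases t with t | ⟨i, k⟩ | t
  · cases t
    · show ‖p‖ ≤ _; linarith
    · show ‖c‖ ≤ _; linarith
  · show (if i = k then (1 : ℝ) else ‖α i - α k‖) ≤ _
    split_ifs
    · linarith
    · have := norm_sub_le (α i) (α k)
      linarith [hα i, hα k]
  · show ‖c - p * α t‖ ≤ _
    have h1 := norm_sub_le c (p * α t)
    rw [norm_mul] at h1
    have h2 : ‖p‖ * ‖α t‖ ≤ C0 * 2 := mul_le_mul hp (hα t) (norm_nonneg _) (by linarith)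
    linarith

theorem Dlt_nonneg {C0 : ℝ} (hC0 : 1 ≤ C0) (c p : ℂ) (α : Fin d → ℂ) : 0 ≤ Dlt C0 c p α :=
  Finset.prod_nonneg fun t _ => div_nonneg (ff_nonneg c p α t) (by linarith [C1_pos hC0])

theorem Dlt_le_one {C0 : ℝ} (hC0 : 1 ≤ C0) {c p : ℂ} {α : Fin d → ℂ} (hc : ‖c‖ ≤ C0)
    (hp : ‖p‖ ≤ C0) (hα : ∀ i, ‖α i‖ ≤ 2) : Dlt C0 c p α ≤ 1 := by
  have hC := C1_pos hC0
  refine Finset.prod_le_one (fun t _ => div_nonneg (ff_nonneg c p α t) (by linarith)) fun t _ => ?_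
  rw [div_le_one (by linarith)]
  exact ff_le hC0 hc hp hα t

theorem Dlt_le {C0 : ℝ} (hC0 : 1 ≤ C0) {c p : ℂ} {α : Fin d → ℂ} (hc : ‖c‖ ≤ C0)
    (hp : ‖p‖ ≤ C0) (hα : ∀ i, ‖α i‖ ≤ 2) (t : Idx d) : Dlt C0 c p α ≤ ff c p α t := by
  classical
  have hC := C1_pos hC0
  have h1 : Dlt C0 c p α ≤ ff c p α t / C1 C0 := by
    unfold Dlt
    rw [← Finset.mul_prod_erase _ _ (Finset.mem_univ t)]
    refine mul_le_of_le_one_right (div_nonneg (ff_nonneg c p α t) (by linarith)) ?_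
    refine Finset.prod_le_one (fun t _ => div_nonneg (ff_nonneg c p α t) (by linarith))
      fun t _ => ?_
    rw [div_le_one (by linarith)]
    exact ff_le hC0 hc hp hα t
  exact h1.trans (div_le_self (ff_nonneg c p α t) hC)

theorem cont_ff' {X : Type*} [TopologicalSpace X] {c p : X → ℂ} {α : X → Fin d → ℂ}
    (hc : Continuous c) (hp : Continuous p) (hα : Continuous α) (t : Idx d) :
    Continuous fun u => ff (c u) (p u) (α u) t := by
  rcases t with t | t | t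
  · cases t
    · exact hp.norm
    · exact hc.norm
  · obtain ⟨i, k⟩ := t
    show Continuous fun u => if i = k then (1 : ℝ) else ‖α u i - α u k‖
    split_ifs
    · exact continuous_const
    · exact (((continuous_apply i).comp hα).sub ((continuous_apply k).comp hα)).norm
  · show Continuous fun u => ‖c u - p u * α u t‖
    exact (hc.sub (hp.mul ((continuous_apply t).comp hα))).norm

theorem cont_tau {X : Type*} [TopologicalSpace X] (C0 : ℝ) {c p : X → ℂ} {α : X → Fin d → ℂ}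
    (hc : Continuous c) (hp : Continuous p) (hα : Continuous α) :
    Continuous fun u => tau C0 (c u) (p u) (α u) := by
  unfold tau Dlt
  exact ((continuous_finsetProd _ fun t _ => (cont_ff' hc hp hα t).div_const _).pow _).div_const _

/-- the logarithm of the threshold against the majorant -/
theorem log_tau {C0 R : ℝ} (hd : 1 ≤ d) (hC0 : 1 ≤ C0) (hR : 1 ≤ R) :
    ∃ K3 : ℝ, 0 < K3 ∧ ∀ (c p : ℂ) (α : Fin d → ℂ), ‖c‖ ≤ C0 → ‖p‖ ≤ C0 → (∀ i, ‖α i‖ ≤ 2) →
      0 < Dlt C0 c p α → ENNReal.ofReal (Real.log (R / tau C0 c p α)) ≤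
        ENNReal.ofReal K3 * Lam c p α := by
  have hC := C1_pos hC0
  have hdR : (1 : ℝ) ≤ d := by exact_mod_cast hd
  obtain ⟨κ, hκ⟩ : ∃ κ : ℝ, κ = 1 / (128 * d * C0 ^ 4) := ⟨_, rfl⟩
  have hκ0 : 0 < κ := by rw [hκ]; positivity
  obtain ⟨K, hK⟩ : ∃ K : ℝ, K = max (Real.log (R / κ)) ((d + 4) * C1 C0) := ⟨_, rfl⟩
  have hK0 : 0 < K := by
    rw [hK]
    exact lt_max_of_lt_right (by positivity)
  refine ⟨K, hK0, fun c p α hc hp hα hD => ?_⟩
  have hf : ∀ t, 0 < ff c p α t := fun t => hD.trans_le (Dlt_le hC0 hc hp hα t)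
  have h1 : Real.log (R / tau C0 c p α) = Real.log (R / κ) +
      (d + 4) * ∑ t, Real.log (C1 C0 / ff c p α t) := by
    have e1 : R / tau C0 c p α = R / κ * (1 / Dlt C0 c p α) ^ (d + 4) := by
      unfold tau
      have hDn : Dlt C0 c p α ^ (d + 4) ≠ 0 := (pow_pos hD _).ne'
      rw [hκ, one_div_pow]
      field_simp
    have e2 : (1 / Dlt C0 c p α) = ∏ t, (C1 C0 / ff c p α t) := by
      unfold Dlt
      rw [one_div, ← Finset.prod_inv_distrib]
      exact Finset.prod_congr rfl fun t _ => inv_div _ _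
    rw [e1, Real.log_mul (by positivity) (by positivity), Real.log_pow, e2,
      Real.log_prod (fun t _ => (div_pos (by linarith) (hf t)).ne')]
    push_cast
    ring
  have h2 : Real.log (R / tau C0 c p α) ≤ K * (1 + ∑ t, (ff c p α t)⁻¹) := by
    rw [h1, mul_add, mul_one]
    refine add_le_add (by rw [hK]; exact le_max_left _ _) ?_
    calc (d + 4) * ∑ t, Real.log (C1 C0 / ff c p α t)
        ≤ (d + 4) * ∑ t, C1 C0 * (ff c p α t)⁻¹ := by
          refine mul_le_mul_of_nonneg_left (Finset.sum_le_sum fun t _ => ?_) (by positivity)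
          rw [← div_eq_mul_inv]
          exact Real.log_le_self (div_nonneg (by linarith) (hf t).le)
      _ = (d + 4) * C1 C0 * ∑ t, (ff c p α t)⁻¹ := by rw [← Finset.mul_sum]; ring
      _ ≤ K * ∑ t, (ff c p α t)⁻¹ := by
          refine mul_le_mul_of_nonneg_right (by rw [hK]; exact le_max_right _ _) ?_
          exact Finset.sum_nonneg fun t _ => inv_nonneg.2 (hf t).le
  refine (ENNReal.ofReal_le_ofReal h2).trans (le_of_eq ?_)
  rw [ENNReal.ofReal_mul hK0.le, ENNReal.ofReal_add zero_le_one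
    (Finset.sum_nonneg fun t _ => inv_nonneg.2 (hf t).le), ENNReal.ofReal_one,
    ENNReal.ofReal_sum_of_nonneg fun t _ => inv_nonneg.2 (hf t).le]
  unfold Lam
  congr 2
  exact Finset.sum_congr rfl fun t _ => ENNReal.ofReal_inv_of_pos (hf t)

theorem Lam_top {C0 : ℝ} (hC0 : 1 ≤ C0) {c p : ℂ} {α : Fin d → ℂ} (hD : Dlt C0 c p α = 0) :
    Lam c p α = ⊤ := by
  have hC := C1_pos hC0
  unfold Dlt at hD
  obtain ⟨t, -, ht⟩ := Finset.prod_eq_zero_iff.1 hD
  have ht' : ff c p α t = 0 := by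
    rcases div_eq_zero_iff.1 ht with h | h
    · exact h
    · linarith
  unfold Lam
  rw [ENNReal.add_eq_top]
  right
  rw [ENNReal.sum_eq_top]
  exact ⟨t, Finset.mem_univ t, by rw [ht']; simp⟩

/-! ### the sets -/

/-- the roots of the denominator are in the disc of radius two -/
def RI (d : ℕ) : Set ((Fin (d + 1) → ℂ) × (Fin (d + 1) → ℂ)) :=
  {x | ∃ α : Fin d → ℂ, (∀ i, ‖α i‖ ≤ 2) ∧
    ∀ k : Fin d, x.2 k.castSucc = x.2 (Fin.last d) * Phi α k}

/-- the good pairs -/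
def GG (d : ℕ) (C0 : ℝ) : Set ((Fin (d + 1) → ℂ) × (Fin (d + 1) → ℂ)) :=
  {x | ∃ α : Fin d → ℂ, (∀ i, ‖α i‖ ≤ 2) ∧
    (∀ k : Fin d, x.2 k.castSucc = x.2 (Fin.last d) * Phi α k) ∧
    ∀ i, ‖(cpoly x.1).eval (α i)‖ ≤ tau C0 (x.2 (Fin.last d)) (x.1 (Fin.last d)) α}

theorem closed_of_compact {X Y : Type*} [TopologicalSpace X] [TopologicalSpace Y] {K : Set Y}
    (hK : IsCompact K) {S : Set (X × Y)} (hS : IsClosed S) : IsClosed {x | ∃ y ∈ K, (x, y) ∈ S} := by
  have : CompactSpace K := isCompact_iff_compactSpace.1 hK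
  have h1 : IsClosed {z : X × K | (z.1, (z.2 : Y)) ∈ S} :=
    hS.preimage (continuous_fst.prodMk (continuous_subtype_val.comp continuous_snd))
  have h2 := isClosedMap_fst_of_compactSpace (X := X) (Y := K) _ h1
  convert h2 using 1
  ext x
  constructor
  · rintro ⟨y, hy, h⟩
    exact ⟨(x, ⟨y, hy⟩), h, rfl⟩
  · rintro ⟨⟨x', y⟩, h, rfl⟩
    exact ⟨y, y.2, h⟩

theorem box_compact (d : ℕ) : IsCompact {α : Fin d → ℂ | ∀ i, ‖α i‖ ≤ 2} := by
  have : {α : Fin d → ℂ | ∀ i, ‖α i‖ ≤ 2} = closedBall 0 2 := by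
    ext α
    rw [mem_closedBall_zero_iff, pi_norm_le_iff_of_nonneg (by norm_num)]
    rfl
  rw [this]
  exact isCompact_closedBall _ _

theorem cont_node : Continuous fun u : ((Fin (d + 1) → ℂ) × (Fin (d + 1) → ℂ)) × (Fin d → ℂ) =>
    fun k : Fin d => u.1.2 (Fin.last d) * Phi u.2 k := by
  refine continuous_pi fun k => ?_
  refine ((continuous_apply _).comp (continuous_snd.comp continuous_fst)).mul ?_
  exact (continuous_apply k).comp ((Pool.Agent.W641.RV.cont_Phi d).comp continuous_snd)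

theorem closed_nodes : IsClosed {u : ((Fin (d + 1) → ℂ) × (Fin (d + 1) → ℂ)) × (Fin d → ℂ) |
    ∀ k : Fin d, u.1.2 k.castSucc = u.1.2 (Fin.last d) * Phi u.2 k} := by
  have : {u : ((Fin (d + 1) → ℂ) × (Fin (d + 1) → ℂ)) × (Fin d → ℂ) |
      ∀ k : Fin d, u.1.2 k.castSucc = u.1.2 (Fin.last d) * Phi u.2 k} =
      ⋂ k : Fin d, {u | u.1.2 k.castSucc = u.1.2 (Fin.last d) * Phi u.2 k} := by
    ext; simp
  rw [this]
  refine isClosed_iInter fun k => isClosed_eq ?_ ?_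
  · exact (continuous_apply _).comp (continuous_snd.comp continuous_fst)
  · exact (continuous_apply k).comp cont_node

theorem closed_RI : IsClosed (RI d) := by
  exact closed_of_compact (box_compact d) (closed_nodes (d := d))

theorem cont_evals (i : Fin d) :
    Continuous fun u : ((Fin (d + 1) → ℂ) × (Fin (d + 1) → ℂ)) × (Fin d → ℂ) =>
      (cpoly u.1.1).eval (u.2 i) := by
  simp only [cpoly_eval]
  fun_prop

theorem closed_GG (C0 : ℝ) : IsClosed (GG d C0) := by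
  have h1 : IsClosed {u : ((Fin (d + 1) → ℂ) × (Fin (d + 1) → ℂ)) × (Fin d → ℂ) |
      ∀ i, ‖(cpoly u.1.1).eval (u.2 i)‖ ≤
        tau C0 (u.1.2 (Fin.last d)) (u.1.1 (Fin.last d)) u.2} := by
    have : {u : ((Fin (d + 1) → ℂ) × (Fin (d + 1) → ℂ)) × (Fin d → ℂ) |
      ∀ i, ‖(cpoly u.1.1).eval (u.2 i)‖ ≤
        tau C0 (u.1.2 (Fin.last d)) (u.1.1 (Fin.last d)) u.2} =
        ⋂ i, {u | ‖(cpoly u.1.1).eval (u.2 i)‖ ≤
        tau C0 (u.1.2 (Fin.last d)) (u.1.1 (Fin.last d)) u.2} := by ext; simp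
    rw [this]
    have h2 : Continuous fun u : ((Fin (d + 1) → ℂ) × (Fin (d + 1) → ℂ)) × (Fin d → ℂ) =>
        u.1.2 (Fin.last d) := (continuous_apply _).comp (continuous_snd.comp continuous_fst)
    have h3 : Continuous fun u : ((Fin (d + 1) → ℂ) × (Fin (d + 1) → ℂ)) × (Fin d → ℂ) =>
        u.1.1 (Fin.last d) := (continuous_apply _).comp (continuous_fst.comp continuous_fst)
    have htau : Continuous fun u : ((Fin (d + 1) → ℂ) × (Fin (d + 1) → ℂ)) × (Fin d → ℂ) =>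
        tau C0 (u.1.2 (Fin.last d)) (u.1.1 (Fin.last d)) u.2 := cont_tau C0 h2 h3 continuous_snd
    exact isClosed_iInter fun i => isClosed_le (cont_evals i).norm htau
  exact closed_of_compact (box_compact d) ((closed_nodes (d := d)).inter h1)

theorem cont_res : Continuous fun x : (Fin (d + 1) → ℂ) × (Fin (d + 1) → ℂ) => res x := by
  unfold res resultant
  refine Continuous.matrix_det ?_
  refine continuous_matrix fun i j => ?_
  unfold sylvester
  simp only [Matrix.of_apply]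
  have hc : ∀ (m : ℕ) (g : ((Fin (d + 1) → ℂ) × (Fin (d + 1) → ℂ)) → (Fin (d + 1) → ℂ)),
      Continuous g → Continuous fun x => (cpoly (g x)).coeff m := by
    intro m g hg
    unfold cpoly
    simp only [finsetSum_coeff, coeff_C_mul]
    refine continuous_finsetSum _ fun k _ => ?_
    exact ((continuous_apply k).comp hg).mul continuous_const
  refine Fin.addCases (fun j₁ => ?_) (fun j₁ => ?_) j
  · simp only [Fin.addCases_left]
    split_ifs
    · exact hc _ _ continuous_snd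
    · exact continuous_const
  · simp only [Fin.addCases_right]
    split_ifs
    · exact hc _ _ continuous_fst
    · exact continuous_const

/-- the bad set in the chart -/
def WW (d : ℕ) (C0 ε : ℝ) : Set ((Fin (d + 1) → ℂ) × (Fin (d + 1) → ℂ)) :=
  {x | ‖x‖ ≤ C0 ∧ x.2 (Fin.last d) ≠ 0 ∧ x ∈ RI d ∧ ‖res x‖ ≤ ε ∧ (x ∉ GG d C0 ∨ res x = 0)}

theorem meas_WW (C0 ε : ℝ) : MeasurableSet (WW d C0 ε) := by
  refine (measurableSet_le measurable_norm measurable_const).inter ?_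
  refine MeasurableSet.inter ?_ (closed_RI.measurableSet.inter ?_)
  · have : Measurable fun x : (Fin (d + 1) → ℂ) × (Fin (d + 1) → ℂ) => x.2 (Fin.last d) :=
      (measurable_pi_apply _).comp measurable_snd
    exact (measurableSet_eq_fun this measurable_const).compl
  · refine (measurableSet_le cont_res.measurable.norm measurable_const).inter ?_
    exact (closed_GG C0).measurableSet.compl.union (measurableSet_eq_fun cont_res.measurable
      measurable_const)

/-- a pair with given roots -/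
theorem ext_ins {x : (Fin (d + 1) → ℂ)} {α : Fin d → ℂ}
    (h : ∀ k : Fin d, x k.castSucc = x (Fin.last d) * Phi α k) :
    x = ins (x (Fin.last d)) (x (Fin.last d) • Phi α) := by
  funext k
  refine Fin.lastCases ?_ (fun k => ?_) k
  · rw [ins_last]
  · rw [ins_castSucc, h k]
    rfl

theorem cpoly_of_roots {x : (Fin (d + 1) → ℂ)} {α : Fin d → ℂ}
    (h : ∀ k : Fin d, x k.castSucc = x (Fin.last d) * Phi α k) :
    cpoly x = C (x (Fin.last d)) * ∏ i, (X - C (α i)) := by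
  conv_lhs => rw [ext_ins h]
  exact cpoly_ins_Phi _ _

theorem roots_bound {x : (Fin (d + 1) → ℂ) × (Fin (d + 1) → ℂ)} (hx : x ∈ RI d)
    (hc : x.2 (Fin.last d) ≠ 0) {z : ℂ} (hz : (cpoly x.2).eval z = 0) : ‖z‖ ≤ 2 := by
  obtain ⟨α, hα, h⟩ := hx
  rw [cpoly_of_roots h, eval_mul, eval_C, eval_prod] at hz
  rcases mul_eq_zero.1 hz with h1 | h1
  · exact absurd h1 hc
  · obtain ⟨i, -, hi⟩ := Finset.prod_eq_zero_iff.1 h1
    rw [eval_sub, eval_X, eval_C, sub_eq_zero] at hi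
    rw [hi]
    exact hα i

theorem null_axes : volume {y : Fin d → ℂ | ∃ i, y i = 0} = 0 := by
  have : {y : Fin d → ℂ | ∃ i, y i = 0} = ⋃ i, {y | y i = 0} := by ext; simp
  rw [this, measure_iUnion_null_iff]
  intro i
  exact Measure.pi_hyperplane _ i 0

theorem cpoly_bound {a : Fin (d + 1) → ℂ} {C0 : ℝ} (ha : ∀ k, ‖a k‖ ≤ C0) {z : ℂ} (hz : ‖z‖ ≤ 2) :
    ‖(cpoly a).eval z‖ ≤ (d + 1) * C0 * 2 ^ d := by
  rw [cpoly_eval]
  have hC0 : 0 ≤ C0 := (norm_nonneg _).trans (ha 0)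
  refine (norm_sum_le _ _).trans ?_
  calc ∑ k : Fin (d + 1), ‖a k * z ^ (k : ℕ)‖ ≤ ∑ _k : Fin (d + 1), C0 * 2 ^ d := by
        refine Finset.sum_le_sum fun k _ => ?_
        rw [norm_mul, norm_pow]
        refine mul_le_mul (ha k) ?_ (by positivity) hC0
        calc ‖z‖ ^ (k : ℕ) ≤ 2 ^ (k : ℕ) := by gcongr
          _ ≤ 2 ^ d := pow_le_pow_right₀ (by norm_num) (by have := k.2; omega)
    _ = _ := by
        rw [Finset.sum_const, Finset.card_univ, Fintype.card_fin, nsmul_eq_mul]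
        push_cast
        ring

theorem norm_le_iff {x : (Fin (d + 1) → ℂ) × (Fin (d + 1) → ℂ)} {C0 : ℝ} (hC0 : 0 ≤ C0) :
    ‖x‖ ≤ C0 ↔ (∀ k, ‖x.1 k‖ ≤ C0) ∧ (∀ k, ‖x.2 k‖ ≤ C0) := by
  rw [Prod.norm_def, max_le_iff, pi_norm_le_iff_of_nonneg hC0, pi_norm_le_iff_of_nonneg hC0]

end Pool.Agent.Y295.RS
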