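import Mathlib
import Pool.Agent.Y295.RS.Up

/-!
# Lower bound for the volume of the pairs with a small resultant
-/

set_option autoImplicit false

open Polynomial Filter Topology MeasureTheory Set Metric
open scoped ENNReal

namespace Pool.Agent.Y295.RS

open Pool.Agent.W751.CD Pool.Agent.W751.CV

variable {d : ℕ}

/-- the pairs in the unit ball with a small resultant -/
def TT (d : ℕ) (ε : ℝ) : Set ((Fin (d + 1) → ℂ) × (Fin (d + 1) → ℂ)) :=
  {x | ‖x‖ ≤ 1 ∧ ‖res x‖ ≤ ε}

/-- the pairs used for the lower bound -/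
def WL (d : ℕ) (ε : ℝ) : Set ((Fin (d + 1) → ℂ) × (Fin (d + 1) → ℂ)) :=
  {x | ‖x‖ ≤ 1 ∧ x.2 (Fin.last d) ≠ 0 ∧ x ∈ RI d ∧ ‖res x‖ ≤ ε}

theorem meas_WL (ε : ℝ) : MeasurableSet (WL d ε) := by
  refine (measurableSet_le measurable_norm measurable_const).inter ?_
  refine MeasurableSet.inter ?_ (closed_RI.measurableSet.inter ?_)
  · have : Measurable fun x : (Fin (d + 1) → ℂ) × (Fin (d + 1) → ℂ) => x.2 (Fin.last d) :=
      (measurable_pi_apply _).comp measurable_snd
    exact (measurableSet_eq_fun this measurable_const).compl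
  · exact measurableSet_le cont_res.measurable.norm measurable_const

/-- the nodes at the centre of the region -/
noncomputable def nod (d : ℕ) : Fin d → ℂ := fun i => ((i : ℕ) : ℂ) / d

theorem nod_inj : Function.Injective (nod d) := by
  intro i k h
  unfold nod at h
  rcases Nat.eq_zero_or_pos d with h0 | h0
  · exact absurd i.2 (by omega)
  · have hd : (d : ℂ) ≠ 0 := by exact_mod_cast h0.ne'
    rw [div_left_inj' hd] at h
    exact Fin.ext (by exact_mod_cast h)

theorem nod_norm (i : Fin d) : ‖nod d i‖ ≤ 1 := by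
  unfold nod
  have h0 : 0 < d := i.pos
  rw [norm_div, Complex.norm_natCast, Complex.norm_natCast, div_le_one (by exact_mod_cast h0)]
  exact_mod_cast i.2.le

/-- small values at the nodes force small coefficients -/
theorem region (d : ℕ) : ∃ δ r : ℝ, 0 < δ ∧ δ ≤ 1 ∧ 0 < r ∧ ∀ (α : Fin d → ℂ) (p : ℂ)
    (v : Fin d → ℂ), (∀ i, ‖α i - nod d i‖ ≤ δ) → ‖p‖ ≤ r → (∀ i, ‖yy α p v i‖ ≤ r) →
      vd α ≠ 0 ∧ (∀ k, ‖v k‖ ≤ 1) ∧ ∀ k, ‖Phi α k‖ ≤ 4 ^ d := by
  have hdet0 : (Matrix.vandermonde (nod d)).det ≠ 0 := Matrix.det_vandermonde_ne_zero_iff.2 nod_inj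
  have hcd : Continuous fun α : Fin d → ℂ => ‖(Matrix.vandermonde α).det‖ := by
    simp only [Matrix.det_vandermonde]
    fun_prop
  have hcV : Continuous fun α : Fin d → ℂ => Matrix.vandermonde α := by
    refine continuous_matrix fun i k => ?_
    simp only [Matrix.vandermonde_apply]
    fun_prop
  have hca : ∀ k i : Fin d, Continuous fun α : Fin d → ℂ => ‖(Matrix.vandermonde α).adjugate k i‖ := by
    intro k i
    exact ((hcV.matrix_adjugate).matrix_elem k i).norm
  obtain ⟨b, hb⟩ : ∃ b : ℝ, b = ‖(Matrix.vandermonde (nod d)).det‖ / 2 := ⟨_, rfl⟩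
  have hb0 : 0 < b := by rw [hb]; exact half_pos (norm_pos_iff.2 hdet0)
  obtain ⟨B, hB⟩ : ∃ B : ℝ, B = 1 + ∑ k, ∑ i, ‖(Matrix.vandermonde (nod d)).adjugate k i‖ := ⟨_, rfl⟩
  have hB1 : 1 ≤ B := by
    rw [hB]
    have : 0 ≤ ∑ k, ∑ i, ‖(Matrix.vandermonde (nod d)).adjugate k i‖ :=
      Finset.sum_nonneg fun k _ => Finset.sum_nonneg fun i _ => norm_nonneg _
    linarith
  have hnear1 : ∀ᶠ α in 𝓝 (nod d), b < ‖(Matrix.vandermonde α).det‖ := by
    refine hcd.continuousAt.eventually_const_lt ?_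
    rw [hb]
    exact half_lt_self (norm_pos_iff.2 hdet0)
  have hnear2 : ∀ᶠ α in 𝓝 (nod d), ∀ k i, ‖(Matrix.vandermonde α).adjugate k i‖ < B := by
    rw [eventually_all]
    intro k
    rw [eventually_all]
    intro i
    refine (hca k i).continuousAt.eventually_lt_const ?_
    rw [hB]
    have h1 : ‖(Matrix.vandermonde (nod d)).adjugate k i‖ ≤
        ∑ i, ‖(Matrix.vandermonde (nod d)).adjugate k i‖ :=
      Finset.single_le_sum (f := fun i => ‖(Matrix.vandermonde (nod d)).adjugate k i‖)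
        (fun _ _ => norm_nonneg _) (Finset.mem_univ i)
    have h2 : ∑ i, ‖(Matrix.vandermonde (nod d)).adjugate k i‖ ≤
        ∑ k, ∑ i, ‖(Matrix.vandermonde (nod d)).adjugate k i‖ :=
      Finset.single_le_sum (f := fun k => ∑ i, ‖(Matrix.vandermonde (nod d)).adjugate k i‖)
        (fun _ _ => Finset.sum_nonneg fun _ _ => norm_nonneg _) (Finset.mem_univ k)
    linarith
  obtain ⟨δ₀, hδ₀, hball⟩ := Metric.eventually_nhds_iff.1 (hnear1.and hnear2)
  obtain ⟨r, hr⟩ : ∃ r : ℝ, r = b / ((d + 1) * B * (1 + 2 ^ d)) := ⟨_, rfl⟩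
  have hr0 : 0 < r := by rw [hr]; positivity
  refine ⟨min (δ₀ / 2) 1, r, by positivity, min_le_right _ _, hr0, fun α p v hα hp hy => ?_⟩
  have hdist : dist α (nod d) < δ₀ := by
    have h1 : dist α (nod d) ≤ δ₀ / 2 := by
      rw [dist_pi_le_iff (by positivity)]
      intro i
      rw [dist_eq_norm]
      exact (hα i).trans (min_le_left _ _)
    linarith
  obtain ⟨hdet, hadj⟩ := hball hdist
  have hα2 : ∀ i, ‖α i‖ ≤ 2 := by
    intro i
    have h1 : α i = (α i - nod d i) + nod d i := by ring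
    rw [h1]
    refine (norm_add_le _ _).trans ?_
    have := (hα i).trans (min_le_right _ _)
    linarith [nod_norm i]
  have hdpos : 0 < ‖(Matrix.vandermonde α).det‖ := hb0.trans hdet
  refine ⟨?_, fun k => ?_, fun k => ?_⟩
  · unfold vd
    positivity
  · have h1 : yy α p v - (fun i => p * α i ^ d) = Matrix.mulVec (Matrix.vandermonde α) v := by
      rw [yy_eq, add_sub_cancel_right]
      rfl
    have h2 : (Matrix.vandermonde α).adjugate.mulVec (yy α p v - (fun i => p * α i ^ d)) =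
        (Matrix.vandermonde α).det • v := by
      rw [h1, Matrix.mulVec_mulVec, Matrix.adjugate_mul, Matrix.smul_mulVec, Matrix.one_mulVec]
    have h3 : (Matrix.vandermonde α).det * v k = ∑ i, (Matrix.vandermonde α).adjugate k i *
        (yy α p v i - p * α i ^ d) := by
      have := congrFun h2 k
      rw [Pi.smul_apply, smul_eq_mul] at this
      rw [← this]
      rfl
    have h4 : ∀ i, ‖yy α p v i - p * α i ^ d‖ ≤ r * (1 + 2 ^ d) := by
      intro i
      refine (norm_sub_le _ _).trans ?_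
      rw [norm_mul, norm_pow, mul_add, mul_one]
      refine add_le_add (hy i) ?_
      have := hα2 i
      gcongr
    have h5 : ‖(Matrix.vandermonde α).det * v k‖ ≤ d * (B * (r * (1 + 2 ^ d))) := by
      rw [h3]
      refine (norm_sum_le _ _).trans ?_
      calc ∑ i, ‖(Matrix.vandermonde α).adjugate k i * (yy α p v i - p * α i ^ d)‖
          ≤ ∑ _i : Fin d, B * (r * (1 + 2 ^ d)) := by
            refine Finset.sum_le_sum fun i _ => ?_
            rw [norm_mul]
            exact mul_le_mul (hadj k i).le (h4 i) (norm_nonneg _) (by linarith)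
        _ = _ := by rw [Finset.sum_const, Finset.card_univ, Fintype.card_fin, nsmul_eq_mul]
    have h6 : d * (B * (r * (1 + 2 ^ d))) ≤ b := by
      rw [hr]
      have : d * (B * (b / ((d + 1) * B * (1 + 2 ^ d)) * (1 + 2 ^ d))) = b * (d / (d + 1)) := by
        field_simp
      rw [this]
      refine mul_le_of_le_one_right hb0.le ?_
      rw [div_le_one (by positivity)]
      linarith
    rw [norm_mul] at h5
    by_contra hcon
    push Not at hcon
    have h7 : ‖(Matrix.vandermonde α).det‖ * 1 < ‖(Matrix.vandermonde α).det‖ * ‖v k‖ :=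
      mul_lt_mul_of_pos_left hcon hdpos
    linarith
  · -- coefficients of the monic polynomial
    have key : ∀ (s : Finset (Fin d)) (m : ℕ), ‖(∏ i ∈ s, (X - C (α i)) : ℂ[X]).coeff m‖ ≤
        3 ^ s.card := by
      intro s
      induction s using Finset.induction_on with
      | empty =>
        intro m
        rw [Finset.prod_empty, coeff_one, Finset.card_empty, pow_zero]
        split_ifs <;> simp
      | insert a s ha ih =>
        intro m
        rw [Finset.prod_insert ha, Finset.card_insert_of_notMem ha, sub_mul, coeff_sub, coeff_C_mul,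
          pow_succ]
        have h1 : ‖(X * ∏ i ∈ s, (X - C (α i)) : ℂ[X]).coeff m‖ ≤ 3 ^ s.card := by
          cases m with
          | zero => rw [coeff_X_mul_zero, norm_zero]; positivity
          | succ m => rw [coeff_X_mul]; exact ih m
        have h2 : ‖α a * (∏ i ∈ s, (X - C (α i)) : ℂ[X]).coeff m‖ ≤ 2 * 3 ^ s.card := by
          rw [norm_mul]
          exact mul_le_mul (hα2 a) (ih m) (norm_nonneg _) (by norm_num)
        refine (norm_sub_le _ _).trans ?_
        linarith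
    have h1 := key Finset.univ k
    rw [Finset.card_univ, Fintype.card_fin] at h1
    have h2 : Phi α k = (∏ i, (X - C (α i)) : ℂ[X]).coeff k := rfl
    rw [h2]
    exact h1.trans (pow_le_pow_left₀ (by norm_num) (by norm_num) d)

/-- the inclusion used for the lower bound -/
theorem incl {n : ℕ} {δ r b ε : ℝ} (hδ1 : δ ≤ 1) (hb0 : 0 < b) (hb1 : b ≤ 1)
    (hb : b = (1 / 4) ^ (n + 2))
    (hreg : ∀ (α : Fin (n + 2) → ℂ) (p : ℂ)
      (v : Fin (n + 2) → ℂ), (∀ i, ‖α i - nod (n + 2) i‖ ≤ δ) → ‖p‖ ≤ r → (∀ i, ‖yy α p v i‖ ≤ r) →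
      vd α ≠ 0 ∧ (∀ k, ‖v k‖ ≤ 1) ∧ ∀ k, ‖Phi α k‖ ≤ 4 ^ (n + 2)) {c p : ℂ} {α : Fin (n + 2) → ℂ}
    (hc0 : c ≠ 0) (hc : ‖c‖ ≤ b) (hp' : ‖p‖ ≤ min r 1) (hα : ∀ i, ‖α i - nod (n + 2) i‖ ≤ δ) :
    {v : Fin (n + 2) → ℂ | yy α p v ∈ Vs (n + 2) r ε} ⊆
        {v : Fin (n + 2) → ℂ | (ins p v, ins c (c • Phi α)) ∈ WL (n + 2) ε} := by
  intro v hv
  obtain ⟨h1, h2⟩ := hv
  obtain ⟨-, h4, h5⟩ := hreg α p v hα (hp'.trans (min_le_left _ _)) h1
  have hα2 : ∀ i, ‖α i‖ ≤ 2 := by
    intro i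
    have e1 : α i = (α i - nod (n + 2) i) + nod (n + 2) i := by ring
    rw [e1]
    refine (norm_add_le _ _).trans ?_
    linarith [nod_norm i, hα i]
  have hprod : ‖res (ins p v, ins c (c • Phi α))‖ = ‖c‖ ^ (n + 2) * ∏ i, ‖yy α p v i‖ :=
    res_prod hc0 (cpoly_ins_Phi c α)
  refine ⟨?_, ?_, ?_, ?_⟩
  · rw [norm_le_iff zero_le_one]
    refine ⟨fun k => ?_, fun k => ?_⟩
    · refine Fin.lastCases ?_ (fun k => ?_) k
      · simp only [ins_last]
        exact hp'.trans (min_le_right _ _)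
      · simp only [ins_castSucc]
        exact h4 k
    · refine Fin.lastCases ?_ (fun k => ?_) k
      · simp only [ins_last]
        exact hc.trans hb1
      · simp only [ins_castSucc]
        rw [Pi.smul_apply, smul_eq_mul, norm_mul]
        calc ‖c‖ * ‖Phi α k‖ ≤ b * 4 ^ (n + 2) :=
              mul_le_mul hc (h5 k) (norm_nonneg _) hb0.le
          _ = 1 := by
              rw [hb, ← mul_pow]
              norm_num
  · simp only [ins_last]
    exact hc0
  · refine ⟨α, hα2, fun k => ?_⟩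
    simp only
    rw [ins_last, ins_castSucc]
    rfl
  · rw [hprod]
    have h6 : ‖c‖ ^ (n + 2) ≤ 1 := pow_le_one₀ (norm_nonneg _) (hc.trans hb1)
    have h7 : 0 ≤ ∏ i, ‖yy α p v i‖ := Finset.prod_nonneg fun i _ => norm_nonneg _
    exact (mul_le_of_le_one_left h7 h6).trans h2

/-- the lower bound -/
theorem vol_TT_low (n : ℕ) : ∃ A η₀ : ℝ, 0 < A ∧ 0 < η₀ ∧ η₀ < 1 ∧ ∀ ε : ℝ, 0 < ε → ε ≤ η₀ →
    ENNReal.ofReal (A * ε ^ 2 * Real.log (1 / ε) ^ (n + 1)) ≤ volume (TT (n + 2) ε) := by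
  obtain ⟨δ, r, hδ, hδ1, hr, hreg⟩ := region (n + 2)
  obtain ⟨c₁, η₀, hc₁, hη₀, hη₀1, hlow⟩ := V_low (n + 1) hr
  have hfin : ∀ ρ, IsFiniteMeasure (mD ρ) := Pool.Agent.W797.CV.mD_finite
  have hf2 := hfin 2
  -- the regions
  obtain ⟨b, hb⟩ : ∃ b : ℝ, b = (1 / 4) ^ (n + 2) := ⟨_, rfl⟩
  have hb0 : 0 < b := by rw [hb]; positivity
  have hb1 : b ≤ 1 := by rw [hb]; exact pow_le_one₀ (by norm_num) (by norm_num)
  obtain ⟨Rc, hRc⟩ : ∃ Rc : Set ℂ, Rc = {c : ℂ | b / 2 < ‖c‖ ∧ ‖c‖ ≤ b} := ⟨_, rfl⟩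
  obtain ⟨Rp, hRp⟩ : ∃ Rp : Set ℂ, Rp = {p : ℂ | ‖p‖ ≤ min r 1} := ⟨_, rfl⟩
  obtain ⟨Ra, hRa⟩ : ∃ Ra : Set (Fin (n + 2) → ℂ), Ra = {α | ∀ i, ‖α i - nod (n + 2) i‖ ≤ δ} :=
    ⟨_, rfl⟩
  have hRcm : MeasurableSet Rc := by
    rw [hRc]
    exact (measurableSet_lt measurable_const measurable_norm).inter
      (measurableSet_le measurable_norm measurable_const)
  have hRpm : MeasurableSet Rp := by
    rw [hRp]
    exact measurableSet_le measurable_norm measurable_const
  have hRapi : Ra = Set.pi univ fun i => closedBall (nod (n + 2) i) δ := by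
    rw [hRa]
    ext α
    simp [mem_closedBall, dist_eq_norm]
  have hRam : MeasurableSet Ra := by
    rw [hRapi]
    exact MeasurableSet.univ_pi fun i => measurableSet_closedBall
  have hRcpos : 0 < volume Rc := by
    have h1 : ball ((3 / 4 * b : ℝ) : ℂ) (b / 8) ⊆ Rc := by
      intro z hz
      rw [mem_ball, dist_eq_norm] at hz
      rw [hRc]
      have h2 : ‖((3 / 4 * b : ℝ) : ℂ)‖ = 3 / 4 * b := by
        rw [Complex.norm_real, Real.norm_eq_abs, abs_of_pos (by positivity)]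
      have h3 := norm_sub_norm_le ((3 / 4 * b : ℝ) : ℂ) z
      have h4 := norm_sub_norm_le z ((3 / 4 * b : ℝ) : ℂ)
      rw [norm_sub_rev] at h3
      rw [h2] at h3 h4
      constructor <;> linarith
    exact (measure_ball_pos _ _ (by positivity)).trans_le (measure_mono h1)
  have hRppos : 0 < volume Rp := by
    have h1 : ball (0 : ℂ) (min r 1) ⊆ Rp := by
      intro z hz
      rw [mem_ball_zero_iff] at hz
      rw [hRp]
      exact hz.le
    exact (measure_ball_pos _ _ (by positivity)).trans_le (measure_mono h1)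
  have hRapos : 0 < (Measure.pi fun _ : Fin (n + 2) => mD 2) Ra := by
    rw [hRapi, Measure.pi_pi]
    refine pos_iff_ne_zero.2 (Finset.prod_ne_zero_iff.2 fun i _ => ?_)
    unfold mD
    rw [Measure.restrict_apply measurableSet_closedBall, inter_eq_left.2]
    · exact (measure_closedBall_pos _ _ hδ).ne'
    · intro z hz
      rw [mem_closedBall, dist_eq_norm] at hz
      rw [mem_closedBall_zero_iff]
      have h1 : z = (z - nod (n + 2) i) + nod (n + 2) i := by ring
      rw [h1]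
      refine (norm_add_le _ _).trans ?_
      linarith [nod_norm i]
  have hRalt : (Measure.pi fun _ : Fin (n + 2) => mD 2) Ra < ⊤ := measure_lt_top _ _
  have hRclt : volume Rc < ⊤ := by
    refine (measure_mono ?_).trans_lt (measure_closedBall_lt_top (x := (0 : ℂ)) (r := b))
    intro z hz
    rw [hRc] at hz
    rw [mem_closedBall_zero_iff]
    exact hz.2
  have hRplt : volume Rp < ⊤ := by
    refine (measure_mono ?_).trans_lt (measure_closedBall_lt_top (x := (0 : ℂ)) (r := min r 1))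
    intro z hz
    rw [hRp] at hz
    rw [mem_closedBall_zero_iff]
    exact hz
  -- the constant
  obtain ⟨M, hM⟩ : ∃ M : ℝ≥0∞, M = ENNReal.ofReal ((b / 2) ^ (2 * (n + 2))) *
      (((n + 2).factorial : ℝ≥0∞)⁻¹ * (Measure.pi fun _ : Fin (n + 2) => mD 2) Ra) *
        volume Rp * volume Rc := ⟨_, rfl⟩
  have hM0 : 0 < M := by
    rw [hM]
    have h1 : (0 : ℝ≥0∞) < ((n + 2).factorial : ℝ≥0∞)⁻¹ :=
      ENNReal.inv_pos.2 (ENNReal.natCast_ne_top _)
    have h2 : 0 < ENNReal.ofReal ((b / 2) ^ (2 * (n + 2))) := ENNReal.ofReal_pos.2 (by positivity)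
    exact ENNReal.mul_pos (ENNReal.mul_pos (ENNReal.mul_pos h2.ne'
      (ENNReal.mul_pos h1.ne' hRapos.ne').ne').ne' hRppos.ne').ne' hRcpos.ne'
  have hMt : M < ⊤ := by
    rw [hM]
    have h1 : ((n + 2).factorial : ℝ≥0∞)⁻¹ < ⊤ :=
      ENNReal.inv_lt_top.2 (by exact_mod_cast Nat.factorial_pos _)
    exact ENNReal.mul_lt_top (ENNReal.mul_lt_top (ENNReal.mul_lt_top ENNReal.ofReal_lt_top
      (ENNReal.mul_lt_top h1 hRalt)) hRplt) hRclt
  refine ⟨M.toReal * c₁, η₀, mul_pos (ENNReal.toReal_pos hM0.ne' hMt.ne) hc₁, hη₀, hη₀1,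
    fun ε hε hεη => ?_⟩
  have hsub : WL (n + 2) ε ⊆ TT (n + 2) ε := fun x hx => ⟨hx.1, hx.2.2.2⟩
  refine le_trans ?_ (measure_mono hsub)
  rw [CVF (ρ := 2) (by norm_num) (meas_WL ε) (fun x hx z hz => roots_bound hx.2.2.1 hx.2.1 hz)]
  obtain ⟨V, hV⟩ : ∃ V : ℝ≥0∞, V = ENNReal.ofReal (c₁ * ε ^ 2 * Real.log (1 / ε) ^ (n + 1)) := ⟨_, rfl⟩
  have hinner : ∀ c ∈ Rc, ∀ p ∈ Rp, ∀ α ∈ Ra,
      V ≤ ENNReal.ofReal (vd α) * HH (WL (n + 2) ε) c (c • Phi α) p := by
    intro c hc p hp α hα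
    rw [hRc] at hc
    rw [hRp] at hp
    rw [hRa] at hα
    have hp' : ‖p‖ ≤ min r 1 := hp
    have hcn : 0 < ‖c‖ := lt_trans (by positivity) hc.1
    have hc0 : c ≠ 0 := norm_pos_iff.1 hcn
    have hvd : vd α ≠ 0 := by
      -- use any values
      have h0 := hreg α 0 0 hα (by rw [norm_zero]; exact hr.le) (fun i => by
        have : yy α 0 0 i = 0 := by
          rw [yy_eq]
          simp
        rw [this, norm_zero]
        exact hr.le)
      exact h0.1
    have hincl := incl (ε := ε) hδ1 hb0 hb1 (by rw [hb]) hreg hc0 hc.2 hp' hα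
    calc V ≤ volume (Vs (n + 2) r ε) := by rw [hV]; exact hlow ε hε hεη
      _ = ENNReal.ofReal (vd α) * volume {v : Fin (n + 2) → ℂ | yy α p v ∈ Vs (n + 2) r ε} :=
          (vol_yy hvd p _).symm
      _ ≤ _ := mul_le_mul_right (measure_mono hincl) _
  calc ENNReal.ofReal (M.toReal * c₁ * ε ^ 2 * Real.log (1 / ε) ^ (n + 1)) = M * V := by
        rw [hV, ← ENNReal.ofReal_toReal hMt.ne, ← ENNReal.ofReal_mul ENNReal.toReal_nonneg,
          ENNReal.toReal_ofReal ENNReal.toReal_nonneg]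
        congr 1
        ring
    _ = ∫⁻ _c in Rc, ∫⁻ _p in Rp, ENNReal.ofReal ((b / 2) ^ (2 * (n + 2))) *
        (((n + 2).factorial : ℝ≥0∞)⁻¹ * ∫⁻ _α in Ra, V ∂(Measure.pi fun _ : Fin (n + 2) => mD 2)) := by
        rw [setLIntegral_const, setLIntegral_const, setLIntegral_const, hM]
        ring
    _ ≤ ∫⁻ c in Rc, ∫⁻ p in Rp, ENNReal.ofReal (‖c‖ ^ (2 * (n + 2))) *
        (((n + 2).factorial : ℝ≥0∞)⁻¹ * ∫⁻ α in Ra, ENNReal.ofReal (vd α) *
          HH (WL (n + 2) ε) c (c • Phi α) p ∂(Measure.pi fun _ : Fin (n + 2) => mD 2)) := by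
        refine setLIntegral_mono' hRcm fun c hc => ?_
        refine setLIntegral_mono' hRpm fun p hp => ?_
        refine mul_le_mul' ?_ (mul_le_mul_right (setLIntegral_mono' hRam fun α hα =>
          hinner c hc p hp α hα) _)
        refine ENNReal.ofReal_le_ofReal ?_
        rw [hRc] at hc
        exact pow_le_pow_left₀ (by positivity) hc.1.le _
    _ ≤ _ := by
        refine (setLIntegral_mono' hRcm fun c hc => ?_).trans (setLIntegral_le_lintegral _ _)
        refine (setLIntegral_mono' hRpm fun p hp => ?_).trans (setLIntegral_le_lintegral _ _)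
        refine mul_le_mul_right (mul_le_mul_right (setLIntegral_le_lintegral _ _) _) _

end Pool.Agent.Y295.RS
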