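import Mathlib
import Pool.Agent.Y295.RS.Up

/-!
# Upper bound for the volume of the bad set in the chart, II
-/

set_option autoImplicit false

open Polynomial Filter Topology MeasureTheory Set Metric
open scoped ENNReal

namespace Pool.Agent.Y295.RS

open Pool.Agent.W751.CD Pool.Agent.W751.CV

attribute [local irreducible] Lam

/-- the fibre -/
theorem fibre {d : ℕ} {C0 ε : ℝ} (hC0 : 1 ≤ C0) {c p : ℂ} {α : Fin d → ℂ}
    (hc0 : c ≠ 0) (hα : ∀ i, ‖α i‖ ≤ 2) :
    {r : Fin d → ℂ | (ins p r, ins c (c • Phi α)) ∈ WW d C0 ε} ⊆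
      {r : Fin d → ℂ | yy α p r ∈ Us d ((d + 1) * C0 * 2 ^ d) (ε / ‖c‖ ^ d) (tau C0 c p α) ∪
        {y | ∃ i, y i = 0}} := by
  intro r hr
  obtain ⟨h1, h2, h3, h4, h5⟩ := hr
  rw [norm_le_iff (by linarith)] at h1
  simp only at h1 h2 h4
  have hcn : 0 < ‖c‖ := norm_pos_iff.2 hc0
  have hprod : ‖res (ins p r, ins c (c • Phi α))‖ = ‖c‖ ^ d * ∏ i, ‖yy α p r i‖ :=
    res_prod hc0 (cpoly_ins_Phi c α)
  have hb : ∀ i, ‖yy α p r i‖ ≤ (d + 1) * C0 * 2 ^ d := fun i => cpoly_bound h1.1 (hα i)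
  simp only [mem_ofPred_eq]
  rcases h5 with h5 | h5
  · left
    refine ⟨hb, ?_, ?_⟩
    · rw [le_div_iff₀ (by positivity), mul_comm, ← hprod]
      exact h4
    · by_contra hcon
      push Not at hcon
      apply h5
      refine ⟨α, hα, fun k => ?_, fun i => ?_⟩
      · simp only
        rw [ins_last, ins_castSucc]
        rfl
      · simp only
        rw [ins_last, ins_last]
        exact hcon i
  · right
    rw [h5, norm_zero] at hprod
    have h6 : ∏ i, ‖yy α p r i‖ = 0 := by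
      rcases mul_eq_zero.1 hprod.symm with h | h
      · exact absurd h (by positivity)
      · exact h
    obtain ⟨i, -, hi⟩ := Finset.prod_eq_zero_iff.1 h6
    exact ⟨i, norm_eq_zero.1 hi⟩

/-- bound for the integrand -/
theorem inner (n : ℕ) {C0 : ℝ} (hC0 : 1 ≤ C0) : ∃ A : ℝ, 0 < A ∧ ∀ ε L : ℝ, 0 < ε → ε ≤ 1 →
    L = 1 + (n + 2) * Real.log C0 + Real.log (1 / ε) → ∀ (c p : ℂ) (α : Fin (n + 2) → ℂ),
      (∀ i, ‖α i‖ ≤ 2) →
      ENNReal.ofReal (‖c‖ ^ (2 * (n + 2))) *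
        (ENNReal.ofReal (vd α) * HH (WW (n + 2) C0 ε) c (c • Phi α) p) ≤
      (closedBall (0 : ℂ) C0).indicator (fun _ => (closedBall (0 : ℂ) C0).indicator (fun _ =>
        ENNReal.ofReal (A * ε ^ 2 * L ^ n) * Lam c p α) p) c := by
  obtain ⟨R, hR⟩ : ∃ R : ℝ, R = (((n + 2 : ℕ) : ℝ) + 1) * C0 * 2 ^ (n + 2) := ⟨_, rfl⟩
  have hR1 : 1 ≤ R := by
    rw [hR]
    have h1 : (1 : ℝ) ≤ ((n + 2 : ℕ) : ℝ) + 1 := by push_cast; linarith [Nat.cast_nonneg (α := ℝ) n]
    have h2 : (1 : ℝ) ≤ 2 ^ (n + 2) := one_le_pow₀ (by norm_num)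
    calc (1 : ℝ) = 1 * 1 * 1 := by norm_num
      _ ≤ _ := by gcongr
  obtain ⟨CU, hCU, hU⟩ := U_up n hR1
  obtain ⟨K3, hK3, hlog⟩ := log_tau (d := n + 2) (by omega) hC0 hR1
  refine ⟨CU * K3, by positivity, fun ε L hε hε1 hL c p α hα => ?_⟩
  have hlC : 0 ≤ Real.log C0 := Real.log_nonneg hC0
  have hlε : 0 ≤ Real.log (1 / ε) := Real.log_nonneg (by rw [le_div_iff₀ hε]; linarith)
  have hL1 : 1 ≤ L := by rw [hL]; nlinarith [Nat.cast_nonneg (α := ℝ) n]
  by_cases hc : c ∈ closedBall (0 : ℂ) C0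
  swap
  · have : HH (WW (n + 2) C0 ε) c (c • Phi α) p = 0 := by
      unfold HH
      have : {r : Fin (n + 2) → ℂ | (ins p r, ins c (c • Phi α)) ∈ WW (n + 2) C0 ε} = ∅ := by
        ext r
        simp only [mem_ofPred_eq, mem_empty_iff_false, iff_false]
        rintro ⟨h1, -⟩
        rw [norm_le_iff (by linarith)] at h1
        have := h1.2 (Fin.last _)
        simp only [ins_last] at this
        exact hc (by rwa [mem_closedBall_zero_iff])
      rw [this, measure_empty]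
    rw [this, mul_zero, mul_zero]
    exact zero_le
  by_cases hp : p ∈ closedBall (0 : ℂ) C0
  swap
  · have : HH (WW (n + 2) C0 ε) c (c • Phi α) p = 0 := by
      unfold HH
      have : {r : Fin (n + 2) → ℂ | (ins p r, ins c (c • Phi α)) ∈ WW (n + 2) C0 ε} = ∅ := by
        ext r
        simp only [mem_ofPred_eq, mem_empty_iff_false, iff_false]
        rintro ⟨h1, -⟩
        rw [norm_le_iff (by linarith)] at h1
        have := h1.1 (Fin.last _)
        simp only [ins_last] at this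
        exact hp (by rwa [mem_closedBall_zero_iff])
      rw [this, measure_empty]
    rw [this, mul_zero, mul_zero]
    exact zero_le
  rw [indicator_of_mem hc, indicator_of_mem hp]
  rw [mem_closedBall_zero_iff] at hc hp
  by_cases hc0 : c = 0
  · rw [hc0, norm_zero, zero_pow (by omega), ENNReal.ofReal_zero, zero_mul]
    exact zero_le
  have hcn : 0 < ‖c‖ := norm_pos_iff.2 hc0
  have hA : 0 < CU * K3 * ε ^ 2 * L ^ n := by positivity
  rcases (Dlt_nonneg hC0 c p α).eq_or_lt with hD | hD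
  · rw [Lam_top hC0 hD.symm, ENNReal.mul_top (by rwa [Ne, ENNReal.ofReal_eq_zero, not_le])]
    exact le_top
  have hη : 0 < ε / ‖c‖ ^ (n + 2) := by positivity
  have hlη : Real.log (1 / (ε / ‖c‖ ^ (n + 2))) ≤ L := by
    rw [one_div_div, Real.log_div (by positivity) hε.ne', Real.log_pow, hL, one_div, Real.log_inv]
    have h1 : Real.log ‖c‖ ≤ Real.log C0 := Real.log_le_log hcn hc
    push_cast
    nlinarith [Nat.cast_nonneg (α := ℝ) n]
  have hτ0 : 0 < tau C0 c p α := by unfold tau; positivity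
  have hτR : tau C0 c p α ≤ R := by
    refine le_trans ?_ hR1
    unfold tau
    rw [div_le_one (by positivity)]
    have h1 : Dlt C0 c p α ^ (n + 2 + 4) ≤ 1 := pow_le_one₀ hD.le (Dlt_le_one hC0 hc hp hα)
    have h2 : (1 : ℝ) ≤ C0 ^ 4 := one_le_pow₀ hC0
    have h3 : (1 : ℝ) ≤ 128 * ((n + 2 : ℕ) : ℝ) := by
      push_cast; nlinarith [Nat.cast_nonneg (α := ℝ) n]
    calc Dlt C0 c p α ^ (n + 2 + 4) ≤ 1 * 1 := by linarith
      _ ≤ _ := by gcongr
  have hvol : ENNReal.ofReal (vd α) * HH (WW (n + 2) C0 ε) c (c • Phi α) p ≤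
      ENNReal.ofReal (CU * (ε / ‖c‖ ^ (n + 2)) ^ 2 * L ^ n * Real.log (R / tau C0 c p α)) := by
    by_cases hvd : vd α = 0
    · rw [hvd, ENNReal.ofReal_zero, zero_mul]; exact zero_le
    calc ENNReal.ofReal (vd α) * HH (WW (n + 2) C0 ε) c (c • Phi α) p
        ≤ ENNReal.ofReal (vd α) * volume {r : Fin (n + 2) → ℂ | yy α p r ∈
            Us (n + 2) R (ε / ‖c‖ ^ (n + 2)) (tau C0 c p α) ∪ {y | ∃ i, y i = 0}} := by
          rw [hR]
          exact mul_le_mul_right (measure_mono (fibre hC0 hc0 hα)) _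
      _ = volume (Us (n + 2) R (ε / ‖c‖ ^ (n + 2)) (tau C0 c p α) ∪ {y | ∃ i, y i = 0}) :=
          vol_yy hvd p _
      _ ≤ volume (Us (n + 2) R (ε / ‖c‖ ^ (n + 2)) (tau C0 c p α)) + 0 := by
          refine (measure_union_le _ _).trans ?_
          rw [null_axes]
      _ ≤ _ := by
          rw [add_zero]
          exact hU _ _ _ hη hL1 hlη hτ0 hτR
  have hlogn : 0 ≤ Real.log (R / tau C0 c p α) := Real.log_nonneg (by rwa [one_le_div hτ0])
  calc ENNReal.ofReal (‖c‖ ^ (2 * (n + 2))) *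
        (ENNReal.ofReal (vd α) * HH (WW (n + 2) C0 ε) c (c • Phi α) p)
      ≤ ENNReal.ofReal (‖c‖ ^ (2 * (n + 2))) *
        ENNReal.ofReal (CU * (ε / ‖c‖ ^ (n + 2)) ^ 2 * L ^ n * Real.log (R / tau C0 c p α)) :=
        mul_le_mul_right hvol _
    _ = ENNReal.ofReal (CU * ε ^ 2 * L ^ n) * ENNReal.ofReal (Real.log (R / tau C0 c p α)) := by
        rw [← ENNReal.ofReal_mul (by positivity), ← ENNReal.ofReal_mul (by positivity)]
        congr 1
        rw [div_pow, ← pow_mul, mul_comm (n + 2) 2]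
        field_simp
    _ ≤ ENNReal.ofReal (CU * ε ^ 2 * L ^ n) * (ENNReal.ofReal K3 * Lam c p α) :=
        mul_le_mul_right (hlog c p α hc hp hα hD) _
    _ = _ := by
        rw [← mul_assoc, ← ENNReal.ofReal_mul (by positivity)]
        congr 2
        ring

/-- the volume of the bad set in the chart -/
theorem vol_WW (n : ℕ) {C0 : ℝ} (hC0 : 1 ≤ C0) : ∃ A : ℝ, 0 < A ∧ ∀ ε L : ℝ, 0 < ε → ε ≤ 1 →
    L = 1 + (n + 2) * Real.log C0 + Real.log (1 / ε) →
      volume (WW (n + 2) C0 ε) ≤ ENNReal.ofReal (A * ε ^ 2 * L ^ n) := by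
  obtain ⟨A, hA, hin⟩ := inner n hC0
  have hfin : ∀ ρ, IsFiniteMeasure (mD ρ) := Pool.Agent.W797.CV.mD_finite
  have hf1 := hfin C0
  have hf2 := hfin 2
  have hI : ∫⁻ u, Lam u.1 u.2.1 u.2.2 ∂(PP C0 2 (n + 2)) < ⊤ := int_Lam C0 2
  obtain ⟨I, hId⟩ : ∃ I : ℝ≥0∞, I = ∫⁻ u, Lam u.1 u.2.1 u.2.2 ∂(PP C0 2 (n + 2)) := ⟨_, rfl⟩
  rw [← hId] at hI
  refine ⟨A * (I.toReal + 1), by positivity, fun ε L hε hε1 hL => ?_⟩
  have hlC : 0 ≤ Real.log C0 := Real.log_nonneg hC0
  have hlε : 0 ≤ Real.log (1 / ε) := Real.log_nonneg (by rw [le_div_iff₀ hε]; linarith)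
  have hL1 : 1 ≤ L := by rw [hL]; nlinarith [Nat.cast_nonneg (α := ℝ) n]
  obtain ⟨B, hB⟩ : ∃ B : ℝ, B = A * ε ^ 2 * L ^ n := ⟨_, rfl⟩
  have hB0 : 0 < B := by rw [hB]; positivity
  rw [CVF (ρ := 2) (by norm_num) (meas_WW C0 ε) (fun x hx z hz => roots_bound hx.2.2.1 hx.2.1 hz)]
  have hbox : ∀ᵐ α ∂(Measure.pi fun _ : Fin (n + 2) => mD 2), ∀ i, ‖α i‖ ≤ 2 := by
    rw [ae_all_iff]
    intro i
    have h1 : ∀ᵐ z ∂(mD 2), ‖z‖ ≤ 2 := by
      unfold mD
      refine (ae_restrict_iff' measurableSet_closedBall).2 (Eventually.of_forall fun z hz => ?_)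
      rwa [mem_closedBall_zero_iff] at hz
    exact (Measure.tendsto_eval_ae_ae (μ := fun _ : Fin (n + 2) => mD 2) (i := i)).eventually h1
  have hfac : ((n + 2).factorial : ℝ≥0∞)⁻¹ ≤ 1 := by
    rw [ENNReal.inv_le_one]
    exact_mod_cast Nat.succ_le_of_lt (Nat.factorial_pos _)
  have hstep : ∀ c p : ℂ, ENNReal.ofReal (‖c‖ ^ (2 * (n + 2))) * (((n + 2).factorial : ℝ≥0∞)⁻¹ *
      ∫⁻ α, ENNReal.ofReal (vd α) * HH (WW (n + 2) C0 ε) c (c • Phi α) p
        ∂(Measure.pi fun _ : Fin (n + 2) => mD 2)) ≤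
      (closedBall (0 : ℂ) C0).indicator (fun _ => (closedBall (0 : ℂ) C0).indicator (fun _ =>
        ENNReal.ofReal B * ∫⁻ α, Lam c p α ∂(Measure.pi fun _ : Fin (n + 2) => mD 2)) p) c := by
    intro c p
    calc ENNReal.ofReal (‖c‖ ^ (2 * (n + 2))) * (((n + 2).factorial : ℝ≥0∞)⁻¹ *
          ∫⁻ α, ENNReal.ofReal (vd α) * HH (WW (n + 2) C0 ε) c (c • Phi α) p
            ∂(Measure.pi fun _ : Fin (n + 2) => mD 2))
        ≤ ENNReal.ofReal (‖c‖ ^ (2 * (n + 2))) * (1 *
          ∫⁻ α, ENNReal.ofReal (vd α) * HH (WW (n + 2) C0 ε) c (c • Phi α) p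
            ∂(Measure.pi fun _ : Fin (n + 2) => mD 2)) := by gcongr
      _ = ∫⁻ α, ENNReal.ofReal (‖c‖ ^ (2 * (n + 2))) * (ENNReal.ofReal (vd α) *
          HH (WW (n + 2) C0 ε) c (c • Phi α) p) ∂(Measure.pi fun _ : Fin (n + 2) => mD 2) := by
          rw [one_mul, lintegral_const_mul' _ _ ENNReal.ofReal_ne_top]
      _ ≤ ∫⁻ α, (closedBall (0 : ℂ) C0).indicator (fun _ => (closedBall (0 : ℂ) C0).indicator
            (fun _ => ENNReal.ofReal B * Lam c p α) p) c
              ∂(Measure.pi fun _ : Fin (n + 2) => mD 2) := by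
          refine lintegral_mono_ae ?_
          filter_upwards [hbox] with α hα
          rw [hB]
          exact hin ε L hε hε1 hL c p α hα
      _ = _ := by
          by_cases hc : c ∈ closedBall (0 : ℂ) C0
          · by_cases hp : p ∈ closedBall (0 : ℂ) C0
            · simp only [indicator_of_mem hc, indicator_of_mem hp]
              rw [lintegral_const_mul' _ _ ENNReal.ofReal_ne_top]
            · simp only [indicator_of_mem hc, indicator_of_notMem hp, lintegral_zero]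
          · simp only [indicator_of_notMem hc, lintegral_zero]
  have hmL := meas_Lam (d := n + 2)
  calc _ ≤ ∫⁻ c : ℂ, ∫⁻ p : ℂ, (closedBall (0 : ℂ) C0).indicator (fun _ =>
        (closedBall (0 : ℂ) C0).indicator (fun _ =>
        ENNReal.ofReal B * ∫⁻ α, Lam c p α ∂(Measure.pi fun _ : Fin (n + 2) => mD 2)) p) c :=
        lintegral_mono fun c => lintegral_mono fun p => hstep c p
    _ = ∫⁻ c, ∫⁻ p, ENNReal.ofReal B * ∫⁻ α, Lam c p α ∂(Measure.pi fun _ : Fin (n + 2) => mD 2)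
        ∂(mD C0) ∂(mD C0) := by
        unfold mD
        rw [← lintegral_indicator measurableSet_closedBall]
        refine lintegral_congr fun c => ?_
        by_cases hc : c ∈ closedBall (0 : ℂ) C0
        · simp only [indicator_of_mem hc]
          rw [← lintegral_indicator measurableSet_closedBall]
          refine lintegral_congr fun p => ?_
          by_cases hp : p ∈ closedBall (0 : ℂ) C0
          · simp only [indicator_of_mem hp]
          · simp only [indicator_of_notMem hp]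
        · simp only [indicator_of_notMem hc, lintegral_zero]
    _ = ENNReal.ofReal B * I := by
        rw [hId]
        unfold PP
        rw [lintegral_prod _ hmL.aemeasurable, ← lintegral_const_mul' _ _ ENNReal.ofReal_ne_top]
        refine lintegral_congr fun c => ?_
        have hmc : Measurable fun v : ℂ × (Fin (n + 2) → ℂ) => Lam c v.1 v.2 :=
          hmL.comp (measurable_const.prodMk measurable_id)
        have h5 := lintegral_prod (μ := mD C0) (ν := Measure.pi fun _ : Fin (n + 2) => mD 2) _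
          hmc.aemeasurable
        simp only
        rw [h5, ← lintegral_const_mul' _ _ ENNReal.ofReal_ne_top]
    _ ≤ ENNReal.ofReal B * ENNReal.ofReal (I.toReal + 1) := by
        refine mul_le_mul_right ?_ _
        rw [← ENNReal.ofReal_toReal hI.ne]
        refine ENNReal.ofReal_le_ofReal ?_
        rw [ENNReal.toReal_ofReal ENNReal.toReal_nonneg]
        linarith
    _ = _ := by
        rw [← ENNReal.ofReal_mul hB0.le, hB]
        congr 1
        ring

end Pool.Agent.Y295.RS
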