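import Mathlib
import Pool.Agent.Y295.RS.Up2
import Pool.Agent.Y295.RS.Low

/-!
# Almost every rational map with a small resultant is hyperbolic
-/

set_option autoImplicit false

open Polynomial Filter Topology MeasureTheory Set Metric
open scoped ENNReal Pointwise

namespace Pool.Agent.Y295.RS

open Pool.Agent.W751.CD Pool.Agent.W751.CV
open Pool.Agent.H762R2.Rt Pool.Agent.Helper114.Herman

/-- good pairs are hyperbolic -/
theorem hyp_of_good {d : ℕ} (hd : 1 ≤ d) {C0 : ℝ} (hC0 : 1 ≤ C0) {j : ℂ}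
    {x : (Fin (d + 1) → ℂ) × (Fin (d + 1) → ℂ)} (hb : ‖LL j x‖ ≤ C0)
    (hc0 : (LL j x).2 (Fin.last d) ≠ 0) (hG : LL j x ∈ GG d C0) (hres : res (LL j x) ≠ 0) :
    Hyp (cpoly x.1) (cpoly x.2) := by
  obtain ⟨α, hα, hnodes, hτ⟩ := hG
  obtain ⟨c, hc⟩ : ∃ c, c = (LL j x).2 (Fin.last d) := ⟨_, rfl⟩
  obtain ⟨p, hp⟩ : ∃ p, p = (LL j x).1 (Fin.last d) := ⟨_, rfl⟩
  rw [norm_le_iff (by linarith)] at hb
  have hcC : ‖c‖ ≤ C0 := by rw [hc]; exact hb.2 _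
  have hpC : ‖p‖ ≤ C0 := by rw [hp]; exact hb.1 _
  rw [← hc, ← hp] at hτ
  rw [← hc] at hc0
  have hM : cpoly (LL j x).2 = Lpol j x.2 := by rw [LL_snd, cpoly_Lj]
  have hMf : cpoly (LL j x).2 = C c * ∏ i, (X - C (α i)) := by
    rw [hc]; exact cpoly_of_roots hnodes
  have hprod := res_prod hc0 hMf
  have hy : ∀ i, (cpoly (LL j x).1).eval (α i) ≠ 0 := by
    intro i hi
    apply hres
    rw [← norm_eq_zero, hprod, Finset.prod_eq_zero (Finset.mem_univ i) (by rw [hi, norm_zero]),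
      mul_zero]
  have hD : 0 < Dlt C0 c p α := by
    have h1 := hτ ⟨0, hd⟩
    have h2 : 0 < tau C0 c p α := (norm_pos_iff.2 (hy ⟨0, hd⟩)).trans_le h1
    rcases (Dlt_nonneg hC0 c p α).eq_or_lt with h | h
    · exfalso
      unfold tau at h2
      rw [← h, zero_pow (by omega), zero_div] at h2
      exact lt_irrefl _ h2
    · exact h
  have hcc : (LL j x).2 (Fin.last d) = (cpoly x.2).eval j := by
    rw [← Lpol_coeff, ← cpoly_Lj, ← LL_snd]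
    exact (cpoly_coeff (LL j x).2 (Fin.last d)).symm
  have hpp : (LL j x).1 (Fin.last d) = (cpoly x.1).eval j - j * (cpoly x.2).eval j := by
    have h1 := cpoly_coeff (LL j x).1 (Fin.last d)
    rw [← h1, cpoly_LL1, Fin.val_last, coeff_sub, coeff_C_mul, Lpol_coeff, Lpol_coeff]
  have hDle := fun t => Dlt_le hC0 hcC hpC hα t
  refine crit (A := cpoly (LL j x).1) (M := Lpol j x.2) (j := j) (c := c) (p := p) (α := α)
    (s := Dlt C0 c p α) (C0 := C0) hd (cpoly_natDegree _) (cpoly_natDegree _) ?_ ?_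
    (cpoly_natDegree _) ?_ ?_ ?_ ?_ hD (Dlt_le_one hC0 hcC hpC hα) hC0 (hDle (Sum.inl true)) hcC
    (hDle (Sum.inl false)) hpC ?_ (fun i => hDle (Sum.inr (Sum.inr i))) hy ?_
  · intro ζ
    rw [cpoly_LL1, eval_sub, eval_mul, eval_C, Lpol_eval, Lpol_eval]
    ring
  · intro ζ
    rw [Lpol_eval]
  · rw [hp]
    exact cpoly_coeff (LL j x).1 (Fin.last d)
  · rw [← hM, hMf]
  · rw [hp, hpp, hc, hcc]
    ring
  · rw [hc, hcc]
  · intro i k hik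
    have h1 := hDle (Sum.inr (Sum.inl (i, k)))
    have h2 : ff c p α (Sum.inr (Sum.inl (i, k))) = ‖α i - α k‖ := by
      show (if i = k then (1 : ℝ) else ‖α i - α k‖) = _
      rw [if_neg hik]
    rwa [h2] at h1
  · intro i
    exact hτ i

/-- a hyperbolic map of degree `d` -/
def HD {d : ℕ} (x : (Fin (d + 1) → ℂ) × (Fin (d + 1) → ℂ)) : Prop :=
  max (cpoly x.1).natDegree (cpoly x.2).natDegree = d ∧ Hyp (cpoly x.1) (cpoly x.2)

theorem HD_of {d : ℕ} {x : (Fin (d + 1) → ℂ) × (Fin (d + 1) → ℂ)} (h : Hyp (cpoly x.1) (cpoly x.2))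
    (hr : res x ≠ 0) : HD x := by
  refine ⟨le_antisymm (max_le (cpoly_natDegree _) (cpoly_natDegree _)) ?_, h⟩
  by_contra hcon
  push Not at hcon
  rw [max_lt_iff] at hcon
  exact hr (resultant_eq_zero_of_lt_lt _ _ _ _ hcon.1 hcon.2)

/-- the non-hyperbolic pairs in the unit ball with a small resultant -/
def BB (d : ℕ) (ε : ℝ) : Set ((Fin (d + 1) → ℂ) × (Fin (d + 1) → ℂ)) :=
  {x | ‖x‖ ≤ 1 ∧ ‖res x‖ ≤ ε ∧ ¬ HD x}

/-- a base point far from the roots -/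
theorem exists_base {d : ℕ} (a : Fin d → ℂ) : ∃ j : Fin (d + 1), ∀ i, 1 / 2 ≤ ‖a i - ((j : ℕ) : ℂ)‖ := by
  by_contra hcon
  push Not at hcon
  choose σ hσ using hcon
  obtain ⟨j, j', hne, he⟩ := Fintype.exists_ne_map_eq_of_card_lt σ (by simp)
  have h1 := hσ j
  have h2 := hσ j'
  rw [← he] at h2
  have h3 : ‖((j : ℕ) : ℂ) - ((j' : ℕ) : ℂ)‖ < 1 := by
    have e1 : ((j : ℕ) : ℂ) - ((j' : ℕ) : ℂ) = (a (σ j) - ((j' : ℕ) : ℂ)) - (a (σ j) - ((j : ℕ) : ℂ)) := by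
      ring
    rw [e1]
    refine (norm_sub_le _ _).trans_lt ?_
    linarith
  have h4 : ((j : ℕ) : ℂ) - ((j' : ℕ) : ℂ) = (((j : ℕ) : ℤ) - ((j' : ℕ) : ℤ) : ℤ) := by push_cast; ring
  rw [h4, Complex.norm_intCast] at h3
  have h5 : |((j : ℕ) : ℤ) - ((j' : ℕ) : ℤ)| < 1 := by exact_mod_cast h3
  rw [Int.abs_lt_one_iff] at h5
  exact hne (Fin.ext (by omega))

theorem cover {d : ℕ} (hd : 1 ≤ d) {C0 ε : ℝ} (hC0 : 1 ≤ C0)
    (hbd : ∀ j : Fin (d + 1), ∀ x : (Fin (d + 1) → ℂ) × (Fin (d + 1) → ℂ), ‖x‖ ≤ 1 →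
      ‖LL ((j : ℕ) : ℂ) x‖ ≤ C0) :
    BB d ε ⊆ {x | x.2 (Fin.last d) = 0} ∪ ⋃ j : Fin (d + 1), LL ((j : ℕ) : ℂ) ⁻¹' WW d C0 ε := by
  rintro x ⟨hx1, hx2, hx3⟩
  by_cases hq : x.2 (Fin.last d) = 0
  · left; exact hq
  right
  have hQc : (cpoly x.2).coeff d = x.2 (Fin.last d) := cpoly_coeff x.2 (Fin.last d)
  obtain ⟨a, ha⟩ := exists_roots (cpoly_natDegree x.2) (by rw [hQc]; exact hq)
  rw [hQc] at ha
  obtain ⟨j, hj⟩ := exists_base a
  rw [mem_iUnion]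
  refine ⟨j, ?_⟩
  obtain ⟨z, hz⟩ : ∃ z : ℂ, z = ((j : ℕ) : ℂ) := ⟨_, rfl⟩
  rw [← hz] at hj ⊢
  have hQe : ∀ w, (cpoly x.2).eval w = x.2 (Fin.last d) * ∏ i, (w - a i) := by
    intro w
    rw [ha, eval_mul, eval_C, eval_prod]
    simp
  have hQj : (cpoly x.2).eval z ≠ 0 := by
    rw [hQe]
    refine mul_ne_zero hq (Finset.prod_ne_zero_iff.2 fun i _ => ?_)
    intro h
    have := hj i
    rw [← norm_neg, neg_sub, h, norm_zero] at this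
    linarith
  have hroot : ∀ w, (cpoly x.2).eval w = 0 → 1 / 2 ≤ ‖w - z‖ := by
    intro w hw
    rw [hQe] at hw
    rcases mul_eq_zero.1 hw with h | h
    · exact absurd h hq
    · obtain ⟨i, -, hi⟩ := Finset.prod_eq_zero_iff.1 h
      rw [sub_eq_zero] at hi
      rw [hi]
      exact hj i
  have hcc : (LL z x).2 (Fin.last d) = (cpoly x.2).eval z := by
    rw [← Lpol_coeff, ← cpoly_Lj, ← LL_snd]
    exact (cpoly_coeff (LL z x).2 (Fin.last d)).symm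
  have hc0 : (LL z x).2 (Fin.last d) ≠ 0 := by rwa [hcc]
  have hM : cpoly (LL z x).2 = Lpol z x.2 := by rw [LL_snd, cpoly_Lj]
  obtain ⟨α, hα⟩ := exists_roots (Lpol_natDegree z x.2) (by rwa [Lpol_coeff])
  rw [Lpol_coeff, ← hcc] at hα
  have hα2 : ∀ i, ‖α i‖ ≤ 2 := by
    intro i
    by_cases h0 : α i = 0
    · rw [h0, norm_zero]; norm_num
    have h1 : (Lpol z x.2).eval (α i) = 0 := by
      rw [hα, eval_mul, eval_prod, Finset.prod_eq_zero (Finset.mem_univ i) (by simp), mul_zero]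
    rw [Lpol_inv _ h0] at h1
    have h2 : (cpoly x.2).eval (z + (α i)⁻¹) = 0 := by
      rcases mul_eq_zero.1 h1 with h | h
      · exact absurd h (pow_ne_zero _ h0)
      · exact h
    have h3 := hroot _ h2
    rw [add_sub_cancel_left, norm_inv] at h3
    have h4 : 0 < ‖α i‖ := norm_pos_iff.2 h0
    rw [le_inv_comm₀ (by norm_num) h4] at h3
    linarith
  have hbz : ‖LL z x‖ ≤ C0 := by rw [hz]; exact hbd j x hx1
  refine ⟨hbz, hc0, ⟨α, hα2, fun k => ?_⟩, by rw [res_LL hq hQj]; exact hx2, ?_⟩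
  · have h1 := cpoly_coeff (LL z x).2 k.castSucc
    rw [hM, hα, coeff_C_mul, Fin.val_castSucc] at h1
    exact h1.symm
  · by_contra hcon
    push Not at hcon
    obtain ⟨h1, h2⟩ := hcon
    refine hx3 (HD_of (hyp_of_good hd hC0 hbz hc0 h1 h2) ?_)
    rw [← norm_ne_zero_iff, ← res_LL hq hQj, norm_ne_zero_iff]
    exact h2

theorem null_q (d : ℕ) : volume {x : (Fin (d + 1) → ℂ) × (Fin (d + 1) → ℂ) |
    x.2 (Fin.last d) = 0} = 0 := by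
  have h1 : {x : (Fin (d + 1) → ℂ) × (Fin (d + 1) → ℂ) | x.2 (Fin.last d) = 0} =
      univ ×ˢ {q : Fin (d + 1) → ℂ | q (Fin.last d) = 0} := by
    ext; simp
  have h2 : volume {q : Fin (d + 1) → ℂ | q (Fin.last d) = 0} = 0 := Measure.pi_hyperplane _ _ 0
  rw [h1, Measure.volume_eq_prod, Measure.prod_prod, h2, mul_zero]

/-- the upper bound for the non-hyperbolic pairs -/
theorem vol_BB (n : ℕ) : ∃ A : ℝ, 0 < A ∧ ∀ ε : ℝ, 0 < ε → ε ≤ 1 / 2 →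
    volume (BB (n + 2) ε) ≤ ENNReal.ofReal (A * ε ^ 2 * Real.log (1 / ε) ^ n) := by
  have h1 : ∀ j : Fin (n + 2 + 1), ∃ K : ℝ, 0 < K ∧
      (∀ W : Set ((Fin (n + 2 + 1) → ℂ) × (Fin (n + 2 + 1) → ℂ)),
        volume (LL ((j : ℕ) : ℂ) ⁻¹' W) = ENNReal.ofReal K * volume W) := fun j => LL_vol _
  have h2 : ∀ j : Fin (n + 2 + 1), ∃ K : ℝ, 0 < K ∧
      ∀ x : (Fin (n + 2 + 1) → ℂ) × (Fin (n + 2 + 1) → ℂ), ‖LL ((j : ℕ) : ℂ) x‖ ≤ K * ‖x‖ :=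
    fun j => LL_bdd _
  choose K hK hKv using h1
  choose B hB hBv using h2
  obtain ⟨C0, hC0⟩ : ∃ C0 : ℝ, C0 = 1 + ∑ j, B j := ⟨_, rfl⟩
  have hsum : 0 ≤ ∑ j, B j := Finset.sum_nonneg fun j _ => (hB j).le
  have hC01 : 1 ≤ C0 := by rw [hC0]; linarith
  have hbd : ∀ j : Fin (n + 2 + 1), ∀ x : (Fin (n + 2 + 1) → ℂ) × (Fin (n + 2 + 1) → ℂ), ‖x‖ ≤ 1 →
      ‖LL ((j : ℕ) : ℂ) x‖ ≤ C0 := by
    intro j x hx
    have h3 : B j ≤ ∑ j, B j := Finset.single_le_sum (fun j _ => (hB j).le) (Finset.mem_univ j)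
    calc ‖LL ((j : ℕ) : ℂ) x‖ ≤ B j * ‖x‖ := hBv j x
      _ ≤ B j * 1 := by have := hB j; gcongr
      _ ≤ C0 := by rw [hC0]; linarith
  obtain ⟨A, hA, hW⟩ := vol_WW n hC01
  have hlC : 0 ≤ Real.log C0 := Real.log_nonneg hC01
  have hlog2 : 0 < Real.log 2 := Real.log_pos (by norm_num)
  obtain ⟨D, hD⟩ : ∃ D : ℝ, D = 1 + (1 + (n + 2) * Real.log C0) / Real.log 2 := ⟨_, rfl⟩
  have hD0 : 0 < D := by rw [hD]; positivity
  have hKs : 0 < ∑ j, K j := Finset.sum_pos (fun j _ => hK j) Finset.univ_nonempty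
  refine ⟨(∑ j, K j) * (A * D ^ n), by positivity, fun ε hε hε2 => ?_⟩
  have hlε : Real.log 2 ≤ Real.log (1 / ε) := by
    refine Real.log_le_log (by norm_num) ?_
    rw [le_div_iff₀ hε]
    linarith
  obtain ⟨L, hL⟩ : ∃ L : ℝ, L = 1 + (n + 2) * Real.log C0 + Real.log (1 / ε) := ⟨_, rfl⟩
  have hE : 0 ≤ (n + 2) * Real.log C0 := by positivity
  have hLD : L ≤ D * Real.log (1 / ε) := by
    have h5 : 1 + (n + 2) * Real.log C0 ≤ (1 + (n + 2) * Real.log C0) / Real.log 2 *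
        Real.log (1 / ε) := by
      rw [div_mul_eq_mul_div, le_div_iff₀ hlog2]
      exact mul_le_mul_of_nonneg_left hlε (by linarith)
    have h6 : D * Real.log (1 / ε) = Real.log (1 / ε) + (1 + (n + 2) * Real.log C0) / Real.log 2 *
        Real.log (1 / ε) := by rw [hD]; ring
    rw [hL, h6]
    linarith
  have hL0 : 0 < L := by rw [hL]; linarith
  have h3 : volume (WW (n + 2) C0 ε) ≤ ENNReal.ofReal (A * D ^ n * ε ^ 2 * Real.log (1 / ε) ^ n) := by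
    refine (hW ε L hε (by linarith) hL).trans (ENNReal.ofReal_le_ofReal ?_)
    calc A * ε ^ 2 * L ^ n ≤ A * ε ^ 2 * (D * Real.log (1 / ε)) ^ n := by gcongr
      _ = _ := by rw [mul_pow]; ring
  have hR0 : 0 ≤ A * D ^ n * ε ^ 2 * Real.log (1 / ε) ^ n := by
    have : 0 ≤ Real.log (1 / ε) := by linarith
    positivity
  calc volume (BB (n + 2) ε)
      ≤ volume ({x | x.2 (Fin.last (n + 2)) = 0} ∪
        ⋃ j : Fin (n + 2 + 1), LL ((j : ℕ) : ℂ) ⁻¹' WW (n + 2) C0 ε) :=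
        measure_mono (cover (by omega) hC01 hbd)
    _ ≤ volume {x : (Fin (n + 2 + 1) → ℂ) × (Fin (n + 2 + 1) → ℂ) | x.2 (Fin.last (n + 2)) = 0} +
        volume (⋃ j : Fin (n + 2 + 1), LL ((j : ℕ) : ℂ) ⁻¹' WW (n + 2) C0 ε) := measure_union_le _ _
    _ ≤ 0 + ∑ j : Fin (n + 2 + 1), volume (LL ((j : ℕ) : ℂ) ⁻¹' WW (n + 2) C0 ε) := by
        rw [null_q]
        exact add_le_add le_rfl (measure_iUnion_fintype_le _ _)
    _ ≤ ∑ j : Fin (n + 2 + 1), ENNReal.ofReal (K j * (A * D ^ n * ε ^ 2 * Real.log (1 / ε) ^ n)) := by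
        rw [zero_add]
        refine Finset.sum_le_sum fun j _ => ?_
        rw [hKv j, ENNReal.ofReal_mul (hK j).le]
        exact mul_le_mul_right h3 _
    _ = _ := by
        rw [← ENNReal.ofReal_sum_of_nonneg fun j _ => mul_nonneg (hK j).le hR0, ← Finset.sum_mul]
        congr 1
        ring

/-- the lower bound for all the pairs -/
theorem vol_TT (n : ℕ) : ∃ A : ℝ, 0 < A ∧ ∀ ε : ℝ, 0 < ε → ε ≤ 1 / 2 →
    ENNReal.ofReal (A * ε ^ 2 * Real.log (1 / ε) ^ (n + 1)) ≤ volume (TT (n + 2) ε) := by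
  obtain ⟨A, η₀, hA, hη₀, hη₀1, h⟩ := vol_TT_low n
  refine ⟨A * η₀ ^ 2, by positivity, fun ε hε hε2 => ?_⟩
  have hlε : 0 ≤ Real.log (1 / ε) := Real.log_nonneg (by rw [le_div_iff₀ hε]; linarith)
  have hη2 : η₀ ^ 2 ≤ 1 := pow_le_one₀ hη₀.le hη₀1.le
  rcases le_or_gt ε η₀ with h1 | h1
  · refine le_trans (ENNReal.ofReal_le_ofReal ?_) (h ε hε h1)
    have : A * η₀ ^ 2 ≤ A * 1 := by gcongr
    rw [mul_one] at this
    gcongr
  · refine le_trans (ENNReal.ofReal_le_ofReal ?_) ((h η₀ hη₀ le_rfl).trans (measure_mono ?_))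
    · have h2 : Real.log (1 / ε) ≤ Real.log (1 / η₀) := by
        refine Real.log_le_log (by positivity) ?_
        exact one_div_le_one_div_of_le hη₀ h1.le
      have h3 : ε ^ 2 ≤ 1 := pow_le_one₀ hε.le (by linarith)
      calc A * η₀ ^ 2 * ε ^ 2 * Real.log (1 / ε) ^ (n + 1)
          ≤ A * η₀ ^ 2 * 1 * Real.log (1 / η₀) ^ (n + 1) := by gcongr
        _ = _ := by rw [mul_one]
    · intro x hx
      exact ⟨hx.1, hx.2.trans h1.le⟩

theorem TT_lt (d : ℕ) (ε : ℝ) : volume (TT d ε) < ⊤ := by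
  refine (measure_mono ?_).trans_lt (measure_closedBall_lt_top
    (x := (0 : (Fin (d + 1) → ℂ) × (Fin (d + 1) → ℂ))) (r := 1))
  intro x hx
  rw [mem_closedBall_zero_iff]
  exact hx.1

/-- the main theorem for the unit ball -/
theorem main_unit (n : ℕ) : ∃ A : ℝ, 0 < A ∧ ∀ ε : ℝ, 0 < ε → ε ≤ 1 / 2 →
    0 < volume (TT (n + 2) ε) ∧
    volume (BB (n + 2) ε) ≤ ENNReal.ofReal (A / Real.log (1 / ε)) * volume (TT (n + 2) ε) := by
  obtain ⟨A₁, hA₁, h1⟩ := vol_BB n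
  obtain ⟨A₂, hA₂, h2⟩ := vol_TT n
  refine ⟨A₁ / A₂, by positivity, fun ε hε hε2 => ?_⟩
  have hlε : 0 < Real.log (1 / ε) := Real.log_pos (by rw [lt_div_iff₀ hε]; linarith)
  constructor
  · refine lt_of_lt_of_le ?_ (h2 ε hε hε2)
    exact ENNReal.ofReal_pos.2 (by positivity)
  · calc volume (BB (n + 2) ε) ≤ ENNReal.ofReal (A₁ * ε ^ 2 * Real.log (1 / ε) ^ n) := h1 ε hε hε2
      _ = ENNReal.ofReal (A₁ / A₂ / Real.log (1 / ε)) *
          ENNReal.ofReal (A₂ * ε ^ 2 * Real.log (1 / ε) ^ (n + 1)) := by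
          rw [← ENNReal.ofReal_mul (by positivity)]
          congr 1
          field_simp
          ring
      _ ≤ _ := mul_le_mul_right (h2 ε hε hε2) _

/-! ### scaling -/

theorem hyp_smul {P Q : ℂ[X]} {t : ℂ} (ht : t ≠ 0) (h : Hyp P Q) : Hyp (C t * P) (C t * Q) := by
  obtain ⟨hcop, f, hf1, hf2, hf3⟩ := h
  have hu : IsUnit (C t : ℂ[X]) := isUnit_C.2 ht.isUnit
  refine ⟨(isCoprime_mul_unit_left hu P Q).2 hcop, f, hf1, fun z hz => ?_, hf3⟩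
  rw [eval_mul, eval_C] at hz
  have hz' : Q.eval z ≠ 0 := right_ne_zero_of_mul hz
  rw [hf2 z hz', eval_mul, eval_mul, eval_C, mul_div_mul_left _ _ ht]

theorem res_smul {d : ℕ} (t : ℂ) (x : (Fin (d + 1) → ℂ) × (Fin (d + 1) → ℂ)) :
    ‖res (t • x)‖ = ‖t‖ ^ (2 * d) * ‖res x‖ := by
  unfold res
  rw [Prod.smul_fst, Prod.smul_snd, cpoly_smul, cpoly_smul, resultant_C_mul_left,
    resultant_C_mul_right, norm_mul, norm_mul, norm_pow, ← mul_assoc, ← pow_add, two_mul]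

/-- pairs with coefficients of modulus at most `T` and resultant of modulus at most `ε` -/
def ST (d : ℕ) (T ε : ℝ) : Set ((Fin (d + 1) → ℂ) × (Fin (d + 1) → ℂ)) :=
  {x | (∀ k, ‖x.1 k‖ ≤ T) ∧ (∀ k, ‖x.2 k‖ ≤ T) ∧ ‖res x‖ ≤ ε}

theorem ST_eq {d : ℕ} {T ε : ℝ} (hT : 0 < T) : ST d T ε = T • TT d (ε / T ^ (2 * d)) := by
  have hTc : ‖((T : ℝ) : ℂ)‖ = T := by rw [Complex.norm_real, Real.norm_eq_abs, abs_of_pos hT]
  have hTc0 : ((T : ℝ) : ℂ) ≠ 0 := by exact_mod_cast hT.ne'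
  ext x
  rw [mem_smul_set_iff_inv_smul_mem₀ hT.ne']
  unfold ST TT
  simp only [mem_ofPred_eq]
  have e1 : T⁻¹ • x = ((T : ℝ) : ℂ)⁻¹ • x := by
    rw [← Complex.ofReal_inv]
    exact (RCLike.real_smul_eq_coe_smul (K := ℂ) T⁻¹ x)
  rw [norm_smul, e1, res_smul, norm_inv, norm_inv, hTc, Real.norm_eq_abs, abs_of_pos hT,
    inv_mul_le_iff₀ hT, mul_one, inv_pow, ← and_assoc, ← norm_le_iff hT.le,
    inv_mul_le_iff₀ (by positivity), mul_div_cancel₀ _ (by positivity)]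

theorem bad_sub {d : ℕ} {T ε : ℝ} (hT : 0 < T) :
    {x | x ∈ ST d T ε ∧ ¬ HD x} ⊆ T • BB d (ε / T ^ (2 * d)) := by
  rintro x ⟨h1, h2⟩
  rw [ST_eq hT] at h1
  obtain ⟨y, hy, rfl⟩ := h1
  refine ⟨y, ⟨hy.1, hy.2, fun hyp => h2 ?_⟩, rfl⟩
  have hTc0 : ((T : ℝ) : ℂ) ≠ 0 := by exact_mod_cast hT.ne'
  have e1 : T • y = ((T : ℝ) : ℂ) • y := RCLike.real_smul_eq_coe_smul (K := ℂ) T y
  simp only [e1]
  unfold HD
  rw [Prod.smul_fst, Prod.smul_snd, cpoly_smul, cpoly_smul, natDegree_C_mul hTc0,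
    natDegree_C_mul hTc0]
  exact ⟨hyp.1, hyp_smul hTc0 hyp.2⟩

/-- the main theorem -/
theorem main (d : ℕ) (hd : 2 ≤ d) : ∃ A : ℝ, 0 < A ∧ ∀ T ε : ℝ, 0 < T → 0 < ε →
    2 * ε ≤ T ^ (2 * d) → volume (ST d T ε) ≠ 0 ∧ volume (ST d T ε) ≠ ⊤ ∧
    volume {x | x ∈ ST d T ε ∧ ¬ HD x} ≤
      ENNReal.ofReal (A / Real.log (T ^ (2 * d) / ε)) * volume (ST d T ε) := by
  obtain ⟨n, rfl⟩ : ∃ n, d = n + 2 := ⟨d - 2, by omega⟩
  obtain ⟨A, hA, h⟩ := main_unit n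
  refine ⟨A, hA, fun T ε hT hε hTε => ?_⟩
  have hTd : 0 < T ^ (2 * (n + 2)) := by positivity
  obtain ⟨h1, h2⟩ := h (ε / T ^ (2 * (n + 2))) (by positivity) (by
    rw [div_le_div_iff₀ hTd (by norm_num)]
    linarith)
  rw [one_div_div] at h2
  have hinst : (volume : Measure ((Fin (n + 2 + 1) → ℂ) × (Fin (n + 2 + 1) → ℂ))).IsAddHaarMeasure :=
    Measure.prod.instIsAddHaarMeasure _ _
  have hs := fun S : Set ((Fin (n + 2 + 1) → ℂ) × (Fin (n + 2 + 1) → ℂ)) =>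
    Measure.addHaar_smul (volume : Measure ((Fin (n + 2 + 1) → ℂ) × (Fin (n + 2 + 1) → ℂ))) T S
  obtain ⟨κ, hκ⟩ : ∃ κ : ℝ≥0∞, κ = ENNReal.ofReal
    |T ^ Module.finrank ℝ ((Fin (n + 2 + 1) → ℂ) × (Fin (n + 2 + 1) → ℂ))| := ⟨_, rfl⟩
  have hκ0 : κ ≠ 0 := by
    rw [hκ]
    exact (ENNReal.ofReal_pos.2 (abs_pos.2 (pow_ne_zero _ hT.ne'))).ne'
  have hκt : κ ≠ ⊤ := by rw [hκ]; exact ENNReal.ofReal_ne_top
  refine ⟨?_, ?_, ?_⟩
  · rw [ST_eq hT, hs, ← hκ]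
    exact mul_ne_zero hκ0 h1.ne'
  · rw [ST_eq hT, hs, ← hκ]
    exact ENNReal.mul_ne_top hκt (TT_lt _ _).ne
  · refine (measure_mono (bad_sub hT)).trans ?_
    rw [ST_eq hT, hs, hs, ← hκ]
    calc κ * volume (BB (n + 2) (ε / T ^ (2 * (n + 2))))
        ≤ κ * (ENNReal.ofReal (A / Real.log (T ^ (2 * (n + 2)) / ε)) *
          volume (TT (n + 2) (ε / T ^ (2 * (n + 2))))) := mul_le_mul_right h2 _
      _ = _ := by ring

end Pool.Agent.Y295.RS
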